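import Pool.Agent.Clock.Defs

/-!
# Module AR: the integers as a disjoint union of infinitely many arithmetic progressions
-/

namespace Clock

namespace ArithAux

/-- the residues: `3 * r n + 1 = (-2) ^ n` -/
def r (n : ℕ) : ℤ := ((-2) ^ n - 1) / 3

theorem three_r (n : ℕ) : 3 * r n + 1 = (-2) ^ n := by
  have h : (3 : ℤ) ∣ (-2) ^ n - 1 := by
    have h1 := sub_dvd_pow_sub_pow (-2 : ℤ) 1 n
    rw [one_pow] at h1
    have h2 : (3 : ℤ) ∣ -2 - 1 := ⟨-1, by norm_num⟩
    exact h2.trans h1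
  unfold r
  have := Int.mul_ediv_cancel' h
  omega

def g (p : ℕ × ℤ) : ℤ := r p.1 + 2 ^ (p.1 + 1) * p.2

theorem three_g (n : ℕ) (b : ℤ) : 3 * g (n, b) + 1 = 2 ^ n * ((-1) ^ n + 6 * b) := by
  have h := three_r n
  have h2 : (-2 : ℤ) ^ n = 2 ^ n * (-1) ^ n := by
    rw [← mul_pow]; norm_num
  show 3 * (r n + 2 ^ (n + 1) * b) + 1 = _
  rw [pow_succ]
  rw [h2] at h
  linear_combination h

theorem odd_part (n : ℕ) (b : ℤ) : ((-1) ^ n + 6 * b) % 2 = 1 := by
  rcases neg_one_pow_eq_or ℤ n with h | h <;> rw [h] <;> omega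

theorem two_pow_inj : ∀ (n n' : ℕ) (u u' : ℤ), u % 2 = 1 → u' % 2 = 1 →
    2 ^ n * u = 2 ^ n' * u' → n = n' ∧ u = u' := by
  intro n
  induction n with
  | zero =>
    intro n' u u' hu hu' h
    cases n' with
    | zero => exact ⟨rfl, by simpa using h⟩
    | succ n' =>
      rw [pow_zero, one_mul, pow_succ] at h
      exfalso
      have : u = 2 * (2 ^ n' * u') := by rw [h]; ring
      omega
  | succ n ih =>
    intro n' u u' hu hu' h
    cases n' with
    | zero =>
      rw [pow_zero, one_mul, pow_succ] at h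
      exfalso
      have : u' = 2 * (2 ^ n * u) := by rw [← h]; ring
      omega
    | succ n' =>
      have h2 : 2 ^ n * u = 2 ^ n' * u' := by
        rw [pow_succ, pow_succ] at h
        have : 2 * (2 ^ n * u) = 2 * (2 ^ n' * u') := by linear_combination h
        exact mul_left_cancel₀ two_ne_zero this
      obtain ⟨h3, h4⟩ := ih n' u u' hu hu' h2
      exact ⟨by rw [h3], h4⟩

theorem exists_two_pow : ∀ (N : ℕ) (z : ℤ), z.natAbs = N → z ≠ 0 →
    ∃ (n : ℕ) (u : ℤ), u % 2 = 1 ∧ z = 2 ^ n * u := by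
  intro N
  induction N using Nat.strong_induction_on with
  | _ N ih =>
    intro z hz hz0
    by_cases h : z % 2 = 1
    · exact ⟨0, z, h, by simp⟩
    · obtain ⟨y, rfl⟩ : ∃ y, z = 2 * y := ⟨z / 2, by omega⟩
      have hy0 : y ≠ 0 := by rintro rfl; exact hz0 rfl
      obtain ⟨n, u, hu, hy⟩ := ih y.natAbs (by omega) y rfl hy0
      refine ⟨n + 1, u, hu, ?_⟩
      rw [pow_succ, hy]
      ring

theorem two_pow_mod (n : ℕ) : (2 ^ n - (-1) ^ n : ℤ) % 3 = 0 := by
  have h1 := sub_dvd_pow_sub_pow (2 : ℤ) (-1) n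
  have h2 : (2 - -1 : ℤ) = 3 := by norm_num
  rw [h2] at h1
  exact Int.emod_eq_zero_of_dvd h1

theorem g_bij : Function.Bijective g := by
  constructor
  · rintro ⟨n, b⟩ ⟨n', b'⟩ h
    have h1 := three_g n b
    rw [h, three_g n' b'] at h1
    obtain ⟨h2, h3⟩ := two_pow_inj n' n _ _ (odd_part n' b') (odd_part n b) h1
    subst h2
    have : b = b' := by omega
    rw [this]
  · intro k
    obtain ⟨n, u, hu, h⟩ := exists_two_pow _ (3 * k + 1) rfl (by omega)
    have h1 := two_pow_mod n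
    obtain ⟨c, hc⟩ : ∃ c : ℤ, 2 ^ n = (-1) ^ n + 3 * c := by
      refine ⟨(2 ^ n - (-1) ^ n) / 3, ?_⟩
      omega
    rw [hc] at h
    have h2 : ∃ b : ℤ, u = (-1) ^ n + 6 * b := by
      rcases neg_one_pow_eq_or ℤ n with h3 | h3
      · rw [h3] at h ⊢
        have h4 : u = 3 * (k - c * u) + 1 := by linear_combination -h
        exact ⟨(u - 1) / 6, by omega⟩
      · rw [h3] at h ⊢
        have h4 : u = 3 * (c * u - k) - 1 := by linear_combination h
        exact ⟨(u + 1) / 6, by omega⟩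
    obtain ⟨b, hb⟩ := h2
    refine ⟨(n, b), ?_⟩
    have h3 := three_g n b
    rw [← hb, hc, ← h] at h3
    omega

end ArithAux

open ArithAux

theorem exists_prog : ∃ (e : ℤ × ℤ ≃ ℤ) (r m : ℤ → ℤ), (∀ a, 1 ≤ m a) ∧
    ∀ a b, e (a, b) = r a + m a * b := by
  refine ⟨(Equiv.prodCongr Equiv.intEquivNat (Equiv.refl ℤ)).trans (Equiv.ofBijective g g_bij),
    fun a => ArithAux.r (Equiv.intEquivNat a), fun a => 2 ^ (Equiv.intEquivNat a + 1),
    fun a => ?_, fun a b => rfl⟩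
  exact one_le_pow₀ (by norm_num)

end Clock
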