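import Pool.Agent.Clock.Defs

/-!
# Module BP: the bump functions
-/

open scoped ContDiff Topology
open MeasureTheory Filter

namespace Clock

/-! ### coordinates are smooth -/

private theorem qlin (f : HH →ₗ[ℝ] ℝ) : ContDiff ℝ ∞ f :=
  (LinearMap.toContinuousLinearMap f).contDiff

private theorem cd_re : ContDiff ℝ ∞ (fun u : HH => u.re) :=
  qlin { toFun := fun u => u.re, map_add' := fun _ _ => rfl, map_smul' := fun _ _ => rfl }

private theorem cd_imI : ContDiff ℝ ∞ (fun u : HH => u.imI) :=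
  qlin { toFun := fun u => u.imI, map_add' := fun _ _ => rfl, map_smul' := fun _ _ => rfl }

private theorem cd_imJ : ContDiff ℝ ∞ (fun u : HH => u.imJ) :=
  qlin { toFun := fun u => u.imJ, map_add' := fun _ _ => rfl, map_smul' := fun _ _ => rfl }

private theorem cd_imK : ContDiff ℝ ∞ (fun u : HH => u.imK) :=
  qlin { toFun := fun u => u.imK, map_add' := fun _ _ => rfl, map_smul' := fun _ _ => rfl }

private theorem normSq_q (u : HH) : Quaternion.normSq u =
    u.re ^ 2 + u.imI ^ 2 + u.imJ ^ 2 + u.imK ^ 2 := Quaternion.normSq_def' u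

private theorem cd_normSq : ContDiff ℝ ∞ (fun u : HH => Quaternion.normSq u) := by
  have h : (fun u : HH => Quaternion.normSq u) =
      fun u => u.re ^ 2 + u.imI ^ 2 + u.imJ ^ 2 + u.imK ^ 2 := funext normSq_q
  rw [h]
  exact (((cd_re.pow 2).add (cd_imI.pow 2)).add (cd_imJ.pow 2)).add (cd_imK.pow 2)

private theorem cd_cre : ContDiff ℝ ∞ (fun w : ℂ => w.re) := Complex.reCLM.contDiff

private theorem cd_cim : ContDiff ℝ ∞ (fun w : ℂ => w.im) := Complex.imCLM.contDiff

private theorem cd_cnormSq : ContDiff ℝ ∞ (fun w : ℂ => Complex.normSq w) := by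
  have h : (fun w : ℂ => Complex.normSq w) = fun w => w.re * w.re + w.im * w.im :=
    funext Complex.normSq_apply
  rw [h]
  exact (cd_cre.mul cd_cre).add (cd_cim.mul cd_cim)

/-! ### the bump function -/

theorem bmp_contDiff : ContDiff ℝ ∞ bmp := by
  unfold bmp
  exact contDiff_const.mul (expNegInvGlue.contDiff.comp (contDiff_const.sub (contDiff_id.pow 2)))

theorem bmp_nonneg (x : ℝ) : 0 ≤ bmp x :=
  mul_nonneg (Real.exp_pos 1).le (expNegInvGlue.nonneg _)

private theorem glue_eq {t : ℝ} (h : 0 < t) : expNegInvGlue t = Real.exp (-t⁻¹) := by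
  unfold expNegInvGlue
  rw [if_neg (not_le.2 h)]

private theorem bmp_eq {x : ℝ} (h : x ^ 2 < 1) : bmp x = Real.exp (1 - (1 - x ^ 2)⁻¹) := by
  unfold bmp
  rw [glue_eq (by linarith), ← Real.exp_add]
  ring_nf

private theorem bmp_zero {x : ℝ} (h : 1 ≤ x ^ 2) : bmp x = 0 := by
  unfold bmp
  rw [expNegInvGlue.zero_of_nonpos (by linarith), mul_zero]

theorem bmp_le_one (x : ℝ) : bmp x ≤ 1 := by
  rcases lt_or_ge (x ^ 2) 1 with h | h
  · rw [bmp_eq h]
    have h1 : 1 ≤ (1 - x ^ 2)⁻¹ := by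
      rw [one_le_inv₀ (by linarith)]
      linarith [sq_nonneg x]
    exact Real.exp_le_one_iff.2 (by linarith)
  · rw [bmp_zero h]; exact zero_le_one

theorem bmp_eq_one_iff {x : ℝ} : bmp x = 1 ↔ x = 0 := by
  constructor
  · intro h
    rcases lt_or_ge (x ^ 2) 1 with h1 | h1
    · rw [bmp_eq h1, Real.exp_eq_one_iff] at h
      have h2 : (1 - x ^ 2)⁻¹ = 1 := by linarith
      have h3 : 1 - x ^ 2 = 1 := inv_eq_one.1 h2
      exact pow_eq_zero_iff (two_ne_zero) |>.1 (by linarith)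
    · rw [bmp_zero h1] at h
      exact absurd h zero_ne_one
  · rintro rfl
    rw [bmp_eq (by norm_num)]
    norm_num

theorem bmp_ne_zero {x : ℝ} (h : bmp x ≠ 0) : x ^ 2 < 1 := by
  by_contra h1
  exact h (bmp_zero (not_lt.1 h1))

/-! ### `vv` and `chi` -/

theorem vv_nonneg (w : ℂ) : 0 ≤ vv w := bmp_nonneg _
theorem vv_le_one (w : ℂ) : vv w ≤ 1 := bmp_le_one _

theorem vv_ne_zero {w : ℂ} (h : vv w ≠ 0) :
    1 / 2 < Complex.normSq w ∧ Complex.normSq w < 3 / 2 := by
  have h1 := bmp_ne_zero h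
  constructor <;> nlinarith

theorem vv_eq_one_iff {w : ℂ} : vv w = 1 ↔ Complex.normSq w = 1 := by
  unfold vv
  rw [bmp_eq_one_iff]
  constructor <;> intro h <;> linarith

private theorem vv_contDiff : ContDiff ℝ ∞ vv := by
  unfold vv
  exact bmp_contDiff.comp (contDiff_const.mul (cd_cnormSq.sub contDiff_const))

theorem chi_nonneg (u : HH) : 0 ≤ chi u := Real.smoothTransition.nonneg _
theorem chi_le_one (u : HH) : chi u ≤ 1 := Real.smoothTransition.le_one _

theorem chi_eq_one {u : HH} (h : Quaternion.normSq u ≤ 4) : chi u = 1 :=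
  Real.smoothTransition.one_of_one_le (by rw [le_div_iff₀ (by norm_num)]; linarith)

theorem chi_ne_zero {u : HH} (h : chi u ≠ 0) : Quaternion.normSq u < 9 := by
  by_contra h1
  refine h (Real.smoothTransition.zero_of_nonpos ?_)
  exact div_nonpos_of_nonpos_of_nonneg (by linarith [not_lt.1 h1]) (by norm_num)

private theorem chi_contDiff : ContDiff ℝ ∞ chi := by
  unfold chi
  exact Real.smoothTransition.contDiff.comp ((contDiff_const.sub cd_normSq).div_const 5)

/-! ### the defect -/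

private theorem hA_mem (u : HH) : 0 ≤ hA u ∧ hA u ≤ 1 :=
  ⟨mul_nonneg (bmp_nonneg _) (bmp_nonneg _),
    mul_le_one₀ (bmp_le_one _) (bmp_nonneg _) (bmp_le_one _)⟩

private theorem hB_mem (u : HH) : 0 ≤ hB u ∧ hB u ≤ 1 := ⟨bmp_nonneg _, bmp_le_one _⟩

private theorem bB_mem (w : ℂ) : 0 ≤ bB w ∧ bB w ≤ 1 :=
  ⟨Real.smoothTransition.nonneg _, Real.smoothTransition.le_one _⟩

private theorem mix_mem (w : ℂ) (u : HH) :
    0 ≤ (1 - bB w) * hA u + bB w * hB u ∧ (1 - bB w) * hA u + bB w * hB u ≤ 1 := by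
  obtain ⟨h1, h2⟩ := hA_mem u
  obtain ⟨h3, h4⟩ := hB_mem u
  obtain ⟨h5, h6⟩ := bB_mem w
  constructor
  · exact add_nonneg (mul_nonneg (by linarith) h1) (mul_nonneg h5 h3)
  · nlinarith

theorem kap_nonneg (w : ℂ) (u : HH) : 0 ≤ kap w u := mul_nonneg (vv_nonneg w) (mix_mem w u).1

theorem kap_le_one (w : ℂ) (u : HH) : kap w u ≤ 1 :=
  mul_le_one₀ (vv_le_one w) (mix_mem w u).1 (mix_mem w u).2

theorem kap_ne_zero {w : ℂ} {u : HH} (h : kap w u ≠ 0) :
    vv w ≠ 0 ∧ chi u = 1 ∧ Quaternion.normSq u < 4 := by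
  have h1 : vv w ≠ 0 := fun h0 => h (by unfold kap; rw [h0, zero_mul])
  have h2 : (1 - bB w) * hA u + bB w * hB u ≠ 0 := fun h0 => h (by unfold kap; rw [h0, mul_zero])
  have h3 : Quaternion.normSq u < 4 := by
    by_cases h4 : hA u = 0
    · have h5 : hB u ≠ 0 := by
        intro h5
        rw [h4, h5] at h2
        simp at h2
      have h6 : Quaternion.normSq (u - 1) ^ 2 < 1 := bmp_ne_zero h5
      have h7 : 0 ≤ Quaternion.normSq (u - 1) := Quaternion.normSq_nonneg
      have h8 : Quaternion.normSq (u - 1) < 1 := by nlinarith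
      rw [normSq_q] at h8 ⊢
      simp only [Quaternion.re_sub, Quaternion.imI_sub, Quaternion.imJ_sub, Quaternion.imK_sub,
        Quaternion.re_one, Quaternion.imI_one, Quaternion.imJ_one, Quaternion.imK_one] at h8
      nlinarith [sq_nonneg (u.re - 2), sq_nonneg u.imI, sq_nonneg u.imJ, sq_nonneg u.imK]
    · have h5 : bmp (u.re ^ 2 + u.imI ^ 2 - 1) ≠ 0 := fun h0 => h4 (by unfold hA; rw [h0, zero_mul])
      have h6 : bmp (u.imJ ^ 2 + u.imK ^ 2) ≠ 0 := fun h0 => h4 (by unfold hA; rw [h0, mul_zero])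
      have h7 := bmp_ne_zero h5
      have h8 := bmp_ne_zero h6
      rw [normSq_q]
      have h9 : u.re ^ 2 + u.imI ^ 2 < 2 := by nlinarith
      have h10 : u.imJ ^ 2 + u.imK ^ 2 < 1 := by nlinarith [sq_nonneg u.imJ, sq_nonneg u.imK]
      linarith
  exact ⟨h1, chi_eq_one h3.le, h3⟩

theorem kap_eq_one {w : ℂ} {u : HH} (h : kap w u = 1) :
    Complex.normSq w = 1 ∧ chi u = 1 ∧ (w = 1 → u = 1) := by
  obtain ⟨m1, m2⟩ := mix_mem w u
  have h1 : vv w = 1 := by
    have h2 := vv_le_one w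
    have h3 := vv_nonneg w
    unfold kap at h
    nlinarith
  have h2 : (1 - bB w) * hA u + bB w * hB u = 1 := by
    unfold kap at h
    rwa [h1, one_mul] at h
  refine ⟨vv_eq_one_iff.1 h1, (kap_ne_zero (by rw [h]; exact one_ne_zero)).2.1, fun hw => ?_⟩
  have h3 : bB w = 1 := by
    rw [hw]
    exact Real.smoothTransition.one_of_one_le (by simp)
  rw [h3] at h2
  have h4 : hB u = 1 := by linarith
  have h5 : Quaternion.normSq (u - 1) = 0 := bmp_eq_one_iff.1 h4
  exact sub_eq_zero.1 (Quaternion.normSq_eq_zero.1 h5)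

theorem kap_circle {w : ℂ} (h : Complex.normSq w = 1) : kap w 1 = 1 := by
  unfold kap hA hB
  rw [vv_eq_one_iff.2 h]
  have h1 : bmp ((1 : HH).re ^ 2 + (1 : HH).imI ^ 2 - 1) = 1 := bmp_eq_one_iff.2 (by
    show (1 : ℝ) ^ 2 + 0 ^ 2 - 1 = 0
    norm_num)
  have h2 : bmp ((1 : HH).imJ ^ 2 + (1 : HH).imK ^ 2) = 1 := bmp_eq_one_iff.2 (by
    show (0 : ℝ) ^ 2 + 0 ^ 2 = 0
    norm_num)
  have h3 : bmp (Quaternion.normSq ((1 : HH) - 1)) = 1 := bmp_eq_one_iff.2 (by simp)
  rw [h1, h2, h3]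
  ring

private theorem cd_w : ContDiff ℝ ∞ (fun b : B => b.2.1) := contDiff_fst.comp contDiff_snd

private theorem cd_u : ContDiff ℝ ∞ (fun b : B => b.2.2) := contDiff_snd.comp contDiff_snd

theorem gg_contDiff : ContDiff ℝ ∞ gg := by
  have hA' : ContDiff ℝ ∞ hA := by
    unfold hA
    exact (bmp_contDiff.comp (((cd_re.pow 2).add (cd_imI.pow 2)).sub contDiff_const)).mul
      (bmp_contDiff.comp ((cd_imJ.pow 2).add (cd_imK.pow 2)))
  have hB' : ContDiff ℝ ∞ hB := by
    unfold hB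
    exact bmp_contDiff.comp (cd_normSq.comp (contDiff_id.sub contDiff_const))
  have bB' : ContDiff ℝ ∞ bB := by
    unfold bB
    exact Real.smoothTransition.contDiff.comp cd_cre
  unfold gg kap
  refine contDiff_const.sub ((vv_contDiff.comp cd_w).mul (ContDiff.add ?_ ?_))
  · exact (contDiff_const.sub (bB'.comp cd_w)).mul (hA'.comp cd_u)
  · exact (bB'.comp cd_w).mul (hB'.comp cd_u)

theorem om_contDiff : ContDiff ℝ ∞ om := by
  unfold om
  exact (vv_contDiff.comp cd_w).mul (chi_contDiff.comp cd_u)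

theorem eta_contDiff : ContDiff ℝ ∞ eta := by
  rw [contDiff_iff_contDiffAt]
  intro w
  by_cases h : Complex.normSq w < 1 / 8
  · have h1 : ∀ᶠ w' in 𝓝 w, Complex.normSq w' < 1 / 8 :=
      cd_cnormSq.continuous.continuousAt.eventually_lt_const h
    refine (contDiffAt_const (c := (0 : ℝ))).congr_of_eventuallyEq ?_
    filter_upwards [h1] with w' hw'
    unfold eta
    rw [Real.smoothTransition.zero_of_nonpos (by linarith), mul_zero, zero_mul]
  · have h0 : Complex.normSq w ≠ 0 := by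
      intro h0; rw [h0] at h; norm_num at h
    have h2 : ContDiffAt ℝ ∞ (fun w : ℂ => Real.sqrt (Complex.normSq w)) w :=
      cd_cnormSq.contDiffAt.sqrt h0
    have h3 : Real.sqrt (Complex.normSq w) ≠ 0 :=
      (Real.sqrt_pos.2 (lt_of_le_of_ne (Complex.normSq_nonneg w) h0.symm)).ne'
    unfold eta
    refine ContDiffAt.mul ?_ ?_
    · exact (contDiff_const.mul (Real.smoothTransition.contDiff.comp
        ((contDiff_const.mul cd_cnormSq).sub contDiff_const))).contDiffAt
    · exact expNegInvGlue.contDiff.contDiffAt.comp w (cd_cre.contDiffAt.div h2 h3).neg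

private theorem cont_density : Continuous fun θ : ℝ => expNegInvGlue (- Real.cos θ) :=
  (expNegInvGlue.contDiff (n := 0)).continuous.comp Real.continuous_cos.neg

private theorem int_pos : 0 < ∫ θ in (0 : ℝ)..(2 * Real.pi), expNegInvGlue (- Real.cos θ) := by
  have hpi := Real.pi_pos
  refine intervalIntegral.integral_pos (by positivity) cont_density.continuousOn
    (fun θ _ => expNegInvGlue.nonneg _) ⟨Real.pi, ⟨hpi.le, by linarith⟩, ?_⟩
  rw [Real.cos_pi, neg_neg]
  exact expNegInvGlue.pos_of_pos one_pos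

theorem C0_pos : 0 < C0 := by
  unfold C0
  have hpi := Real.pi_pos
  exact div_pos (by positivity) int_pos

theorem C0_integral : ∫ θ in (0 : ℝ)..(2 * Real.pi), C0 * expNegInvGlue (- Real.cos θ) =
    2 * Real.pi := by
  rw [intervalIntegral.integral_const_mul]
  unfold C0
  exact div_mul_cancel₀ _ int_pos.ne'

theorem eta_polar {r θ : ℝ} (hr : 1 / 2 ≤ r) :
    eta (r * Complex.exp ((θ : ℂ) * Complex.I)) = C0 * expNegInvGlue (- Real.cos θ) := by
  have hr0 : 0 < r := by linarith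
  have h1 : Complex.normSq (r * Complex.exp ((θ : ℂ) * Complex.I)) = r ^ 2 := by
    rw [map_mul, Complex.normSq_ofReal, Complex.normSq_eq_norm_sq, Complex.norm_exp_ofReal_mul_I]
    ring
  have h2 : ((r : ℂ) * Complex.exp ((θ : ℂ) * Complex.I)).re = r * Real.cos θ := by
    rw [Complex.re_ofReal_mul, Complex.exp_ofReal_mul_I_re]
  unfold eta
  rw [h1, h2, Real.sqrt_sq hr0.le, mul_div_cancel_left₀ _ hr0.ne',
    Real.smoothTransition.one_of_one_le (by nlinarith), mul_one]

end Clock
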