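import Pool.Agent.Clock.Defs
import Pool.Agent.Clock.Bumps

/-!
# Module ZT: the degree one map and the unit quaternion extending it
-/

open scoped ContDiff Topology
open MeasureTheory Filter

namespace Clock

private theorem dens_contDiff : ContDiff ℝ ∞ (fun t : ℝ => C0 * expNegInvGlue (- Real.cos t)) :=
  contDiff_const.mul (expNegInvGlue.contDiff.comp Real.contDiff_cos.neg)

private theorem dens_cont : Continuous (fun t : ℝ => C0 * expNegInvGlue (- Real.cos t)) :=
  dens_contDiff.continuous

private theorem dens_per : Function.Periodic (fun t : ℝ => C0 * expNegInvGlue (- Real.cos t))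
    (2 * Real.pi) := by
  intro t
  show C0 * expNegInvGlue (- Real.cos (t + 2 * Real.pi)) = _
  rw [Real.cos_add_two_pi]

private theorem SS_hasDerivAt (θ : ℝ) : HasDerivAt SS (C0 * expNegInvGlue (- Real.cos θ)) θ :=
  intervalIntegral.integral_hasDerivAt_right (dens_cont.intervalIntegrable _ _)
    (dens_cont.stronglyMeasurableAtFilter _ _) dens_cont.continuousAt

theorem SS_contDiff : ContDiff ℝ ∞ SS := by
  rw [contDiff_infty_iff_deriv]
  refine ⟨fun θ => (SS_hasDerivAt θ).differentiableAt, ?_⟩
  have : deriv SS = fun t : ℝ => C0 * expNegInvGlue (- Real.cos t) :=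
    funext fun θ => (SS_hasDerivAt θ).deriv
  rw [this]
  exact dens_contDiff

theorem SS_add (θ : ℝ) : SS (θ + 2 * Real.pi) = SS θ + 2 * Real.pi := by
  unfold SS
  have h1 := intervalIntegral.integral_add_adjacent_intervals
    (dens_cont.intervalIntegrable (μ := volume) 0 θ)
    (dens_cont.intervalIntegrable (μ := volume) θ (θ + 2 * Real.pi))
  have h2 := dens_per.intervalIntegral_add_eq θ 0
  rw [zero_add, C0_integral] at h2
  rw [← h1, h2]

theorem SS_eq_zero {θ : ℝ} (h : |θ| ≤ Real.pi / 2) : SS θ = 0 := by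
  unfold SS
  refine intervalIntegral.integral_zero_ae (Eventually.of_forall fun t ht => ?_)
  have h1 : |t| ≤ Real.pi / 2 := by
    rw [Set.mem_uIoc] at ht
    rw [abs_le] at h ⊢
    rcases ht with ⟨h2, h3⟩ | ⟨h2, h3⟩ <;> constructor <;> linarith
  have h2 : 0 ≤ Real.cos t := by
    rw [abs_le] at h1
    exact Real.cos_nonneg_of_neg_pi_div_two_le_of_le (by linarith) h1.2
  rw [expNegInvGlue.zero_of_nonpos (by linarith), mul_zero]

private theorem SS_sub_int (θ : ℝ) (k : ℤ) :
    SS (θ - k * (2 * Real.pi)) = SS θ - k * (2 * Real.pi) := by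
  have hp : Function.Periodic (fun θ => SS θ - θ) (2 * Real.pi) := by
    intro θ
    show SS (θ + 2 * Real.pi) - (θ + 2 * Real.pi) = SS θ - θ
    rw [SS_add]; ring
  have h : SS (θ - k * (2 * Real.pi)) - (θ - k * (2 * Real.pi)) = SS θ - θ :=
    hp.sub_int_mul_eq k (x := θ)
  linarith

private theorem exp_int (x : ℝ) (k : ℤ) :
    Complex.exp (((x - k * (2 * Real.pi) : ℝ) : ℂ) * Complex.I) =
      Complex.exp ((x : ℂ) * Complex.I) := by
  have h : (((x - k * (2 * Real.pi) : ℝ) : ℂ) * Complex.I) =
      (x : ℂ) * Complex.I - k * (2 * Real.pi * Complex.I) := by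
    push_cast; ring
  rw [h, Complex.exp_sub, Complex.exp_int_mul_two_pi_mul_I, div_one]

theorem zeta_polar {r θ : ℝ} (hr : 0 < r) :
    zeta (r * Complex.exp ((θ : ℂ) * Complex.I)) = Complex.exp ((SS θ : ℝ) * Complex.I) := by
  unfold zeta
  have h1 : Complex.arg (r * Complex.exp ((θ : ℂ) * Complex.I)) =
      θ - (toIocDiv Real.two_pi_pos (-Real.pi) θ : ℝ) * (2 * Real.pi) := by
    rw [Complex.exp_mul_I, Complex.arg_mul_cos_add_sin_mul_I_eq_toIocMod hr]
    rw [← self_sub_toIocDiv_zsmul, zsmul_eq_mul]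
  rw [h1, SS_sub_int, exp_int]

theorem zeta_eq_one {w : ℂ} (h : 0 < w.re) : zeta w = 1 := by
  unfold zeta
  rw [SS_eq_zero (Complex.abs_arg_le_pi_div_two_iff.2 h.le)]
  simp

theorem zeta_norm (w : ℂ) : ‖zeta w‖ = 1 := by
  unfold zeta
  exact Complex.norm_exp_ofReal_mul_I _

private theorem cd_cnormSq' : ContDiff ℝ ∞ (fun w : ℂ => Complex.normSq w) := by
  have h : (fun w : ℂ => Complex.normSq w) = fun w => w.re * w.re + w.im * w.im :=
    funext Complex.normSq_apply
  rw [h]
  exact (Complex.reCLM.contDiff.mul Complex.reCLM.contDiff).add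
    (Complex.imCLM.contDiff.mul Complex.imCLM.contDiff)

private theorem arg_contDiffAt {w : ℂ} (h : w ∈ Complex.slitPlane) :
    ContDiffAt ℝ ∞ Complex.arg w := by
  have h1 : ContDiffAt ℝ ∞ Complex.log w := (Complex.contDiffAt_log h).restrict_scalars ℝ
  have h2 : Complex.arg = fun w => (Complex.log w).im := by
    funext w; exact (Complex.log_im w).symm
  rw [h2]
  exact Complex.imCLM.contDiff.contDiffAt.comp w h1

private theorem expI_contDiff : ContDiff ℝ ∞ (fun x : ℝ => Complex.exp ((x : ℂ) * Complex.I)) :=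
  (Complex.contDiff_exp (𝕜 := ℝ)).comp (Complex.ofRealCLM.contDiff.mul contDiff_const)

private theorem zeta_contDiffAt {w : ℂ} (h : w ≠ 0) : ContDiffAt ℝ ∞ zeta w := by
  by_cases hs : w ∈ Complex.slitPlane
  · exact (expI_contDiff.contDiffAt.comp w (SS_contDiff.contDiffAt.comp w (arg_contDiffAt hs)))
  · -- `w` is on the negative axis
    have hneg : -w ∈ Complex.slitPlane := by
      rw [Complex.mem_slitPlane_iff] at hs ⊢
      push Not at hs
      left
      rw [Complex.neg_re]
      rcases lt_or_eq_of_le hs.1 with h1 | h1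
      · linarith
      · exact absurd (Complex.ext h1 hs.2) h
    have h1 : zeta = fun w' => zeta w' := rfl
    have hev : ∀ᶠ w' in 𝓝 w, -w' ∈ Complex.slitPlane :=
      continuous_neg.continuousAt.eventually (Complex.isOpen_slitPlane.mem_nhds hneg)
    have h2 : ContDiffAt ℝ ∞ (fun w' : ℂ =>
        Complex.exp (((SS (Complex.arg (-w') + Real.pi) : ℝ) : ℂ) * Complex.I)) w := by
      have h3 : ContDiffAt ℝ ∞ (fun w' : ℂ => Complex.arg (-w')) w :=
        (arg_contDiffAt hneg).comp w contDiff_neg.contDiffAt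
      exact expI_contDiff.contDiffAt.comp w
        (SS_contDiff.contDiffAt.comp w (h3.add contDiffAt_const))
    refine h2.congr_of_eventuallyEq ?_
    filter_upwards [hev] with w' hw'
    have hw0 : w' ≠ 0 := by
      rintro rfl
      rw [neg_zero] at hw'
      exact Complex.zero_notMem_slitPlane hw'
    have h3 : 0 < ‖w'‖ := norm_pos_iff.2 hw0
    have h4 : w' = (‖w'‖ : ℂ) *
        Complex.exp (((Complex.arg (-w') + Real.pi : ℝ) : ℂ) * Complex.I) := by
      have h5 := Complex.norm_mul_exp_arg_mul_I (-w')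
      rw [norm_neg] at h5
      have h6 : (((Complex.arg (-w') + Real.pi : ℝ) : ℂ) * Complex.I) =
          (Complex.arg (-w') : ℂ) * Complex.I + Real.pi * Complex.I := by push_cast; ring
      rw [h6, Complex.exp_add, Complex.exp_pi_mul_I, ← mul_assoc, h5]
      ring
    conv_lhs => rw [h4]
    exact zeta_polar h3

private theorem ang_contDiff : ContDiff ℝ ∞ ang := by
  unfold ang
  exact contDiff_const.mul (contDiff_const.sub (Real.smoothTransition.contDiff.comp
    ((contDiff_const.mul cd_cnormSq').sub contDiff_const)))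

private theorem coe_contDiff : ContDiff ℝ ∞ (fun z : ℂ => ((z : ℂ) : HH)) := by
  let f : ℂ →ₗ[ℝ] HH :=
    { toFun := fun z => ((z : ℂ) : HH)
      map_add' := fun a b => Quaternion.coeComplex_add a b
      map_smul' := fun r a => by
        ext <;> simp }
  exact (LinearMap.toContinuousLinearMap f).contDiff

theorem RR_contDiff : ContDiff ℝ ∞ RR := by
  rw [contDiff_iff_contDiffAt]
  intro w
  by_cases h : Complex.normSq w < 1 / 8
  · have h1 : ∀ᶠ w' in 𝓝 w, Complex.normSq w' < 1 / 8 :=
      cd_cnormSq'.continuous.continuousAt.eventually_lt_const h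
    refine (contDiffAt_const (c := Jq)).congr_of_eventuallyEq ?_
    filter_upwards [h1] with w' hw'
    have h2 : ang w' = Real.pi / 2 := by
      unfold ang
      rw [Real.smoothTransition.zero_of_nonpos (by linarith), sub_zero, mul_one]
    unfold RR
    rw [h2, Real.cos_pi_div_two, Real.sin_pi_div_two, zero_smul, one_smul, zero_add]
  · have h0 : w ≠ 0 := by
      rintro rfl
      rw [map_zero] at h
      norm_num at h
    unfold RR
    refine ContDiffAt.add ?_ ?_
    · exact ((Real.contDiff_cos.comp ang_contDiff).contDiffAt).smul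
        (coe_contDiff.contDiffAt.comp w (zeta_contDiffAt h0))
    · exact ((Real.contDiff_sin.comp ang_contDiff).contDiffAt).smul contDiffAt_const

theorem RR_norm (w : ℂ) : ‖RR w‖ = 1 := by
  have h1 : ‖RR w‖ ^ 2 = 1 := by
    rw [sq, ← Quaternion.normSq_eq_norm_mul_self, Quaternion.normSq_def']
    have h2 : (zeta w).re ^ 2 + (zeta w).im ^ 2 = 1 := by
      have h3 := Complex.normSq_eq_norm_sq (zeta w)
      rw [zeta_norm, Complex.normSq_apply] at h3
      linarith
    have e1 : (RR w).re = Real.cos (ang w) * (zeta w).re + Real.sin (ang w) * 0 := rfl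
    have e2 : (RR w).imI = Real.cos (ang w) * (zeta w).im + Real.sin (ang w) * 0 := rfl
    have e3 : (RR w).imJ = Real.cos (ang w) * 0 + Real.sin (ang w) * 1 := rfl
    have e4 : (RR w).imK = Real.cos (ang w) * 0 + Real.sin (ang w) * 0 := rfl
    rw [e1, e2, e3, e4]
    have h4 := Real.sin_sq_add_cos_sq (ang w)
    linear_combination Real.cos (ang w) ^ 2 * h2 + h4
  have h2 := norm_nonneg (RR w)
  nlinarith

theorem RR_eq_zeta {w : ℂ} (h : 1 / 4 ≤ Complex.normSq w) : RR w = ((zeta w : ℂ) : HH) := by
  have h2 : ang w = 0 := by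
    unfold ang
    rw [Real.smoothTransition.one_of_one_le (by linarith), sub_self, mul_zero]
  unfold RR
  rw [h2, Real.cos_zero, Real.sin_zero, zero_smul, one_smul, add_zero]

theorem RR_zero : RR 0 = Jq := by
  have h2 : ang 0 = Real.pi / 2 := by
    unfold ang
    rw [map_zero, Real.smoothTransition.zero_of_nonpos (by norm_num), sub_zero, mul_one]
  unfold RR
  rw [h2, Real.cos_pi_div_two, Real.sin_pi_div_two, zero_smul, one_smul, zero_add]

end Clock
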