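import Pool.Agent.Clock.Cocycle
import Pool.Agent.Clock.Bumps
import Pool.Agent.Clock.Zeta

/-!
# The base flow, the height cocycle and the clock field
-/

open scoped ContDiff Topology
open MeasureTheory

namespace Clock

theorem bflow_fst (t : ℝ) (b : B) : (bflow t b).1 = b.1 := rfl

theorem FBAux.normSq_rot (a : ℝ) : Complex.normSq (Complex.exp ((a : ℂ) * Complex.I)) = 1 := by
  rw [Complex.normSq_eq_norm_sq, Complex.norm_exp_ofReal_mul_I, one_pow]

theorem bflow_normSq_w (t : ℝ) (b : B) :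
    Complex.normSq (bflow t b).2.1 = Complex.normSq b.2.1 := by
  show Complex.normSq (b.2.1 * Complex.exp (((om b * t : ℝ) : ℂ) * Complex.I)) = _
  rw [map_mul, FBAux.normSq_rot, mul_one]

theorem FBAux.normSq_coe (z : ℂ) : Quaternion.normSq ((z : ℂ) : HH) = Complex.normSq z := by
  rw [Quaternion.normSq_def', Complex.normSq_apply]
  simp
  ring

theorem bflow_normSq_u (t : ℝ) (b : B) :
    Quaternion.normSq (bflow t b).2.2 = Quaternion.normSq b.2.2 := by
  show Quaternion.normSq (((Complex.exp (((b.1 * sig t b : ℝ) : ℂ) * Complex.I) : ℂ) : HH) *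
    b.2.2) = _
  rw [map_mul, FBAux.normSq_coe, FBAux.normSq_rot, one_mul]

theorem bflow_om (t : ℝ) (b : B) : om (bflow t b) = om b := by
  unfold om vv chi
  rw [bflow_normSq_w, bflow_normSq_u]

/-- the embedding of the complex numbers as a continuous linear map -/
noncomputable def FBAux.coeL : ℂ →L[ℝ] HH :=
  LinearMap.toContinuousLinearMap
    { toFun := fun z => ((z : ℂ) : HH)
      map_add' := fun a b => by simp
      map_smul' := fun c a => by ext <;> simp }

theorem FBAux.coeL_apply (z : ℂ) : FBAux.coeL z = ((z : ℂ) : HH) := rfl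

theorem FBAux.contDiff_rot {X : Type} [NormedAddCommGroup X] [NormedSpace ℝ X] {f : X → ℝ}
    (hf : ContDiff ℝ ∞ f) :
    ContDiff ℝ ∞ (fun x => Complex.exp (((f x : ℝ) : ℂ) * Complex.I)) := by
  apply ContDiff.cexp
  exact (Complex.ofRealCLM.contDiff.comp hf).mul contDiff_const

theorem FBAux.sig_contDiff : ContDiff ℝ ∞ (fun q : ℝ × B => sig q.1 q.2) := by
  have h : ContDiff ℝ ∞ (fun q : ℝ × B => om q.2 * eta (q.2.2.1 *
      Complex.exp (((om q.2 * q.1 : ℝ) : ℂ) * Complex.I))) := by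
    have hom : ContDiff ℝ ∞ (fun q : ℝ × B => om q.2) := om_contDiff.comp contDiff_snd
    apply hom.mul
    apply eta_contDiff.comp
    apply ContDiff.mul
    · exact contDiff_fst.comp (contDiff_snd.comp contDiff_snd)
    · exact FBAux.contDiff_rot (hom.mul contDiff_fst)
  exact contDiff_primitive h

theorem FBAux.bflow_contDiff : ContDiff ℝ ∞ (fun q : ℝ × B => bflow q.1 q.2) := by
  have hom : ContDiff ℝ ∞ (fun q : ℝ × B => om q.2) := om_contDiff.comp contDiff_snd
  have h1 : ContDiff ℝ ∞ (fun q : ℝ × B => q.2.1) := contDiff_fst.comp contDiff_snd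
  have h2 : ContDiff ℝ ∞ (fun q : ℝ × B => q.2.2.1 *
      Complex.exp (((om q.2 * q.1 : ℝ) : ℂ) * Complex.I)) :=
    (contDiff_fst.comp (contDiff_snd.comp contDiff_snd)).mul
      (FBAux.contDiff_rot (hom.mul contDiff_fst))
  have h3 : ContDiff ℝ ∞ (fun q : ℝ × B =>
      ((Complex.exp (((q.2.1 * sig q.1 q.2 : ℝ) : ℂ) * Complex.I) : ℂ) : HH) * q.2.2.2) := by
    apply ContDiff.mul
    · exact FBAux.coeL.contDiff.comp (FBAux.contDiff_rot (h1.mul FBAux.sig_contDiff))
    · exact contDiff_snd.comp (contDiff_snd.comp contDiff_snd)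
  exact h1.prodMk (h2.prodMk h3)

theorem FBAux.sig_zero (b : B) : sig 0 b = 0 := by
  unfold sig
  exact intervalIntegral.integral_same

theorem FBAux.rot_mul (a c : ℝ) : Complex.exp ((a : ℂ) * Complex.I) *
    Complex.exp ((c : ℂ) * Complex.I) = Complex.exp (((a + c : ℝ) : ℂ) * Complex.I) := by
  rw [← Complex.exp_add]
  congr 1
  push_cast
  ring

theorem FBAux.density_continuous (b : B) : Continuous (fun s : ℝ => om b * eta (b.2.1 *
    Complex.exp (((om b * s : ℝ) : ℂ) * Complex.I))) := by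
  apply Continuous.mul continuous_const
  apply eta_contDiff.continuous.comp
  apply Continuous.mul continuous_const
  have : ContDiff ℝ ∞ (fun s : ℝ => Complex.exp (((om b * s : ℝ) : ℂ) * Complex.I)) :=
    FBAux.contDiff_rot (contDiff_const.mul contDiff_id)
  exact this.continuous

theorem FBAux.sig_add (s t : ℝ) (b : B) : sig (s + t) b = sig s (bflow t b) + sig t b := by
  have hi : ∀ a c : ℝ, IntervalIntegrable (fun s : ℝ => om b * eta (b.2.1 *
      Complex.exp (((om b * s : ℝ) : ℂ) * Complex.I))) volume a c :=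
    fun a c => (FBAux.density_continuous b).intervalIntegrable a c
  have h1 : sig s (bflow t b) = ∫ r in t..(s + t), om b * eta (b.2.1 *
      Complex.exp (((om b * r : ℝ) : ℂ) * Complex.I)) := by
    have h2 := intervalIntegral.integral_comp_add_right (a := 0) (b := s)
      (fun r => om b * eta (b.2.1 * Complex.exp (((om b * r : ℝ) : ℂ) * Complex.I))) t
    rw [zero_add] at h2
    rw [← h2]
    unfold sig
    congr 1
    ext r
    rw [bflow_om]
    congr 2
    show (b.2.1 * Complex.exp (((om b * t : ℝ) : ℂ) * Complex.I)) *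
      Complex.exp (((om b * r : ℝ) : ℂ) * Complex.I) = _
    rw [mul_assoc, FBAux.rot_mul]
    congr 4
    ring
  rw [h1, _root_.add_comm (∫ r in t..(s + t), _)]
  exact (intervalIntegral.integral_add_adjacent_intervals (hi _ _) (hi _ _)).symm

theorem bflow_isFlow : IsFlow bflow := by
  refine ⟨FBAux.bflow_contDiff, ?_, ?_⟩
  · intro b
    refine Prod.ext rfl (Prod.ext ?_ ?_)
    · show b.2.1 * Complex.exp (((om b * 0 : ℝ) : ℂ) * Complex.I) = b.2.1
      simp
    · show ((Complex.exp (((b.1 * sig 0 b : ℝ) : ℂ) * Complex.I) : ℂ) : HH) * b.2.2 = b.2.2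
      rw [FBAux.sig_zero]
      simp
  · intro s t b
    refine Prod.ext rfl (Prod.ext ?_ ?_)
    · show b.2.1 * Complex.exp (((om b * (s + t) : ℝ) : ℂ) * Complex.I) =
        (b.2.1 * Complex.exp (((om b * t : ℝ) : ℂ) * Complex.I)) *
          Complex.exp (((om (bflow t b) * s : ℝ) : ℂ) * Complex.I)
      rw [bflow_om, mul_assoc, FBAux.rot_mul]
      congr 4
      ring
    · show ((Complex.exp (((b.1 * sig (s + t) b : ℝ) : ℂ) * Complex.I) : ℂ) : HH) * b.2.2 =
        ((Complex.exp (((b.1 * sig s (bflow t b) : ℝ) : ℂ) * Complex.I) : ℂ) : HH) *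
        (((Complex.exp (((b.1 * sig t b : ℝ) : ℂ) * Complex.I) : ℂ) : HH) * b.2.2)
      rw [← mul_assoc, ← Quaternion.coeComplex_mul, FBAux.rot_mul, FBAux.sig_add, mul_add]

theorem FBAux.norm_w (t : ℝ) (b : B) : ‖(bflow t b).2.1‖ = ‖b.2.1‖ := by
  have h := bflow_normSq_w t b
  rw [Complex.normSq_eq_norm_sq, Complex.normSq_eq_norm_sq] at h
  exact (sq_eq_sq₀ (norm_nonneg _) (norm_nonneg _)).1 h

theorem FBAux.norm_u (t : ℝ) (b : B) : ‖(bflow t b).2.2‖ = ‖b.2.2‖ := by
  have h := bflow_normSq_u t b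
  rw [Quaternion.normSq_eq_norm_mul_self, Quaternion.normSq_eq_norm_mul_self, ← pow_two,
    ← pow_two] at h
  exact (sq_eq_sq₀ (norm_nonneg _) (norm_nonneg _)).1 h

theorem bflow_bounded (b : B) : ∃ K : Set B, IsCompact K ∧ ∀ t, bflow t b ∈ K := by
  have : ProperSpace B := FiniteDimensional.proper ℝ B
  refine ⟨Metric.closedBall 0 ‖b‖, isCompact_closedBall _ _, ?_⟩
  intro t
  rw [mem_closedBall_zero_iff, Prod.norm_def, Prod.norm_def, Prod.norm_def, Prod.norm_def,
    FBAux.norm_w, FBAux.norm_u, bflow_fst]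

/-- `sig` in polar coordinates -/
theorem sig_polar {t y r θ : ℝ} {u : HH} (hr : 1 / 2 ≤ r) :
    sig t (y, r * Complex.exp ((θ : ℂ) * Complex.I), u) =
      SS (θ + om (y, r * Complex.exp ((θ : ℂ) * Complex.I), u) * t) - SS θ := by
  set o : ℝ := om (y, r * Complex.exp ((θ : ℂ) * Complex.I), u) with ho
  have hc : Continuous (fun t : ℝ => C0 * expNegInvGlue (- Real.cos t)) := by
    apply Continuous.mul continuous_const
    exact (expNegInvGlue.contDiff (n := 0)).continuous.comp Real.continuous_cos.neg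
  have h1 : sig t (y, r * Complex.exp ((θ : ℂ) * Complex.I), u) =
      ∫ s in (0 : ℝ)..t, o * (C0 * expNegInvGlue (- Real.cos (θ + o * s))) := by
    unfold sig
    congr 1
    ext s
    rw [← ho]
    congr 1
    show eta ((r * Complex.exp ((θ : ℂ) * Complex.I)) *
      Complex.exp (((o * s : ℝ) : ℂ) * Complex.I)) = _
    rw [mul_assoc, FBAux.rot_mul]
    exact eta_polar hr
  rw [h1, intervalIntegral.integral_const_mul]
  have h2 := intervalIntegral.mul_integral_comp_add_mul (a := 0) (b := t)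
    (f := fun t => C0 * expNegInvGlue (- Real.cos t)) o θ
  rw [h2, mul_zero, add_zero]
  unfold SS
  rw [intervalIntegral.integral_interval_sub_left (hc.intervalIntegrable _ _)
    (hc.intervalIntegrable _ _)]

theorem cY_isCocycle : IsCocycle bflow cY := cocycle_of_density bflow_isFlow gg_contDiff

theorem flowY_isFlow : IsFlow flowY := skew_isFlow bflow_isFlow cY_isCocycle

theorem FBAux.hasDerivAt_sig (b : B) : HasDerivAt (fun t => sig t b) (om b * eta b.2.1) 0 := by
  have hc := FBAux.density_continuous b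
  have h := intervalIntegral.integral_hasDerivAt_right (a := 0) (b := 0)
    (hc.intervalIntegrable _ _) (hc.stronglyMeasurableAtFilter _ _) hc.continuousAt
  refine HasDerivAt.congr_deriv (f := fun t => sig t b) h ?_
  simp

theorem FBAux.hasDerivAt_cY (b : B) : HasDerivAt (fun t => cY t b) (gg b) 0 := by
  have hc : Continuous (fun s : ℝ => gg (bflow s b)) :=
    gg_contDiff.continuous.comp (FBAux.bflow_contDiff.continuous.comp
      (continuous_id.prodMk continuous_const))
  have h := intervalIntegral.integral_hasDerivAt_right (a := 0) (b := 0)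
    (hc.intervalIntegrable _ _) (hc.stronglyMeasurableAtFilter _ _) hc.continuousAt
  refine HasDerivAt.congr_deriv (f := fun t => cY t b) h ?_
  rw [bflow_isFlow.zero]

theorem FBAux.hasDerivAt_rot {f : ℝ → ℝ} {f' : ℝ} (h : HasDerivAt f f' 0) (h0 : f 0 = 0) :
    HasDerivAt (fun t => Complex.exp (((f t : ℝ) : ℂ) * Complex.I)) ((f' : ℂ) * Complex.I) 0 := by
  have h1 : HasDerivAt (fun t => ((f t : ℝ) : ℂ) * Complex.I) ((f' : ℂ) * Complex.I) 0 :=
    (h.ofReal_comp).mul_const _
  have h2 := h1.cexp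
  rw [h0] at h2
  simpa using h2

theorem hasDerivAt_flowY (q : B × ℝ) : HasDerivAt (fun t => flowY t q) (YY q) 0 := by
  obtain ⟨b, z⟩ := q
  have hy : HasDerivAt (fun _ : ℝ => b.1) (0 : ℝ) 0 := hasDerivAt_const _ _
  have hw : HasDerivAt (fun t : ℝ => b.2.1 * Complex.exp (((om b * t : ℝ) : ℂ) * Complex.I))
      (((om b : ℝ) : ℂ) * Complex.I * b.2.1) 0 := by
    have h1 : HasDerivAt (fun t : ℝ => om b * t) (om b) 0 := by
      simpa using (hasDerivAt_id (0 : ℝ)).const_mul (om b)
    have h2 := (FBAux.hasDerivAt_rot h1 (by simp)).const_mul b.2.1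
    exact h2.congr_deriv (by ring)
  have hu : HasDerivAt (fun t : ℝ =>
      ((Complex.exp (((b.1 * sig t b : ℝ) : ℂ) * Complex.I) : ℂ) : HH) * b.2.2)
      ((b.1 * om b * eta b.2.1) • (((Complex.I : ℂ) : HH) * b.2.2)) 0 := by
    have h1 : HasDerivAt (fun t : ℝ => b.1 * sig t b) (b.1 * (om b * eta b.2.1)) 0 :=
      (FBAux.hasDerivAt_sig b).const_mul b.1
    have h2 := FBAux.hasDerivAt_rot h1 (by rw [FBAux.sig_zero, mul_zero])
    have h3 := FBAux.coeL.hasFDerivAt.comp_hasDerivAt (0 : ℝ) h2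
    have h4 := h3.mul_const b.2.2
    refine h4.congr_deriv ?_
    rw [FBAux.coeL_apply, Quaternion.coeComplex_mul]
    rw [← smul_mul_assoc]
    congr 1
    ext <;> simp <;> ring
  have hz : HasDerivAt (fun t => z + cY t b) (gg b) 0 :=
    (FBAux.hasDerivAt_cY b).const_add z
  exact (hy.prodMk (hw.prodMk hu)).prodMk hz

theorem YY_contDiff : ContDiff ℝ ∞ YY := by
  have hb : ContDiff ℝ ∞ (fun q : B × ℝ => q.1) := contDiff_fst
  have hom : ContDiff ℝ ∞ (fun q : B × ℝ => om q.1) := om_contDiff.comp hb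
  have hy : ContDiff ℝ ∞ (fun q : B × ℝ => q.1.1) := contDiff_fst.comp hb
  have hw : ContDiff ℝ ∞ (fun q : B × ℝ => q.1.2.1) := contDiff_fst.comp (contDiff_snd.comp hb)
  have hu : ContDiff ℝ ∞ (fun q : B × ℝ => q.1.2.2) := contDiff_snd.comp (contDiff_snd.comp hb)
  have he : ContDiff ℝ ∞ (fun q : B × ℝ => eta q.1.2.1) := eta_contDiff.comp hw
  have hg : ContDiff ℝ ∞ (fun q : B × ℝ => gg q.1) := gg_contDiff.comp hb
  have h0 : ContDiff ℝ ∞ (fun _ : B × ℝ => (0 : ℝ)) := contDiff_const
  have h1 : ContDiff ℝ ∞ (fun q : B × ℝ => ((om q.1 : ℝ) : ℂ) * Complex.I * q.1.2.1) :=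
    ((Complex.ofRealCLM.contDiff.comp hom).mul contDiff_const).mul hw
  have h2 : ContDiff ℝ ∞ (fun q : B × ℝ =>
      (q.1.1 * om q.1 * eta q.1.2.1) • (((Complex.I : ℂ) : HH) * q.1.2.2)) :=
    ((hy.mul hom).mul he).smul (contDiff_const.mul hu)
  exact (h0.prodMk (h1.prodMk h2)).prodMk hg

/-- outside the support the flow only moves the height -/
theorem flow_trivial {b : B} (h : om b = 0) (h' : kap b.2.1 b.2.2 = 0) (t : ℝ) :
    bflow t b = b ∧ cY t b = t := by
  have h1 : ∀ t, sig t b = 0 := by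
    intro t
    unfold sig
    simp [h]
  have h2 : ∀ t, bflow t b = b := by
    intro t
    refine Prod.ext rfl (Prod.ext ?_ ?_)
    · show b.2.1 * Complex.exp (((om b * t : ℝ) : ℂ) * Complex.I) = b.2.1
      rw [h]
      simp
    · show ((Complex.exp (((b.1 * sig t b : ℝ) : ℂ) * Complex.I) : ℂ) : HH) * b.2.2 = b.2.2
      rw [h1]
      simp
  refine ⟨h2 t, ?_⟩
  unfold cY
  simp only [h2]
  simp [gg, h']

end Clock
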