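import Pool.Agent.Clock.Primitive

/-!
# Flows and cocycles
-/

open scoped ContDiff Topology
open MeasureTheory

namespace Clock

variable {X : Type} [NormedAddCommGroup X] [NormedSpace ℝ X]

theorem IsFlow.neg_add {φ : ℝ → X → X} (h : IsFlow φ) (t : ℝ) (x : X) : φ (-t) (φ t x) = x := by
  rw [← h.add, neg_add_cancel, h.zero]

theorem IsCocycle.zero {φ : ℝ → X → X} {c : ℝ → X → ℝ} (hφ : IsFlow φ) (h : IsCocycle φ c)
    (x : X) : c 0 x = 0 := by
  have := h.add 0 0 x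
  rw [hφ.zero, add_zero] at this
  linarith

theorem cocycle_of_density [FiniteDimensional ℝ X] {φ : ℝ → X → X} (hφ : IsFlow φ) {g : X → ℝ}
    (hg : ContDiff ℝ ∞ g) : IsCocycle φ (fun t x => ∫ s in (0 : ℝ)..t, g (φ s x)) := by
  have hF : ContDiff ℝ ∞ (fun q : ℝ × X => g (φ q.1 q.2)) := hg.comp hφ.smooth
  refine ⟨contDiff_primitive hF, ?_⟩
  intro s t x
  have hc : Continuous (fun r : ℝ => g (φ r x)) :=
    hF.continuous.comp (continuous_id.prodMk continuous_const)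
  have hi : ∀ a b : ℝ, IntervalIntegrable (fun r : ℝ => g (φ r x)) volume a b :=
    fun a b => hc.intervalIntegrable a b
  have h1 : (∫ r in (0 : ℝ)..s, g (φ r (φ t x))) = ∫ r in t..(s + t), g (φ r x) := by
    have h2 := intervalIntegral.integral_comp_add_right (a := 0) (b := s)
      (fun r => g (φ r x)) t
    rw [zero_add] at h2
    rw [← h2]
    congr 1
    ext r
    rw [hφ.add]
  rw [h1, _root_.add_comm (∫ r in t..(s + t), g (φ r x))]
  exact (intervalIntegral.integral_add_adjacent_intervals (hi _ _) (hi _ _)).symm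

theorem skew_isFlow {φ : ℝ → X → X} {c : ℝ → X → ℝ} (hφ : IsFlow φ) (h : IsCocycle φ c) :
    IsFlow (skew φ c) := by
  refine ⟨?_, ?_, ?_⟩
  · have h0 : ContDiff ℝ ∞ (fun q : ℝ × (X × ℝ) => ((q.1, q.2.1) : ℝ × X)) :=
      contDiff_fst.prodMk (contDiff_fst.comp contDiff_snd)
    have h1 : ContDiff ℝ ∞ (fun q : ℝ × (X × ℝ) => φ q.1 q.2.1) := hφ.smooth.comp h0
    have h2 : ContDiff ℝ ∞ (fun q : ℝ × (X × ℝ) => c q.1 q.2.1) := h.smooth.comp h0
    exact h1.prodMk ((contDiff_snd.comp contDiff_snd).add h2)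
  · intro q
    simp only [skew]
    rw [hφ.zero, h.zero hφ, add_zero]
  · intro s t q
    simp only [skew]
    rw [hφ.add, h.add]
    refine Prod.ext rfl ?_
    show q.2 + (c s (φ t q.1) + c t q.1) = q.2 + c t q.1 + c s (φ t q.1)
    ring

/-- time change by an invariant function -/
theorem slow_isFlow {φ : ℝ → X → X} (hφ : IsFlow φ) {r : X → ℝ} (hr : ContDiff ℝ ∞ r)
    (hinv : ∀ t x, r (φ t x) = r x) : IsFlow (fun t x => φ (r x * t) x) := by
  refine ⟨?_, ?_, ?_⟩
  · have h0 : ContDiff ℝ ∞ (fun q : ℝ × X => ((r q.2 * q.1, q.2) : ℝ × X)) :=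
      ((hr.comp contDiff_snd).mul contDiff_fst).prodMk contDiff_snd
    exact hφ.smooth.comp h0
  · intro x
    rw [mul_zero, hφ.zero]
  · intro s t x
    show φ (r x * (s + t)) x = φ (r (φ (r x * t) x) * s) (φ (r x * t) x)
    rw [hinv, mul_add, hφ.add]

theorem slow_isCocycle {φ : ℝ → X → X} {c : ℝ → X → ℝ} (hφ : IsFlow φ) (hc : IsCocycle φ c)
    {r r' : X → ℝ} (hr : ContDiff ℝ ∞ r) (hr' : ContDiff ℝ ∞ r')
    (hinv : ∀ t x, r (φ t x) = r x) (hinv' : ∀ t x, r' (φ t x) = r' x) :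
    IsCocycle (fun t x => φ (r x * t) x) (fun t x => c (r x * t) x + r' x * t) := by
  have _ := hφ
  refine ⟨?_, ?_⟩
  · have h0 : ContDiff ℝ ∞ (fun q : ℝ × X => ((r q.2 * q.1, q.2) : ℝ × X)) :=
      ((hr.comp contDiff_snd).mul contDiff_fst).prodMk contDiff_snd
    have h1 : ContDiff ℝ ∞ (fun q : ℝ × X => c (r q.2 * q.1) q.2) := hc.smooth.comp h0
    exact h1.add ((hr'.comp contDiff_snd).mul contDiff_fst)
  · intro s t x
    show c (r x * (s + t)) x + r' x * (s + t) = (c (r (φ (r x * t) x) * s) (φ (r x * t) x) +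
      r' (φ (r x * t) x) * s) + (c (r x * t) x + r' x * t)
    rw [hinv, hinv', mul_add, hc.add]
    ring

end Clock
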