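import Pool.Agent.Clock.BaseFlow

/-!
# The hidden symmetry
-/

open scoped ContDiff Topology
open MeasureTheory

namespace Clock

theorem TIAux.normSq_RR (w : ℂ) : Quaternion.normSq (RR w) = 1 := by
  rw [Quaternion.normSq_eq_norm_mul_self, RR_norm, mul_one]

theorem TIAux.om_Tmap (b : B) : om (Tmap b) = om b := by
  show vv b.2.1 * chi (RR b.2.1 * b.2.2) = vv b.2.1 * chi b.2.2
  unfold chi
  rw [map_mul, TIAux.normSq_RR, one_mul]

theorem TIAux.sig_Tmap (t : ℝ) (b : B) : sig t (Tmap b) = sig t b := by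
  unfold sig
  rw [TIAux.om_Tmap]
  rfl

theorem TIAux.bflow_of_om {b : B} (h : om b = 0) (t : ℝ) : bflow t b = b := by
  have h1 : sig t b = 0 := by
    unfold sig
    simp [h]
  refine Prod.ext rfl (Prod.ext ?_ ?_)
  · show b.2.1 * Complex.exp (((om b * t : ℝ) : ℂ) * Complex.I) = b.2.1
    rw [h]
    simp
  · show ((Complex.exp (((b.1 * sig t b : ℝ) : ℂ) * Complex.I) : ℂ) : HH) * b.2.2 = b.2.2
    rw [h1]
    simp

theorem bflow_Tmap (t : ℝ) (b : B) : bflow t (Tmap b) = Tmap (bflow t b) := by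
  rcases eq_or_ne (om b) 0 with h | h
  · rw [TIAux.bflow_of_om h, TIAux.bflow_of_om (by rw [TIAux.om_Tmap]; exact h)]
  · have hv : vv b.2.1 ≠ 0 := by
      intro hv
      apply h
      unfold om
      rw [hv, zero_mul]
    have hw := (vv_ne_zero hv).1
    have hr0 : 0 ≤ ‖b.2.1‖ := norm_nonneg _
    have hr : 1 / 2 ≤ ‖b.2.1‖ := by
      rw [Complex.normSq_eq_norm_sq] at hw
      nlinarith
    set r : ℝ := ‖b.2.1‖ with hrdef
    set θ : ℝ := Complex.arg b.2.1 with hθ
    have hpol : b.2.1 = (r : ℂ) * Complex.exp ((θ : ℂ) * Complex.I) :=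
      (Complex.norm_mul_exp_arg_mul_I b.2.1).symm
    have hpol2 : b.2.1 * Complex.exp (((om b * t : ℝ) : ℂ) * Complex.I) =
        (r : ℂ) * Complex.exp (((θ + om b * t : ℝ) : ℂ) * Complex.I) := by
      nth_rewrite 1 [hpol]
      rw [mul_assoc, FBAux.rot_mul]
    have hz1 : zeta b.2.1 = Complex.exp ((SS θ : ℝ) * Complex.I) := by
      nth_rewrite 1 [hpol]
      exact zeta_polar (by linarith)
    have hz2 : zeta (b.2.1 * Complex.exp (((om b * t : ℝ) : ℂ) * Complex.I)) =
        Complex.exp ((SS (θ + om b * t) : ℝ) * Complex.I) := by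
      rw [hpol2]
      exact zeta_polar (by linarith)
    have hs : sig t b = SS (θ + om b * t) - SS θ := by
      have hb : b = (b.1, (r : ℂ) * Complex.exp ((θ : ℂ) * Complex.I), b.2.2) := by
        refine Prod.ext rfl (Prod.ext hpol rfl)
      have h1 := sig_polar (t := t) (y := b.1) (r := r) (θ := θ) (u := b.2.2) hr
      rw [← hb] at h1
      exact h1
    have hR1 : RR b.2.1 = ((zeta b.2.1 : ℂ) : HH) := RR_eq_zeta (by linarith)
    have hR2 : RR (b.2.1 * Complex.exp (((om b * t : ℝ) : ℂ) * Complex.I)) =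
        ((zeta (b.2.1 * Complex.exp (((om b * t : ℝ) : ℂ) * Complex.I)) : ℂ) : HH) := by
      apply RR_eq_zeta
      rw [map_mul, FBAux.normSq_rot, mul_one]
      linarith
    refine Prod.ext rfl (Prod.ext ?_ ?_)
    · show b.2.1 * Complex.exp (((om (Tmap b) * t : ℝ) : ℂ) * Complex.I) =
        b.2.1 * Complex.exp (((om b * t : ℝ) : ℂ) * Complex.I)
      rw [TIAux.om_Tmap]
    · show ((Complex.exp ((((b.1 + 1) * sig t (Tmap b) : ℝ) : ℂ) * Complex.I) : ℂ) : HH) *
        (RR b.2.1 * b.2.2) =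
        RR (b.2.1 * Complex.exp (((om b * t : ℝ) : ℂ) * Complex.I)) *
        (((Complex.exp (((b.1 * sig t b : ℝ) : ℂ) * Complex.I) : ℂ) : HH) * b.2.2)
      rw [TIAux.sig_Tmap, hR1, hR2, hz1, hz2, ← mul_assoc, ← mul_assoc,
        ← Quaternion.coeComplex_mul, ← Quaternion.coeComplex_mul, FBAux.rot_mul, FBAux.rot_mul,
        hs]
      congr 5
      ring

theorem TIAux.hA_mul {z : ℂ} (hz : Complex.normSq z = 1) (u : HH) :
    hA ((z : HH) * u) = hA u := by
  have h : z.re * z.re + z.im * z.im = 1 := by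
    rw [← Complex.normSq_apply]
    exact hz
  have h1 : ((z : HH) * u).re ^ 2 + ((z : HH) * u).imI ^ 2 = u.re ^ 2 + u.imI ^ 2 := by
    simp only [Quaternion.re_mul, Quaternion.imI_mul, Quaternion.re_coeComplex,
      Quaternion.imI_coeComplex, Quaternion.imJ_coeComplex, Quaternion.imK_coeComplex]
    linear_combination (u.re ^ 2 + u.imI ^ 2) * h
  have h2 : ((z : HH) * u).imJ ^ 2 + ((z : HH) * u).imK ^ 2 = u.imJ ^ 2 + u.imK ^ 2 := by
    simp only [Quaternion.imJ_mul, Quaternion.imK_mul, Quaternion.re_coeComplex,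
      Quaternion.imI_coeComplex, Quaternion.imJ_coeComplex, Quaternion.imK_coeComplex]
    linear_combination (u.imJ ^ 2 + u.imK ^ 2) * h
  unfold hA
  rw [h1, h2]

theorem TIAux.gg_Tmap (b : B) : gg (Tmap b) = gg b := by
  show 1 - kap b.2.1 (RR b.2.1 * b.2.2) = 1 - kap b.2.1 b.2.2
  congr 1
  unfold kap
  rcases eq_or_ne (vv b.2.1) 0 with h | h
  · rw [h, zero_mul, zero_mul]
  · have hw := (vv_ne_zero h).1
    have hR : RR b.2.1 = ((zeta b.2.1 : ℂ) : HH) := RR_eq_zeta (by linarith)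
    have hz : Complex.normSq (zeta b.2.1) = 1 := by
      rw [Complex.normSq_eq_norm_sq, zeta_norm, one_pow]
    have h1 : hA (RR b.2.1 * b.2.2) = hA b.2.2 := by
      rw [hR]
      exact TIAux.hA_mul hz _
    have h2 : bB b.2.1 * hB (RR b.2.1 * b.2.2) = bB b.2.1 * hB b.2.2 := by
      rcases le_or_gt b.2.1.re 0 with h3 | h3
      · have : bB b.2.1 = 0 := Real.smoothTransition.zero_of_nonpos h3
        rw [this, zero_mul, zero_mul]
      · rw [hR, zeta_eq_one h3, Quaternion.coeComplex_one, one_mul]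
    rw [h1, h2]

theorem cY_Tmap (t : ℝ) (b : B) : cY t (Tmap b) = cY t b := by
  unfold cY
  congr 1
  ext s
  rw [bflow_Tmap, TIAux.gg_Tmap]

end Clock
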