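import Pool.Agent.Clock.Defs

/-!
# Module LM2: the functions `lam`, `mu`
-/

open scoped ContDiff

namespace Clock

theorem lam_contDiff : ContDiff ℝ ∞ lam := by
  unfold lam
  refine Real.smoothTransition.contDiff.comp ?_
  exact ((contDiff_const.mul ((Real.contDiff_sin.comp (contDiff_const.mul contDiff_id)).pow 2)).sub
    contDiff_const)

theorem mu_contDiff : ContDiff ℝ ∞ mu := by
  unfold mu
  refine Real.smoothTransition.contDiff.comp ?_
  exact (contDiff_const.sub
    (contDiff_const.mul ((Real.contDiff_sin.comp (contDiff_const.mul contDiff_id)).pow 2)))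

theorem lam_mem (y : ℝ) : 0 ≤ lam y ∧ lam y ≤ 1 :=
  ⟨Real.smoothTransition.nonneg _, Real.smoothTransition.le_one _⟩

theorem mu_mem (y : ℝ) : 0 ≤ mu y ∧ mu y ≤ 1 :=
  ⟨Real.smoothTransition.nonneg _, Real.smoothTransition.le_one _⟩

theorem mu_or_lam (y : ℝ) : mu y = 0 ∨ lam y = 0 := by
  rcases le_total (4 * Real.sin (Real.pi * y) ^ 2 - 1) 0 with h | h
  · exact Or.inr (Real.smoothTransition.zero_of_nonpos h)
  · exact Or.inl (Real.smoothTransition.zero_of_nonpos (by linarith))

theorem mu_int (k : ℤ) : mu k = 1 := by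
  unfold mu
  have h : Real.sin (Real.pi * k) = 0 := by
    rw [mul_comm]; exact Real.sin_int_mul_pi k
  rw [h]
  exact Real.smoothTransition.one_of_one_le (by norm_num)

private theorem sin_sq_add (y : ℝ) (k : ℤ) :
    Real.sin (Real.pi * (y + k)) ^ 2 = Real.sin (Real.pi * y) ^ 2 := by
  have h : Real.pi * (y + k) = Real.pi * y + k * Real.pi := by ring
  rw [h, Real.sin_add_int_mul_pi, mul_pow]
  have h2 : ((-1 : ℝ) ^ k) ^ 2 = 1 := by
    rcases Int.even_or_odd k with h | h
    · rw [h.neg_one_zpow]; norm_num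
    · rw [h.neg_one_zpow]; norm_num
  rw [h2, one_mul]

theorem lam_add_int (y : ℝ) (k : ℤ) : lam (y + k) = lam y := by
  unfold lam
  rw [sin_sq_add]

theorem lam_eq_one {y : ℝ} (h : 1 / 4 ≤ |y - round y|) : lam y = 1 := by
  unfold lam
  have h1 := sin_sq_add (y - round y) (round y)
  rw [sub_add_cancel] at h1
  rw [h1]
  have h2 : |y - round y| ≤ 1 / 2 := abs_sub_round y
  set d := y - round y
  refine Real.smoothTransition.one_of_one_le ?_
  have h3 : Real.cos (2 * (Real.pi * |d|)) ≤ 0 := by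
    have hpi := Real.pi_pos
    refine Real.cos_nonpos_of_pi_div_two_le_of_le ?_ ?_
    · nlinarith
    · nlinarith
  have h4 : Real.sin (Real.pi * d) ^ 2 = Real.sin (Real.pi * |d|) ^ 2 := by
    rcases abs_choice d with h5 | h5
    · rw [h5]
    · rw [h5, mul_neg, Real.sin_neg, neg_sq]
  rw [h4]
  have h5 := Real.cos_two_mul (Real.pi * |d|)
  have h6 := Real.sin_sq_add_cos_sq (Real.pi * |d|)
  linarith

end Clock
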