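import Pool.Agent.Clock.BaseFlow

/-!
# Positivity of the height cocycle
-/

open scoped ContDiff Topology
open MeasureTheory

namespace Clock

theorem POAux.gg_nonneg (b : B) : 0 ≤ gg b := by
  unfold gg
  linarith [kap_le_one b.2.1 b.2.2]

theorem cY_nonneg {t : ℝ} (ht : 0 ≤ t) (b : B) : 0 ≤ cY t b := by
  unfold cY
  exact intervalIntegral.integral_nonneg ht (fun s _ => POAux.gg_nonneg _)

theorem POAux.gg_cont (b : B) : Continuous (fun s : ℝ => gg (bflow s b)) :=
  gg_contDiff.continuous.comp (bflow_isFlow.smooth.continuous.comp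
    (continuous_id.prodMk continuous_const))

/-- a time in `[0, 2π]` at which the clock shows one -/
theorem POAux.exists_time {w : ℂ} (hw : Complex.normSq w = 1) :
    ∃ s : ℝ, 0 ≤ s ∧ s ≤ 2 * Real.pi ∧ w * Complex.exp ((s : ℂ) * Complex.I) = 1 := by
  have hn : ‖w‖ = 1 := by
    rw [Complex.normSq_eq_norm_sq] at hw
    nlinarith [norm_nonneg w]
  have h1 : w = Complex.exp ((Complex.arg w : ℂ) * Complex.I) := by
    have h := Complex.norm_mul_exp_arg_mul_I w
    rw [hn] at h
    simpa using h.symm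
  have hp := Real.pi_pos
  rcases le_or_gt (Complex.arg w) 0 with h | h
  · refine ⟨-Complex.arg w, by linarith, ?_, ?_⟩
    · linarith [Complex.neg_pi_lt_arg w]
    · nth_rewrite 1 [h1]
      rw [← Complex.exp_add]
      push_cast
      rw [show (Complex.arg w : ℂ) * Complex.I + -(Complex.arg w : ℂ) * Complex.I = 0 by ring]
      exact Complex.exp_zero
  · refine ⟨2 * Real.pi - Complex.arg w, ?_, by linarith, ?_⟩
    · linarith [Complex.arg_le_pi w]
    · nth_rewrite 1 [h1]
      rw [← Complex.exp_add]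
      push_cast
      rw [show (Complex.arg w : ℂ) * Complex.I + (2 * (Real.pi : ℂ) - (Complex.arg w : ℂ)) *
        Complex.I = 2 * (Real.pi : ℂ) * Complex.I by ring]
      exact Complex.exp_two_pi_mul_I

theorem cY_pos {b : B} (hb : ∀ k : ℤ, b.1 ≠ k) : 0 < cY (4 * Real.pi) b := by
  have hp := Real.pi_pos
  by_contra hcon
  have h0 : ∀ s ∈ Set.Icc (0 : ℝ) (4 * Real.pi), kap (bflow s b).2.1 (bflow s b).2.2 = 1 := by
    intro s hs
    by_contra hne
    apply hcon
    have hgt : 0 < gg (bflow s b) := by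
      have := lt_of_le_of_ne (kap_le_one (bflow s b).2.1 (bflow s b).2.2) hne
      unfold gg
      linarith
    exact intervalIntegral.integral_pos (by positivity) (POAux.gg_cont b).continuousOn
      (fun x _ => POAux.gg_nonneg _) ⟨s, hs, hgt⟩
  have h00 := kap_eq_one (h0 0 ⟨le_refl _, by positivity⟩)
  rw [bflow_isFlow.zero] at h00
  have hw : Complex.normSq b.2.1 = 1 := h00.1
  have hom : om b = 1 := by
    unfold om
    rw [vv_eq_one_iff.2 hw, h00.2.1, one_mul]
  obtain ⟨s, hs0, hs1, hs⟩ := POAux.exists_time hw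
  -- the clock shows one at the times `s` and `s + 2π`
  have hw1 : (bflow s b).2.1 = 1 := by
    show b.2.1 * Complex.exp (((om b * s : ℝ) : ℂ) * Complex.I) = 1
    rw [hom, one_mul]
    exact hs
  have hu1 : (bflow s b).2.2 = 1 := (kap_eq_one (h0 s ⟨hs0, by linarith⟩)).2.2 hw1
  have hb1 : bflow s b = (b.1, ((1 : ℝ) : ℂ) * Complex.exp (((0 : ℝ) : ℂ) * Complex.I), 1) := by
    refine Prod.ext rfl (Prod.ext ?_ hu1)
    rw [hw1]
    simp
  have hw2 : (bflow (2 * Real.pi + s) b).2.1 = 1 := by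
    show b.2.1 * Complex.exp (((om b * (2 * Real.pi + s) : ℝ) : ℂ) * Complex.I) = 1
    rw [hom, one_mul]
    have h1 : (((2 * Real.pi + s : ℝ) : ℂ) * Complex.I) =
        (s : ℂ) * Complex.I + 2 * (Real.pi : ℂ) * Complex.I := by
      push_cast
      ring
    rw [h1, Complex.exp_add, Complex.exp_two_pi_mul_I, mul_one]
    exact hs
  have hu2 : (bflow (2 * Real.pi + s) b).2.2 = 1 :=
    (kap_eq_one (h0 (2 * Real.pi + s) ⟨by linarith, by linarith⟩)).2.2 hw2
  rw [bflow_isFlow.add] at hu2
  have hsig : sig (2 * Real.pi) (bflow s b) = 2 * Real.pi := by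
    have hom1 : om (bflow s b) = 1 := by rw [bflow_om, hom]
    rw [hb1] at hom1 ⊢
    rw [sig_polar (by norm_num), hom1, one_mul]
    have h1 := SS_add 0
    rw [zero_add] at h1
    rw [zero_add, h1]
    ring
  have hu3 : ((Complex.exp (((b.1 * (2 * Real.pi) : ℝ) : ℂ) * Complex.I) : ℂ) : HH) = 1 := by
    have h1 : (bflow (2 * Real.pi) (bflow s b)).2.2 =
        ((Complex.exp ((((bflow s b).1 * sig (2 * Real.pi) (bflow s b) : ℝ) : ℂ) *
          Complex.I) : ℂ) : HH) * (bflow s b).2.2 := rfl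
    rw [h1, hsig, hu1, mul_one, bflow_fst] at hu2
    exact hu2
  have hu4 : Complex.exp (((b.1 * (2 * Real.pi) : ℝ) : ℂ) * Complex.I) = 1 := by
    apply Complex.ext
    · have := congrArg (fun q : HH => q.re) hu3
      simp only [Quaternion.re_coeComplex, Quaternion.re_one] at this
      rw [this, Complex.one_re]
    · have := congrArg (fun q : HH => q.imI) hu3
      simp only [Quaternion.imI_coeComplex, Quaternion.imI_one] at this
      rw [this, Complex.one_im]
  obtain ⟨n, hn⟩ := Complex.exp_eq_one_iff.1 hu4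
  apply hb n
  have h1 : ((b.1 : ℝ) : ℂ) * (2 * (Real.pi : ℂ) * Complex.I) =
      (n : ℂ) * (2 * (Real.pi : ℂ) * Complex.I) := by
    rw [← hn]
    push_cast
    ring
  have h2 : (2 * (Real.pi : ℂ) * Complex.I) ≠ 0 := Complex.two_pi_I_ne_zero
  have h3 := mul_right_cancel₀ h2 h1
  exact_mod_cast h3

end Clock
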