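import Pool.Agent.Clock.Straighten
import Pool.Agent.Clock.Positive
import Pool.Agent.Clock.LamMu
import Pool.Agent.Clock.BaseFlow
import Pool.Agent.Clock.Cocycle

/-! Module TH: the straightening diffeomorphism. -/

open scoped ContDiff
open MeasureTheory

namespace Clock

namespace ThetaAux

theorem fst_contDiff {s : ℝ → ℝ} (hs : ContDiff ℝ ∞ s) : ContDiff ℝ ∞ (fun b : B => s b.1) :=
  hs.comp contDiff_fst

theorem bflowS_isFlow {s : ℝ → ℝ} (hs : ContDiff ℝ ∞ s) : IsFlow (bflowS s) :=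
  slow_isFlow bflow_isFlow (r := fun b => 1 - s b.1) (contDiff_const.sub (fst_contDiff hs))
    (fun t x => by rw [bflow_fst])

theorem cS_isCocycle {s : ℝ → ℝ} (hs : ContDiff ℝ ∞ s) : IsCocycle (bflowS s) (cS s) :=
  slow_isCocycle bflow_isFlow cY_isCocycle (r := fun b => 1 - s b.1) (r' := fun b => s b.1)
    (contDiff_const.sub (fst_contDiff hs)) (fst_contDiff hs)
    (fun t x => by rw [bflow_fst]) (fun t x => by rw [bflow_fst])

theorem bflowS_fst (s : ℝ → ℝ) (t : ℝ) (b : B) : (bflowS s t b).1 = b.1 := bflow_fst _ _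

theorem bflowS_congr {s s' : ℝ → ℝ} {b : B} (h : s b.1 = s' b.1) (t : ℝ) :
    bflowS s t b = bflowS s' t b := by
  unfold bflowS
  rw [h]

theorem cS_congr {s s' : ℝ → ℝ} {b : B} (h : s b.1 = s' b.1) (t : ℝ) :
    cS s t b = cS s' t b := by
  unfold cS
  rw [h]

theorem skew_congr {s s' : ℝ → ℝ} {q : B × ℝ} (h : s q.1.1 = s' q.1.1) (t : ℝ) :
    skew (bflowS s) (cS s) t q = skew (bflowS s') (cS s') t q := by
  unfold skew
  rw [bflowS_congr h, cS_congr h]

theorem skew_zero {s : ℝ → ℝ} {q : B × ℝ} (h : s q.1.1 = 0) (t : ℝ) :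
    skew (bflowS s) (cS s) t q = flowY t q := by
  unfold flowY skew bflowS cS
  rw [h]
  simp

theorem straight {s : ℝ → ℝ} (hs : ContDiff ℝ ∞ s) (h0 : ∀ y, 0 ≤ s y ∧ s y ≤ 1)
    (hk : ∀ k : ℤ, s k ≠ 0) :
    ∃ e : (B × ℝ) ≃ (B × ℝ), IsDiffeo e ∧ ∀ x t, e (x, t) = (bflowS s t x,
      cS s t x - (1 / (4 * Real.pi)) * ∫ r in (0 : ℝ)..(4 * Real.pi), cS s r x) := by
  have hpi : 0 < 4 * Real.pi := by positivity
  refine straighten (bflowS_isFlow hs) (cS_isCocycle hs) hpi ?_ ?_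
  · intro b
    unfold cS
    have h1 := cY_nonneg (t := (1 - s b.1) * (4 * Real.pi))
      (mul_nonneg (by linarith [(h0 b.1).2]) hpi.le) b
    rcases (h0 b.1).1.lt_or_eq with h2 | h2
    · have := mul_pos h2 hpi
      linarith
    · rw [← h2]
      have h3 : ∀ k : ℤ, b.1 ≠ k := by
        intro k hb
        apply hk k
        rw [← hb, ← h2]
      have := cY_pos h3
      simpa using this
  · intro b
    obtain ⟨K, hK, h⟩ := bflow_bounded b
    exact ⟨K, hK, fun t => h _⟩

theorem straight_add {s : ℝ → ℝ} (hs : ContDiff ℝ ∞ s) {e : (B × ℝ) ≃ (B × ℝ)} {I : B → ℝ}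
    (he : ∀ x t, e (x, t) = (bflowS s t x, cS s t x - I x)) (x : B) (r t : ℝ) :
    e (x, r + t) = skew (bflowS s) (cS s) t (e (x, r)) := by
  rw [he, he, add_comm r t, (bflowS_isFlow hs).add, (cS_isCocycle hs).add]
  unfold skew
  refine Prod.ext rfl ?_
  show cS s t (bflowS s r x) + cS s r x - I x = cS s r x - I x + cS s t (bflowS s r x)
  ring

end ThetaAux

open ThetaAux

theorem flowL_isFlow : IsFlow flowL :=
  skew_isFlow (bflowS_isFlow lam_contDiff) (cS_isCocycle lam_contDiff)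

theorem exists_Theta : ∃ Θ : (B × ℝ) ≃ (B × ℝ), IsDiffeo Θ ∧
    ∀ t q, Θ (flowY t q) = flowL t (Θ q) := by
  obtain ⟨E, hE, hE'⟩ := straight mu_contDiff mu_mem (fun k => by rw [mu_int]; exact one_ne_zero)
  obtain ⟨F, hF, hF'⟩ := straight (s := fun y => mu y + lam y) (mu_contDiff.add lam_contDiff)
    (fun y => by
      rcases mu_or_lam y with h | h
      · rw [h, zero_add]; exact lam_mem y
      · rw [h, add_zero]; exact mu_mem y)
    (fun k => by
      show mu k + lam k ≠ 0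
      rw [mu_int]
      have := (lam_mem k).1
      intro h
      linarith)
  have hEf : ∀ q : B × ℝ, (E.symm q).1.1 = q.1.1 := by
    intro q
    obtain ⟨⟨x, r⟩, rfl⟩ := E.surjective q
    rw [Equiv.symm_apply_apply, hE']
    exact (bflowS_fst _ _ _).symm
  have hFf : ∀ p : B × ℝ, (F p).1.1 = p.1.1 := by
    rintro ⟨x, r⟩
    rw [hF']
    exact bflowS_fst _ _ _
  have hTf : ∀ q : B × ℝ, (F (E.symm q)).1.1 = q.1.1 := by
    intro q
    rw [hFf, hEf]
  have hT0 : ∀ q : B × ℝ, lam q.1.1 = 0 → F (E.symm q) = q := by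
    intro q hq
    obtain ⟨⟨x, r⟩, rfl⟩ := E.surjective q
    rw [Equiv.symm_apply_apply]
    have hx : lam x.1 = 0 := by
      rw [hE'] at hq
      have h1 : (bflowS mu r x).1 = x.1 := bflowS_fst _ _ _
      rw [← h1]
      exact hq
    have h2 : mu x.1 + lam x.1 = mu x.1 := by rw [hx, add_zero]
    rw [hE', hF', bflowS_congr (s := fun y => mu y + lam y) (s' := mu) h2]
    have h3 : cS (fun y => mu y + lam y) = cS (fun y => mu y + lam y) := rfl
    have h4 : ∀ t, cS (fun y => mu y + lam y) t x = cS mu t x := fun t => cS_congr h2 t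
    simp only [h4]
  refine ⟨E.symm.trans F, hE.symm.trans hF, ?_⟩
  intro t q
  show F (E.symm (flowY t q)) = flowL t (F (E.symm q))
  have hfst : (flowY t q).1.1 = q.1.1 := bflow_fst _ _
  rcases mu_or_lam q.1.1 with h | h
  · obtain ⟨⟨x, r⟩, rfl⟩ := E.surjective q
    rw [← skew_zero h t, ← straight_add mu_contDiff hE' x r t, Equiv.symm_apply_apply,
      Equiv.symm_apply_apply, straight_add (mu_contDiff.add lam_contDiff) hF' x r t]
    unfold flowL
    apply skew_congr
    have h1 : (F (x, r)).1.1 = (E (x, r)).1.1 := by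
      rw [hFf, ← hEf (E (x, r)), Equiv.symm_apply_apply]
    show mu (F (x, r)).1.1 + lam (F (x, r)).1.1 = lam (F (x, r)).1.1
    rw [h1, h, zero_add]
  · rw [hT0 _ (by rw [hfst]; exact h), hT0 q h]
    unfold flowL
    rw [skew_zero h]

end Clock
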