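import Pool.Agent.Clock.Untwist
import Pool.Agent.Clock.Hidden
import Pool.Agent.Clock.Theta
import Pool.Agent.Clock.LamMu
import Pool.Agent.Clock.BaseFlow
import Pool.Agent.Clock.Bumps
import Pool.Agent.Clock.Zeta
import Pool.Agent.Clock.Cocycle

/-! # The periodic version of the straightened flow -/

open scoped ContDiff Topology
open MeasureTheory

namespace Clock

namespace PeriodicAux

/-- powers of the hidden symmetry -/
noncomputable def Tz (k : ℤ) (b : B) : B := (b.1 + k, b.2.1, RR b.2.1 ^ k * b.2.2)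

theorem RR_ne (w : ℂ) : RR w ≠ 0 := by
  intro h
  have := RR_norm w
  rw [h, norm_zero] at this
  exact zero_ne_one this

theorem Tz_add (k l : ℤ) (b : B) : Tz (k + l) b = Tz k (Tz l b) := by
  unfold Tz
  refine Prod.ext ?_ (Prod.ext rfl ?_)
  · show b.1 + ((k + l : ℤ) : ℝ) = b.1 + (l : ℝ) + (k : ℝ)
    push_cast; ring
  · show RR b.2.1 ^ (k + l) * b.2.2 = RR b.2.1 ^ k * (RR b.2.1 ^ l * b.2.2)
    rw [zpow_add₀ (RR_ne _), mul_assoc]

theorem Tz_zero (b : B) : Tz 0 b = b := by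
  unfold Tz
  refine Prod.ext ?_ (Prod.ext rfl ?_)
  · show b.1 + ((0 : ℤ) : ℝ) = b.1
    simp
  · show RR b.2.1 ^ (0 : ℤ) * b.2.2 = b.2.2
    simp

theorem Tz_one (b : B) : Tz 1 b = Tmap b := by
  unfold Tz Tmap
  refine Prod.ext ?_ (Prod.ext rfl ?_)
  · show b.1 + ((1 : ℤ) : ℝ) = b.1 + 1
    simp
  · show RR b.2.1 ^ (1 : ℤ) * b.2.2 = RR b.2.1 * b.2.2
    simp

theorem both (k : ℤ) : ∀ (t : ℝ) (b : B), bflow t (Tz k b) = Tz k (bflow t b) ∧
    cY t (Tz k b) = cY t b := by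
  induction k using Int.induction_on with
  | zero =>
    intro t b
    rw [Tz_zero, Tz_zero]
    exact ⟨rfl, rfl⟩
  | succ n ih =>
    intro t b
    have h : ∀ b, Tz ((n : ℤ) + 1) b = Tmap (Tz n b) := by
      intro b
      rw [add_comm, Tz_add, Tz_one]
    rw [h, h, bflow_Tmap, (ih t b).1, cY_Tmap, (ih t b).2]
    exact ⟨rfl, rfl⟩
  | pred n ih =>
    intro t b
    have h : ∀ b, Tmap (Tz (-(n : ℤ) - 1) b) = Tz (-(n : ℤ)) b := by
      intro b
      rw [← Tz_one, ← Tz_add]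
      congr 1
      ring
    have hinj : ∀ a b : B, Tmap a = Tmap b → a = b := by
      intro a b hab
      rw [← Tz_one, ← Tz_one] at hab
      have := congrArg (Tz (-1)) hab
      rwa [← Tz_add, ← Tz_add, neg_add_cancel, Tz_zero, Tz_zero] at this
    constructor
    · apply hinj
      rw [← bflow_Tmap, h, h, (ih t b).1]
    · rw [← cY_Tmap, h, (ih t b).2]

theorem lam_add (y : ℝ) (k : ℤ) : lam (y + k) = lam y := lam_add_int y k

theorem flowL_Tz (k : ℤ) (t : ℝ) (b : B) (z : ℝ) :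
    flowL t (Tz k b, z) = (Tz k (flowL t (b, z)).1, (flowL t (b, z)).2) := by
  show (bflow ((1 - lam (b.1 + k)) * t) (Tz k b),
      z + (cY ((1 - lam (b.1 + k)) * t) (Tz k b) + lam (b.1 + k) * t)) =
    (Tz k (bflow ((1 - lam b.1) * t) b), z + (cY ((1 - lam b.1) * t) b + lam b.1 * t))
  rw [lam_add, (both k _ b).1, (both k _ b).2]

theorem flowL_fst (t : ℝ) (q : B × ℝ) : (flowL t q).1.1 = q.1.1 := by
  show (bflow ((1 - lam q.1.1) * t) q.1).1 = q.1.1
  rw [bflow_fst]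

theorem bflow_zero (b : B) : bflow 0 b = b := bflow_isFlow.zero b

theorem cY_zero (b : B) : cY 0 b = 0 := IsCocycle.zero bflow_isFlow cY_isCocycle b

theorem flowL_lam {t : ℝ} {q : B × ℝ} (h : lam q.1.1 = 1) : flowL t q = (q.1, q.2 + t) := by
  show (bflow ((1 - lam q.1.1) * t) q.1, q.2 + (cY ((1 - lam q.1.1) * t) q.1 + lam q.1.1 * t)) = _
  rw [h, sub_self, zero_mul, bflow_zero, cY_zero, one_mul, zero_add]

theorem flowL_triv {t : ℝ} {q : B × ℝ} (h : om q.1 = 0) (h' : kap q.1.2.1 q.1.2.2 = 0) :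
    flowL t q = (q.1, q.2 + t) := by
  show (bflow ((1 - lam q.1.1) * t) q.1, q.2 + (cY ((1 - lam q.1.1) * t) q.1 + lam q.1.1 * t)) = _
  rw [(flow_trivial h h' _).1, (flow_trivial h h' _).2]
  congr 1
  ring

theorem sh_sh (k l : ℤ) (q : B × ℝ) : sh k (sh l q) = sh (k + l) q := by
  unfold sh
  refine Prod.ext (Prod.ext ?_ rfl) rfl
  show q.1.1 + (l : ℝ) + (k : ℝ) = q.1.1 + ((k + l : ℤ) : ℝ)
  push_cast; ring

theorem sh_zero (q : B × ℝ) : sh 0 q = q := by
  unfold sh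
  refine Prod.ext (Prod.ext ?_ rfl) rfl
  show q.1.1 + ((0 : ℤ) : ℝ) = q.1.1
  simp

theorem sh_shift (k : ℤ) (q : B × ℝ) (t : ℝ) : sh k ((sh (-k) q).1, (sh (-k) q).2 + t) =
    (q.1, q.2 + t) := by
  unfold sh
  refine Prod.ext (Prod.ext ?_ rfl) rfl
  show q.1.1 + ((-k : ℤ) : ℝ) + (k : ℝ) = q.1.1
  push_cast; ring

/-- the conjugation as a linear map -/
noncomputable def starLin : HH →ₗ[ℝ] HH where
  toFun := fun a => star a
  map_add' := fun a b => star_add a b
  map_smul' := fun c a => by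
    ext <;> simp

theorem star_contDiff : ContDiff ℝ ∞ (fun a : HH => star a) :=
  (LinearMap.toContinuousLinearMap starLin).contDiff

end PeriodicAux

open PeriodicAux

theorem exists_L1 : ∃ L : (B × ℝ) ≃ (B × ℝ), IsDiffeo L ∧
    ∀ t q, L (flowL t q) = flow1 t (L q) := by
  obtain ⟨G, hG, hn, hGR⟩ := exists_G
  have hne : ∀ y w, G y w ≠ 0 := by
    intro y w h
    have := hn y w
    rw [h, norm_zero] at this
    exact zero_ne_one this
  have hs : ∀ y w, star (G y w) * G y w = 1 := by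
    intro y w
    rw [Quaternion.star_mul_self, Quaternion.normSq_eq_norm_mul_self, hn]
    simp
  have hs' : ∀ y w, G y w * star (G y w) = 1 := by
    intro y w
    rw [Quaternion.self_mul_star, Quaternion.normSq_eq_norm_mul_self, hn]
    simp
  let L : (B × ℝ) ≃ (B × ℝ) :=
    { toFun := fun q => ((q.1.1, q.1.2.1, G q.1.1 q.1.2.1 * q.1.2.2), q.2)
      invFun := fun q => ((q.1.1, q.1.2.1, star (G q.1.1 q.1.2.1) * q.1.2.2), q.2)
      left_inv := by
        intro q
        refine Prod.ext (Prod.ext rfl (Prod.ext rfl ?_)) rfl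
        show star (G q.1.1 q.1.2.1) * (G q.1.1 q.1.2.1 * q.1.2.2) = q.1.2.2
        rw [← mul_assoc, hs, one_mul]
      right_inv := by
        intro q
        refine Prod.ext (Prod.ext rfl (Prod.ext rfl ?_)) rfl
        show G q.1.1 q.1.2.1 * (star (G q.1.1 q.1.2.1) * q.1.2.2) = q.1.2.2
        rw [← mul_assoc, hs', one_mul] }
  have hLs : ContDiff ℝ ∞ (fun q : B × ℝ =>
      (((q.1.1, q.1.2.1, G q.1.1 q.1.2.1 * q.1.2.2) : B), q.2)) := by
    have hG1 : ContDiff ℝ ∞ (fun q : B × ℝ => G q.1.1 q.1.2.1) :=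
      hG.comp (contDiff_fst.fst.prodMk contDiff_fst.snd.fst)
    exact (contDiff_fst.fst.prodMk (contDiff_fst.snd.fst.prodMk
      (hG1.mul contDiff_fst.snd.snd))).prodMk contDiff_snd
  have hLs' : ContDiff ℝ ∞ (fun q : B × ℝ =>
      (((q.1.1, q.1.2.1, star (G q.1.1 q.1.2.1) * q.1.2.2) : B), q.2)) := by
    have hG1 : ContDiff ℝ ∞ (fun q : B × ℝ => G q.1.1 q.1.2.1) :=
      hG.comp (contDiff_fst.fst.prodMk contDiff_fst.snd.fst)
    have hG2 : ContDiff ℝ ∞ (fun q : B × ℝ => star (G q.1.1 q.1.2.1)) := by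
      exact star_contDiff.comp hG1
    exact (contDiff_fst.fst.prodMk (contDiff_fst.snd.fst.prodMk
      (hG2.mul contDiff_fst.snd.snd))).prodMk contDiff_snd
  refine ⟨L, ⟨hLs, hLs'⟩, ?_⟩
  intro t q
  by_cases hy : |q.1.1 - round q.1.1| ≤ 1 / 4
  · set k := round q.1.1 with hk
    have hL : ∀ q' : B × ℝ, q'.1.1 = q.1.1 → L q' = sh k (Tz (-k) q'.1, q'.2) := by
      intro q' hq'
      refine Prod.ext (Prod.ext ?_ (Prod.ext rfl ?_)) rfl
      · show q'.1.1 = q'.1.1 + ((-k : ℤ) : ℝ) + (k : ℝ)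
        push_cast; ring
      · show G q'.1.1 q'.1.2.1 * q'.1.2.2 = RR q'.1.2.1 ^ (-k) * q'.1.2.2
        rw [hGR k _ _ (by rw [hq']; exact hy)]
    have h1 : L (flowL t q) = sh k (Tz (-k) (flowL t q).1, (flowL t q).2) :=
      hL _ (flowL_fst t q)
    have h2 : L q = sh k (Tz (-k) q.1, q.2) := hL q rfl
    have h3 : (L q).1.1 = q.1.1 := rfl
    have h4 : flow1 t (L q) = sh k (flowL t (sh (-k) (L q))) := by
      unfold flow1
      rw [h3]
    rw [h4, h1, h2, sh_sh, neg_add_cancel, sh_zero, flowL_Tz]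
  · have hl : lam q.1.1 = 1 := lam_eq_one (le_of_lt (not_le.1 hy))
    rw [flowL_lam hl]
    have h4 : flow1 t (L q) = sh (round q.1.1) (flowL t (sh (-round q.1.1) (L q))) := rfl
    have h5 : lam (sh (-round q.1.1) (L q)).1.1 = 1 := by
      show lam (q.1.1 + ((-round q.1.1 : ℤ) : ℝ)) = 1
      rw [lam_add, hl]
    rw [h4, flowL_lam h5, sh_shift]
    rfl

theorem flow1_isFlow : IsFlow flow1 := by
  obtain ⟨L, hL, hc⟩ := exists_L1
  have h : ∀ t q, flow1 t q = L (flowL t (L.symm q)) := by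
    intro t q
    rw [hc, Equiv.apply_symm_apply]
  refine ⟨?_, ?_, ?_⟩
  · have h1 : (fun q : ℝ × (B × ℝ) => flow1 q.1 q.2) =
        fun q : ℝ × (B × ℝ) => L (flowL q.1 (L.symm q.2)) := by
      ext1 q
      exact h q.1 q.2
    rw [h1]
    have h2 : ContDiff ℝ ∞ (fun q : ℝ × (B × ℝ) => (q.1, L.symm q.2)) :=
      contDiff_fst.prodMk (hL.2.comp contDiff_snd)
    have h3 : ContDiff ℝ ∞ (fun q : ℝ × (B × ℝ) => flowL q.1 (L.symm q.2)) :=
      ContDiff.comp (g := fun q : ℝ × (B × ℝ) => flowL q.1 q.2)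
        (f := fun q : ℝ × (B × ℝ) => (q.1, L.symm q.2)) flowL_isFlow.smooth h2
    exact ContDiff.comp (g := fun q : B × ℝ => L q)
        (f := fun q : ℝ × (B × ℝ) => flowL q.1 (L.symm q.2)) hL.1 h3
  · intro q
    rw [h, flowL_isFlow.zero, Equiv.apply_symm_apply]
  · intro s t q
    rw [h, h, h, flowL_isFlow.add, Equiv.symm_apply_apply]

theorem flow1_sh (k : ℤ) (t : ℝ) (q : B × ℝ) : flow1 t (sh k q) = sh k (flow1 t q) := by
  have h : round (sh k q).1.1 = round q.1.1 + k := by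
    show round (q.1.1 + (k : ℝ)) = _
    rw [round_add_intCast]
  unfold flow1
  rw [h, sh_sh, sh_sh]
  congr 1
  · ring
  · congr 2
    ring

theorem flow1_z (s t : ℝ) (b : B) (z : ℝ) :
    flow1 t (b, z + s) = ((flow1 t (b, z)).1, (flow1 t (b, z)).2 + s) := by
  refine Prod.ext rfl ?_
  show z + s + cS lam t (sh (-round b.1) (b, z)).1 = z + cS lam t (sh (-round b.1) (b, z)).1 + s
  ring

theorem flow1_fst (t : ℝ) (q : B × ℝ) : (flow1 t q).1.1 = q.1.1 := by
  show (flowL t (sh (-round q.1.1) q)).1.1 + ((round q.1.1 : ℤ) : ℝ) = q.1.1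
  rw [flowL_fst]
  show q.1.1 + ((-round q.1.1 : ℤ) : ℝ) + ((round q.1.1 : ℤ) : ℝ) = q.1.1
  push_cast; ring

theorem flow1_normSq (t : ℝ) (q : B × ℝ) :
    Complex.normSq (flow1 t q).1.2.1 = Complex.normSq q.1.2.1 ∧
      Quaternion.normSq (flow1 t q).1.2.2 = Quaternion.normSq q.1.2.2 := by
  constructor
  · show Complex.normSq (bflow _ (sh (-round q.1.1) q).1).2.1 = _
    rw [bflow_normSq_w]
    rfl
  · show Quaternion.normSq (bflow _ (sh (-round q.1.1) q).1).2.2 = _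
    rw [bflow_normSq_u]
    rfl

theorem flow1_trivial (t : ℝ) (q : B × ℝ) (h : 1 / 4 ≤ |q.1.1 - round q.1.1| ∨
    3 / 2 ≤ Complex.normSq q.1.2.1 ∨ 9 ≤ Quaternion.normSq q.1.2.2) :
    flow1 t q = (q.1, q.2 + t) := by
  have key : flowL t (sh (-round q.1.1) q) =
      ((sh (-round q.1.1) q).1, (sh (-round q.1.1) q).2 + t) := by
    rcases h with h | h | h
    · apply flowL_lam
      show lam (q.1.1 + ((-round q.1.1 : ℤ) : ℝ)) = 1
      rw [lam_add, lam_eq_one h]
    · have hv : vv q.1.2.1 = 0 := by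
        by_contra hne
        exact absurd (vv_ne_zero hne).2 (not_lt.2 h)
      apply flowL_triv
      · show vv q.1.2.1 * chi q.1.2.2 = 0
        rw [hv, zero_mul]
      · show kap q.1.2.1 q.1.2.2 = 0
        by_contra hne
        exact (kap_ne_zero hne).1 hv
    · have hv : chi q.1.2.2 = 0 := by
        by_contra hne
        exact absurd (chi_ne_zero hne) (not_lt.2 h)
      apply flowL_triv
      · show vv q.1.2.1 * chi q.1.2.2 = 0
        rw [hv, mul_zero]
      · show kap q.1.2.1 q.1.2.2 = 0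
        by_contra hne
        have := (kap_ne_zero hne).2.2
        linarith
  unfold flow1
  rw [key, sh_shift]

end Clock
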