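import Pool.Agent.Clock.Planar

/-!
# The clock vector field: moving lattice boxes to a line in all dimensions
-/

open scoped ContDiff

namespace Clock

/-- `(first coordinate, the other ones)` -/
private def consL (m : ℕ) : (Fin (m + 1) → ℝ) ≃ₗ[ℝ] ℝ × (Fin m → ℝ) where
  toFun x := (x 0, fun i => x i.succ)
  invFun p := Fin.cons p.1 p.2
  map_add' x y := rfl
  map_smul' c x := rfl
  left_inv x := by
    funext i
    refine Fin.cases ?_ (fun j => ?_) i <;> simp
  right_inv p := by simp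

/-- `((second, first), rest)` -/
private def swapL (m : ℕ) : ((ℝ × (Fin (m + 1) → ℝ))) ≃ₗ[ℝ] (ℝ × ℝ) × (Fin m → ℝ) where
  toFun x := ((x.2 0, x.1), fun i => x.2 i.succ)
  invFun p := (p.1.2, Fin.cons p.1.1 p.2)
  map_add' x y := rfl
  map_smul' c x := rfl
  left_inv x := by
    refine Prod.ext rfl ?_
    funext i
    refine Fin.cases ?_ (fun j => ?_) i <;> simp
  right_inv p := by simp

private theorem diffeo_linear {X Y : Type} [NormedAddCommGroup X] [NormedSpace ℝ X]
    [NormedAddCommGroup Y] [NormedSpace ℝ Y] [FiniteDimensional ℝ X] [FiniteDimensional ℝ Y]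
    (e : X ≃ₗ[ℝ] Y) : IsDiffeo e.toEquiv :=
  isDiffeo_clm e.toContinuousLinearEquiv

/-- `(other coordinates, first coordinate)` for integers -/
private def consZ (m : ℕ) : (Fin (m + 1) → ℤ) ≃ (Fin m → ℤ) × ℤ where
  toFun x := (fun i => x i.succ, x 0)
  invFun p := Fin.cons p.2 p.1
  left_inv x := by
    funext i
    refine Fin.cases ?_ (fun j => ?_) i <;> simp
  right_inv p := by simp

private theorem refl_isDiffeo {X : Type} [NormedAddCommGroup X] [NormedSpace ℝ X] :
    IsDiffeo (Equiv.refl X) := ⟨contDiff_id, contDiff_id⟩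

theorem exists_K (m : ℕ) : ∃ (K : (Fin (m + 1) → ℝ) ≃ (Fin (m + 1) → ℝ))
    (v : (Fin (m + 1) → ℤ) ≃ ℤ), IsDiffeo K ∧
    ∀ (n : Fin (m + 1) → ℤ) (q : Fin (m + 1) → ℝ), (∀ i, |q i| ≤ 4) →
      K (fun i => 10 * n i + q i) = fun i => (if i = 0 then 10 * (v n : ℝ) else 0) + q i := by
  induction m with
  | zero =>
    refine ⟨Equiv.refl _, Equiv.funUnique (Fin 1) ℤ, refl_isDiffeo, ?_⟩
    intro n q _
    funext i
    have hi : i = 0 := @Subsingleton.elim (Fin 1) _ i 0
    subst hi
    simp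
  | succ m ih =>
    obtain ⟨K, v, hK, hv⟩ := ih
    obtain ⟨P, e, hP, he⟩ := planar
    set A : (Fin (m + 2) → ℝ) ≃ ℝ × (Fin (m + 1) → ℝ) := (consL (m + 1)).toEquiv with hA
    set S : ℝ × (Fin (m + 1) → ℝ) ≃ (ℝ × ℝ) × (Fin m → ℝ) := (swapL m).toEquiv with hS
    have hAd : IsDiffeo A := diffeo_linear _
    have hSd : IsDiffeo S := diffeo_linear _
    refine ⟨(A.trans (Equiv.prodCongr (Equiv.refl ℝ) K)).trans
      ((S.trans (Equiv.prodCongr P (Equiv.refl (Fin m → ℝ)))).trans (S.symm.trans A.symm)),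
      (consZ (m + 1)).trans ((Equiv.prodCongr v (Equiv.refl ℤ)).trans e),
      (hAd.trans (refl_isDiffeo.prod hK)).trans
        ((hSd.trans (hP.prod refl_isDiffeo)).trans (hSd.symm.trans hAd.symm)), ?_⟩
    intro n q hq
    have h1 : K (fun i => 10 * (n i.succ : ℝ) + q i.succ) =
        fun i => (if i = 0 then 10 * (v (fun i => n i.succ) : ℝ) else 0) + q i.succ :=
      hv (fun i => n i.succ) (fun i => q i.succ) (fun i => hq _)
    have h2 := he (v (fun i => n i.succ)) (n 0) (q 1) (q 0) (hq 1) (hq 0)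
    have h3 : (Equiv.prodCongr (Equiv.refl ℝ) K) (A (fun i => 10 * (n i : ℝ) + q i)) =
        (10 * (n 0 : ℝ) + q 0,
          fun i => (if i = 0 then 10 * (v (fun i => n i.succ) : ℝ) else 0) + q i.succ) := by
      show (10 * (n 0 : ℝ) + q 0, K (fun i => 10 * (n i.succ : ℝ) + q i.succ)) = _
      rw [h1]
    have h4 : (Equiv.prodCongr P (Equiv.refl (Fin m → ℝ))) (S (10 * (n 0 : ℝ) + q 0,
          fun i => (if i = 0 then 10 * (v (fun i => n i.succ) : ℝ) else 0) + q i.succ)) =
        ((q 1, 10 * (e (v (fun i => n i.succ), n 0) : ℝ) + q 0),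
          fun i : Fin m => q i.succ.succ) := by
      show (P ((if (0 : Fin (m + 1)) = 0 then 10 * (v (fun i => n i.succ) : ℝ) else 0) +
        q (Fin.succ 0), 10 * (n 0 : ℝ) + q 0), fun i : Fin m =>
          (if i.succ = 0 then 10 * (v (fun i => n i.succ) : ℝ) else 0) + q i.succ.succ) = _
      rw [if_pos rfl, Fin.succ_zero_eq_one, h2]
      refine Prod.ext rfl ?_
      funext i
      simp [Fin.succ_ne_zero]
    rw [Equiv.trans_apply, Equiv.trans_apply, Equiv.trans_apply, Equiv.trans_apply,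
      Equiv.trans_apply, h3, h4]
    show A.symm ((10 * (e (v (fun i => n i.succ), n 0) : ℝ) + q 0,
      Fin.cons (q 1) (fun i : Fin m => q i.succ.succ))) = _
    show (Fin.cons (10 * (e (v (fun i => n i.succ), n 0) : ℝ) + q 0)
      (Fin.cons (q 1) (fun i : Fin m => q i.succ.succ) : Fin (m + 1) → ℝ) : Fin (m + 2) → ℝ) = _
    funext i
    refine Fin.cases ?_ (fun j => ?_) i
    · simp only [Fin.cons_zero]
      rfl
    · rw [Fin.cons_succ, if_neg (Fin.succ_ne_zero j), zero_add]
      refine Fin.cases ?_ (fun l => ?_) j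
      · simp only [Fin.cons_zero]
        rfl
      · simp only [Fin.cons_succ]

end Clock
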