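import Pool.Agent.Clock.Fiber
import Pool.Agent.Clock.Rearr
import Pool.Agent.Clock.Theta
import Pool.Agent.Clock.Periodic

/-! # The periodic flow on `ℝ^8` -/

open scoped ContDiff Topology
open MeasureTheory

namespace Clock

namespace AssembleAux

/-- first seven coordinates and height -/
noncomputable def Sl : (Fin 8 → ℝ) ≃ₗ[ℝ] (Fin 7 → ℝ) × ℝ where
  toFun x := (fun i => x i.castSucc, x (Fin.last 7))
  invFun q := Fin.snoc (α := fun _ => ℝ) q.1 q.2
  map_add' x y := rfl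
  map_smul' c x := rfl
  left_inv x := by
    show Fin.snoc (α := fun _ => ℝ) (fun i : Fin 7 => x i.castSucc) (x (Fin.last 7)) = x
    exact Fin.snoc_init_self x
  right_inv q := by
    refine Prod.ext ?_ ?_
    · ext i
      simp
    · show Fin.snoc (α := fun _ => ℝ) q.1 q.2 (Fin.last 7) = q.2
      rw [Fin.snoc_last]

/-- the same, continuous -/
noncomputable def S : (Fin 8 → ℝ) ≃L[ℝ] (Fin 7 → ℝ) × ℝ := Sl.toContinuousLinearEquiv

/-- coordinates of the total space -/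
noncomputable def P : ((Fin 7 → ℝ) × ℝ) ≃L[ℝ] B × ℝ := S.symm.trans cL

theorem S_fst (x : Fin 8 → ℝ) : (S x).1 = fun i => x i.castSucc := rfl

theorem S_snd (x : Fin 8 → ℝ) : (S x).2 = x (Fin.last 7) := rfl

theorem P_apply (X : Fin 7 → ℝ) (z : ℝ) :
    P (X, z) = ((X 0 / 10, ⟨X 1, X 2⟩, ⟨X 3, X 4, X 5, X 6⟩), z) := rfl

/-- the flow in these coordinates -/
noncomputable def F (t : ℝ) (e : (Fin 7 → ℝ) × ℝ) : (Fin 7 → ℝ) × ℝ := P.symm (flow1 t (P e))

theorem P_F (t : ℝ) (e : (Fin 7 → ℝ) × ℝ) : P (F t e) = flow1 t (P e) := by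
  unfold F
  rw [ContinuousLinearEquiv.apply_symm_apply]

/-- the condition of triviality -/
def Triv (X : Fin 7 → ℝ) : Prop :=
  1 / 4 ≤ |X 0 / 10 - round (X 0 / 10)| ∨ 3 / 2 ≤ X 1 ^ 2 + X 2 ^ 2 ∨
    9 ≤ X 3 ^ 2 + X 4 ^ 2 + X 5 ^ 2 + X 6 ^ 2

theorem F_triv {X : Fin 7 → ℝ} (h : Triv X) (t z : ℝ) : F t (X, z) = (X, z + t) := by
  apply P.injective
  rw [P_F, P_apply, P_apply, flow1_trivial]
  rcases h with h | h | h
  · exact Or.inl h
  · right; left
    show 3 / 2 ≤ Complex.normSq ⟨X 1, X 2⟩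
    rw [Complex.normSq_mk]
    nlinarith
  · right; right
    show 9 ≤ Quaternion.normSq (⟨X 3, X 4, X 5, X 6⟩ : HH)
    rw [Quaternion.normSq_def']
    exact h

theorem F_z (t s : ℝ) (X : Fin 7 → ℝ) (z : ℝ) :
    F t (X, z + s) = ((F t (X, z)).1, (F t (X, z)).2 + s) := by
  apply P.injective
  have h1 : P (X, z + s) = ((P (X, z)).1, (P (X, z)).2 + s) := rfl
  have h2 : P ((F t (X, z)).1, (F t (X, z)).2 + s) =
    ((P (F t (X, z))).1, (P (F t (X, z))).2 + s) := rfl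
  rw [P_F, h1, flow1_z, h2, P_F]

/-- translation of the coordinate zero -/
def tr (k : ℤ) (X : Fin 7 → ℝ) : Fin 7 → ℝ := fun i => (if i = 0 then 10 * (k : ℝ) else 0) + X i

theorem P_tr (k : ℤ) (X : Fin 7 → ℝ) (z : ℝ) : P (tr k X, z) = sh k (P (X, z)) := by
  rw [P_apply, P_apply]
  have h0 : tr k X 0 / 10 = X 0 / 10 + k := by
    show ((if (0 : Fin 7) = 0 then 10 * (k : ℝ) else 0) + X 0) / 10 = _
    rw [if_pos rfl]
    ring
  have h1 : ∀ i : Fin 7, i ≠ 0 → tr k X i = X i := by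
    intro i hi
    show (if i = 0 then 10 * (k : ℝ) else 0) + X i = X i
    rw [if_neg hi, zero_add]
  rw [h0, h1 1 (by decide), h1 2 (by decide), h1 3 (by decide), h1 4 (by decide),
    h1 5 (by decide), h1 6 (by decide)]
  rfl

theorem F_tr (k : ℤ) (t : ℝ) (X : Fin 7 → ℝ) (z : ℝ) :
    F t (tr k X, z) = (tr k (F t (X, z)).1, (F t (X, z)).2) := by
  apply P.injective
  rw [P_F, P_tr, P_tr, flow1_sh, P_F]

theorem F_box {X : Fin 7 → ℝ} (h : ∀ i, |X i| ≤ 4) (t z : ℝ) : ∀ i, |(F t (X, z)).1 i| ≤ 4 := by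
  by_cases hT : Triv X
  · rw [F_triv hT]
    exact h
  · unfold Triv at hT
    push Not at hT
    obtain ⟨-, h2, h3⟩ := hT
    set Y := (F t (X, z)).1 with hY
    set z' := (F t (X, z)).2 with hz'
    have hP : P (Y, z') = flow1 t (P (X, z)) := P_F t (X, z)
    have e0 : Y 0 = X 0 := by
      have := flow1_fst t (P (X, z))
      rw [← hP, P_apply, P_apply] at this
      have h5 : Y 0 / 10 = X 0 / 10 := this
      linarith
    obtain ⟨e1, e2⟩ := flow1_normSq t (P (X, z))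
    rw [← hP, P_apply, P_apply] at e1 e2
    have e1' : Y 1 ^ 2 + Y 2 ^ 2 = X 1 ^ 2 + X 2 ^ 2 := by
      have : Complex.normSq ⟨Y 1, Y 2⟩ = Complex.normSq ⟨X 1, X 2⟩ := e1
      rw [Complex.normSq_mk, Complex.normSq_mk] at this
      nlinarith
    have e2' : Y 3 ^ 2 + Y 4 ^ 2 + Y 5 ^ 2 + Y 6 ^ 2 = X 3 ^ 2 + X 4 ^ 2 + X 5 ^ 2 + X 6 ^ 2 := by
      have : Quaternion.normSq (⟨Y 3, Y 4, Y 5, Y 6⟩ : HH) =
          Quaternion.normSq (⟨X 3, X 4, X 5, X 6⟩ : HH) := e2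
      rw [Quaternion.normSq_def', Quaternion.normSq_def'] at this
      exact this
    have key : ∀ a : ℝ, a ^ 2 ≤ 16 → |a| ≤ 4 := fun a ha =>
      abs_le.2 ⟨by nlinarith, by nlinarith⟩
    intro i
    fin_cases i
    · show |Y 0| ≤ 4
      rw [e0]; exact h 0
    · exact key _ (by show Y 1 ^ 2 ≤ 16; nlinarith [sq_nonneg (Y 2)])
    · exact key _ (by show Y 2 ^ 2 ≤ 16; nlinarith [sq_nonneg (Y 1)])
    · exact key _ (by
        show Y 3 ^ 2 ≤ 16
        nlinarith [sq_nonneg (Y 4), sq_nonneg (Y 5), sq_nonneg (Y 6)])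
    · exact key _ (by
        show Y 4 ^ 2 ≤ 16
        nlinarith [sq_nonneg (Y 3), sq_nonneg (Y 5), sq_nonneg (Y 6)])
    · exact key _ (by
        show Y 5 ^ 2 ≤ 16
        nlinarith [sq_nonneg (Y 4), sq_nonneg (Y 3), sq_nonneg (Y 6)])
    · exact key _ (by
        show Y 6 ^ 2 ≤ 16
        nlinarith [sq_nonneg (Y 4), sq_nonneg (Y 5), sq_nonneg (Y 3)])

/-- the flow conjugated by `K` commutes with the lattice -/
theorem periodic (K : (Fin 7 → ℝ) ≃ (Fin 7 → ℝ)) (v : (Fin 7 → ℤ) ≃ ℤ)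
    (hK : ∀ (n : Fin 7 → ℤ) (q : Fin 7 → ℝ), (∀ i, |q i| ≤ 4) →
      K (fun i => 10 * n i + q i) = tr (v n) q)
    (m : Fin 7 → ℤ) (s t : ℝ) (x : Fin 7 → ℝ) (z : ℝ) :
    K.symm (F t (K (fun i => x i + 10 * m i), z + s)).1 =
        (fun i => K.symm (F t (K x, z)).1 i + 10 * m i) ∧
      (F t (K (fun i => x i + 10 * m i), z + s)).2 = (F t (K x, z)).2 + s := by
  rw [F_z]
  show K.symm (F t (K (fun i => x i + 10 * m i), z)).1 = _ ∧
    (F t (K (fun i => x i + 10 * m i), z)).2 + s = _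
  by_cases hx : ∃ n : Fin 7 → ℤ, ∀ i, |x i - 10 * n i| ≤ 4
  · obtain ⟨n, hn⟩ := hx
    have key : ∀ n' : Fin 7 → ℤ,
        K.symm (F t (K (fun i => 10 * n' i + (x i - 10 * n i)), z)).1 =
          (fun i => 10 * (n' i : ℝ) + (F t (fun i => x i - 10 * n i, z)).1 i) ∧
        (F t (K (fun i => 10 * n' i + (x i - 10 * n i)), z)).2 =
          (F t (fun i => x i - 10 * n i, z)).2 := by
      intro n'
      rw [hK n' (fun i => x i - 10 * n i) hn, F_tr]
      refine ⟨?_, rfl⟩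
      show K.symm (tr (v n') (F t (fun i => x i - 10 * n i, z)).1) = _
      rw [Equiv.symm_apply_eq, hK n' _ (F_box hn t z)]
    have e1 : (fun i => 10 * ((fun i => n i + m i : Fin 7 → ℤ) i : ℝ) + (x i - 10 * n i)) =
        fun i => x i + 10 * (m i : ℝ) := by
      ext i
      push_cast
      ring
    have e2 : (fun i => 10 * (n i : ℝ) + (x i - 10 * n i)) = x := by
      ext i
      ring
    obtain ⟨a1, a2⟩ := key (fun i => n i + m i)
    obtain ⟨b1, b2⟩ := key n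
    rw [e1] at a1 a2
    rw [e2] at b1 b2
    rw [a1, a2, b1, b2]
    refine ⟨?_, rfl⟩
    ext i
    push_cast
    ring
  · have key : ∀ y : Fin 7 → ℝ, (¬ ∃ n : Fin 7 → ℤ, ∀ i, |y i - 10 * n i| ≤ 4) → Triv (K y) := by
      intro y hy
      by_contra hT
      apply hy
      unfold Triv at hT
      push Not at hT
      obtain ⟨h1, h2, h3⟩ := hT
      set k := round (K y 0 / 10) with hk
      refine ⟨v.symm k, ?_⟩
      have hbox : ∀ i, |tr (-k) (K y) i| ≤ 4 := by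
        have key : ∀ a : ℝ, a ^ 2 ≤ 16 → |a| ≤ 4 := fun a ha =>
          abs_le.2 ⟨by nlinarith, by nlinarith⟩
        have hne : ∀ i : Fin 7, i ≠ 0 → tr (-k) (K y) i = K y i := by
          intro i hi
          show (if i = 0 then 10 * ((-k : ℤ) : ℝ) else 0) + K y i = K y i
          rw [if_neg hi, zero_add]
        have h0 : tr (-k) (K y) 0 = 10 * (K y 0 / 10 - k) := by
          show (if (0 : Fin 7) = 0 then 10 * ((-k : ℤ) : ℝ) else 0) + K y 0 = _
          rw [if_pos rfl]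
          push_cast
          ring
        intro i
        by_cases hi : i = 0
        · rw [hi, h0, abs_mul, abs_of_pos (by norm_num : (0 : ℝ) < 10)]
          linarith
        · rw [hne i hi]
          apply key
          fin_cases i
          · exact absurd rfl hi
          · show K y 1 ^ 2 ≤ 16; nlinarith [sq_nonneg (K y 2)]
          · show K y 2 ^ 2 ≤ 16; nlinarith [sq_nonneg (K y 1)]
          · show K y 3 ^ 2 ≤ 16
            nlinarith [sq_nonneg (K y 4), sq_nonneg (K y 5), sq_nonneg (K y 6)]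
          · show K y 4 ^ 2 ≤ 16
            nlinarith [sq_nonneg (K y 3), sq_nonneg (K y 5), sq_nonneg (K y 6)]
          · show K y 5 ^ 2 ≤ 16
            nlinarith [sq_nonneg (K y 4), sq_nonneg (K y 3), sq_nonneg (K y 6)]
          · show K y 6 ^ 2 ≤ 16
            nlinarith [sq_nonneg (K y 4), sq_nonneg (K y 5), sq_nonneg (K y 3)]
      have h5 := hK (v.symm k) _ hbox
      rw [Equiv.apply_symm_apply] at h5
      have h6 : tr k (tr (-k) (K y)) = K y := by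
        ext i
        show (if i = 0 then 10 * (k : ℝ) else 0) +
          ((if i = 0 then 10 * ((-k : ℤ) : ℝ) else 0) + K y i) = K y i
        split_ifs
        · push_cast; ring
        · ring
      rw [h6] at h5
      have h7 := K.injective h5
      intro i
      have h8 : 10 * ((v.symm k i : ℤ) : ℝ) + tr (-k) (K y) i = y i := congrFun h7 i
      rw [← h8]
      have h9 : 10 * ((v.symm k i : ℤ) : ℝ) + tr (-k) (K y) i - 10 * ((v.symm k i : ℤ) : ℝ) =
          tr (-k) (K y) i := by ring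
      rw [h9]
      exact hbox i
    have hx' : ¬ ∃ n : Fin 7 → ℤ, ∀ i, |(fun i => x i + 10 * (m i : ℝ)) i - 10 * n i| ≤ 4 := by
      rintro ⟨n, hn⟩
      apply hx
      refine ⟨fun i => n i - m i, fun i => ?_⟩
      have := hn i
      simp only at this
      have e : x i - 10 * (((n i - m i : ℤ)) : ℝ) = x i + 10 * (m i : ℝ) - 10 * n i := by
        push_cast; ring
      rw [e]
      exact this
    rw [F_triv (key _ hx'), F_triv (key _ hx)]
    refine ⟨?_, rfl⟩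
    rw [Equiv.symm_apply_apply, Equiv.symm_apply_apply]

theorem isDiffeo_refl : IsDiffeo (Equiv.refl ℝ) := ⟨contDiff_id, contDiff_id⟩

end AssembleAux

open AssembleAux in
theorem exists_flowX : ∃ (Φ : (Fin 8 → ℝ) ≃ (Fin 8 → ℝ)) (ψ : ℝ → (Fin 8 → ℝ) → (Fin 8 → ℝ)),
    IsDiffeo Φ ∧ IsFlow ψ ∧ (∀ t x, cL (Φ (ψ t x)) = flowY t (cL (Φ x))) ∧
    ∀ (n : Fin 8 → ℤ) (t : ℝ) (x : Fin 8 → ℝ),
      ψ t (fun i => x i + 10 * n i) = fun i => ψ t x i + 10 * n i := by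
  have hK6 : ∃ (K : (Fin 7 → ℝ) ≃ (Fin 7 → ℝ)) (v : (Fin 7 → ℤ) ≃ ℤ), IsDiffeo K ∧
    ∀ (n : Fin 7 → ℤ) (q : Fin 7 → ℝ), (∀ i, |q i| ≤ 4) →
      K (fun i => 10 * n i + q i) = tr (v n) q := exists_K 6
  obtain ⟨K, v, hKd, hK⟩ := hK6
  obtain ⟨Θ, hΘ, hΘc⟩ := exists_Theta
  obtain ⟨L, hL, hLc⟩ := exists_L1
  set Ψ : (Fin 8 → ℝ) ≃ B × ℝ :=
    S.toEquiv.trans ((Equiv.prodCongr K (Equiv.refl ℝ)).trans P.toEquiv) with hΨ
  have hΨd : IsDiffeo Ψ := (isDiffeo_clm S).trans ((hKd.prod isDiffeo_refl).trans (isDiffeo_clm P))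
  have hΨa : ∀ x, Ψ x = P (K (fun i => x i.castSucc), x (Fin.last 7)) := fun x => rfl
  set Φ : (Fin 8 → ℝ) ≃ (Fin 8 → ℝ) :=
    Ψ.trans (L.symm.trans (Θ.symm.trans cL.symm.toEquiv)) with hΦ
  have hΦd : IsDiffeo Φ :=
    hΨd.trans (hL.symm.trans (hΘ.symm.trans (isDiffeo_clm cL.symm)))
  have hΦa : ∀ x, cL (Φ x) = Θ.symm (L.symm (Ψ x)) := by
    intro x
    show cL (cL.symm (Θ.symm (L.symm (Ψ x)))) = _
    rw [ContinuousLinearEquiv.apply_symm_apply]
  refine ⟨Φ, fun t x => Ψ.symm (flow1 t (Ψ x)), hΦd, ⟨?_, ?_, ?_⟩, ?_, ?_⟩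
  · have h2 : ContDiff ℝ ∞ (fun q : ℝ × (Fin 8 → ℝ) => (q.1, Ψ q.2)) :=
      contDiff_fst.prodMk (hΨd.1.comp contDiff_snd)
    have h3 : ContDiff ℝ ∞ (fun q : ℝ × (Fin 8 → ℝ) => flow1 q.1 (Ψ q.2)) :=
      ContDiff.comp (g := fun q : ℝ × (B × ℝ) => flow1 q.1 q.2)
        (f := fun q : ℝ × (Fin 8 → ℝ) => (q.1, Ψ q.2)) flow1_isFlow.smooth h2
    exact ContDiff.comp (g := fun q : B × ℝ => Ψ.symm q)
        (f := fun q : ℝ × (Fin 8 → ℝ) => flow1 q.1 (Ψ q.2)) hΨd.2 h3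
  · intro x
    show Ψ.symm (flow1 0 (Ψ x)) = x
    rw [flow1_isFlow.zero, Equiv.symm_apply_apply]
  · intro s t x
    show Ψ.symm (flow1 (s + t) (Ψ x)) = Ψ.symm (flow1 s (Ψ (Ψ.symm (flow1 t (Ψ x)))))
    rw [Equiv.apply_symm_apply, flow1_isFlow.add]
  · intro t x
    show cL (Φ (Ψ.symm (flow1 t (Ψ x)))) = _
    rw [hΦa, hΦa, Equiv.apply_symm_apply]
    rw [Equiv.symm_apply_eq, Equiv.symm_apply_eq, hΘc, hLc, Equiv.apply_symm_apply,
      Equiv.apply_symm_apply]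
  · intro n t x
    show Ψ.symm (flow1 t (Ψ (fun i => x i + 10 * n i))) =
      fun i => Ψ.symm (flow1 t (Ψ x)) i + 10 * n i
    rw [Equiv.symm_apply_eq]
    have hform : ∀ y, Ψ.symm (flow1 t (Ψ y)) = S.symm (K.symm
        (F t (K (fun i => y i.castSucc), y (Fin.last 7))).1,
        (F t (K (fun i => y i.castSucc), y (Fin.last 7))).2) := fun y => rfl
    rw [hform x, ← Equiv.symm_apply_eq, hform]
    obtain ⟨p1, p2⟩ := periodic K v hK (fun i => n i.castSucc) (10 * (n (Fin.last 7) : ℝ)) t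
      (fun i => x i.castSucc) (x (Fin.last 7))
    rw [p1, p2]
    show Fin.snoc (α := fun _ => ℝ) _ _ = fun i => Fin.snoc (α := fun _ => ℝ) _ _ i + 10 * (n i : ℝ)
    ext i
    refine Fin.lastCases ?_ (fun j => ?_) i
    · rw [Fin.snoc_last, Fin.snoc_last]
    · rw [Fin.snoc_castSucc, Fin.snoc_castSucc]

end Clock
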