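import Pool.Agent.Clock.Struct

/-!
# Definability kit (module DK)

Definable functions of an o-minimal structure: coordinates, constants, arithmetic, square root,
case distinction, exponential and the standard smooth bump functions.
-/

namespace Clock

section DK
variable (S : OMinimalStructure)

namespace DefKitAux

theorem def_of_iff {n : ℕ} {A A' : Set (Fin n → ℝ)} (h : A ∈ S.Def n)
    (h' : ∀ x, x ∈ A' ↔ x ∈ A) : A' ∈ S.Def n := by
  have : A' = A := Set.ext h'
  rw [this]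
  exact h

theorem defFun_of_iff {n : ℕ} {A : Set (Fin (n + 1) → ℝ)} {f : (Fin n → ℝ) → ℝ}
    (h : A ∈ S.Def (n + 1)) (h' : ∀ z : Fin (n + 1) → ℝ, z 0 = f (Fin.tail z) ↔ z ∈ A) :
    S.DefFun f :=
  def_of_iff S h h'

end DefKitAux

open DefKitAux

theorem def_univ (n : ℕ) : (Set.univ : Set (Fin n → ℝ)) ∈ S.Def n := by
  have h1 : (Set.univ : Set (Fin 1 → ℝ)) ∈ S.Def 1 := by
    have := S.union_mem (S.point_mem 0) (S.compl_mem (S.point_mem 0))
    rwa [Set.union_compl_self] at this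
  have h2 := S.pull_mem (fun _ : Fin 1 => (0 : Fin (n + 1))) h1
  have h3 := S.proj_mem h2
  exact def_of_iff S h3 (fun x => iff_of_true trivial ⟨0, trivial⟩)

theorem def_inter {n : ℕ} {A A' : Set (Fin n → ℝ)} (h : A ∈ S.Def n) (h' : A' ∈ S.Def n) :
    A ∩ A' ∈ S.Def n := by
  have := S.compl_mem (S.union_mem (S.compl_mem h) (S.compl_mem h'))
  refine def_of_iff S this (fun x => ?_)
  simp only [Set.mem_inter_iff, Set.mem_compl_iff, Set.mem_union, not_or, not_not]

namespace DefKitAux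

theorem def_iInter {n : ℕ} {ι : Type} [Finite ι] {A : ι → Set (Fin n → ℝ)}
    (h : ∀ i, A i ∈ S.Def n) : (⋂ i, A i) ∈ S.Def n := by
  classical
  have := Fintype.ofFinite ι
  have key : ∀ s : Finset ι, (⋂ i ∈ s, A i) ∈ S.Def n := by
    intro s
    induction s using Finset.induction_on with
    | empty => simpa using def_univ S n
    | insert a s _ ih =>
      rw [Finset.set_biInter_insert]
      exact def_inter S (h a) ih
  simpa using key Finset.univ

/-- projection of many coordinates -/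
theorem proj_many {n : ℕ} (k : ℕ) {A : Set (Fin (n + k) → ℝ)} (hA : A ∈ S.Def (n + k)) :
    {x : Fin n → ℝ | ∃ z : Fin (n + k) → ℝ, z ∈ A ∧ ∀ i, z (Fin.addNat i k) = x i} ∈ S.Def n := by
  induction k with
  | zero =>
    refine def_of_iff S hA (fun x => ?_)
    constructor
    · rintro ⟨z, hz, hx⟩
      have : z = x := funext fun i => hx i
      rw [← this]
      exact hz
    · intro hx
      exact ⟨x, hx, fun i => rfl⟩
  | succ k ih =>
    have h1 := ih (A := {x : Fin (n + k) → ℝ | ∃ s : ℝ, (Fin.cons s x : Fin (n + k + 1) → ℝ) ∈ A})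
      (S.proj_mem hA)
    refine def_of_iff S h1 (fun x => ?_)
    constructor
    · rintro ⟨z, hz, hx⟩
      refine ⟨Fin.tail z, ⟨z 0, ?_⟩, fun i => ?_⟩
      · rw [Fin.cons_self_tail]
        exact hz
      · exact hx i
    · rintro ⟨z', ⟨s, hz⟩, hx⟩
      exact ⟨Fin.cons s z', hz, fun i => hx i⟩

/-- substitution of coordinates in a definable function -/
theorem defFun_pull {n m : ℕ} (σ : Fin n → Fin m) {f : (Fin n → ℝ) → ℝ} (hf : S.DefFun f) :
    S.DefFun (fun x : Fin m → ℝ => f (fun i => x (σ i))) := by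
  have h := S.pull_mem (Fin.cons 0 (fun i => (σ i).succ) : Fin (n + 1) → Fin (m + 1)) hf
  exact defFun_of_iff S h (fun z => Iff.rfl)

/-- the set where a coordinate is equal to a definable function of other coordinates -/
theorem def_graph_pull {n m : ℕ} (a : Fin m) (σ : Fin n → Fin m) {f : (Fin n → ℝ) → ℝ}
    (hf : S.DefFun f) : {x : Fin m → ℝ | x a = f (fun i => x (σ i))} ∈ S.Def m := by
  have h := S.pull_mem (Fin.cons a σ : Fin (n + 1) → Fin m) hf
  exact def_of_iff S h (fun z => Iff.rfl)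

/-- the `j`-th of the first `k` coordinates -/
def fst' {k : ℕ} (n : ℕ) (j : Fin k) : Fin (n + k) := ⟨j.1, by have := j.2; omega⟩

/-- substitution of definable functions in a definable set -/
theorem def_comp {n k : ℕ} {A : Set (Fin k → ℝ)} (hA : A ∈ S.Def k)
    {F : Fin k → (Fin n → ℝ) → ℝ} (hF : ∀ j, S.DefFun (F j)) :
    {x : Fin n → ℝ | (fun j => F j x) ∈ A} ∈ S.Def n := by
  have h1 : {z : Fin (n + k) → ℝ | (fun j => z (fst' n j)) ∈ A} ∈ S.Def (n + k) :=
    S.pull_mem (fun j => fst' n j) hA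
  have h2 : (⋂ j : Fin k, {z : Fin (n + k) → ℝ |
      z (fst' n j) = F j (fun i => z (Fin.addNat i k))}) ∈ S.Def (n + k) :=
    def_iInter S fun j => def_graph_pull S (fst' n j) (fun i => Fin.addNat i k) (hF j)
  have h3 := proj_many S k (def_inter S h1 h2)
  refine def_of_iff S h3 (fun x => ?_)
  simp only [Set.mem_inter_iff, Set.mem_iInter]
  constructor
  · intro hx
    let z : Fin (n + k) → ℝ := fun i =>
      if h : i.1 < k then F ⟨i.1, h⟩ x else x ⟨i.1 - k, by have := i.2; omega⟩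
    have hz1 : ∀ j : Fin k, z (fst' n j) = F j x := by
      intro j
      have : (fst' n j).1 < k := j.2
      simp only [z, dif_pos this]
      rfl
    have hz2 : ∀ i : Fin n, z (Fin.addNat i k) = x i := by
      intro i
      have : ¬ (Fin.addNat i k).1 < k := by simp
      simp only [z, dif_neg this]
      congr 1
      ext
      simp
    have hz3 : (fun i => z (Fin.addNat i k)) = x := funext hz2
    refine ⟨z, ⟨?_, fun j => ?_⟩, hz2⟩
    · have : (fun j => z (fst' n j)) = fun j => F j x := funext hz1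
      show (fun j => z (fst' n j)) ∈ A
      rw [this]
      exact hx
    · show z (fst' n j) = F j (fun i => z (Fin.addNat i k))
      rw [hz3, hz1]
  · rintro ⟨z, ⟨hz1, hz2⟩, hz3⟩
    have hx : (fun i => z (Fin.addNat i k)) = x := funext hz3
    have h5 : (fun j => z (fst' n j)) = fun j => F j x := by
      funext j
      rw [show z (fst' n j) = F j (fun i => z (Fin.addNat i k)) from hz2 j, hx]
    show (fun j => F j x) ∈ A
    rw [← h5]
    exact hz1

theorem def_comp2 {n : ℕ} {A : Set (Fin 2 → ℝ)} (hA : A ∈ S.Def 2)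
    {f g : (Fin n → ℝ) → ℝ} (hf : S.DefFun f) (hg : S.DefFun g) :
    {x : Fin n → ℝ | ![f x, g x] ∈ A} ∈ S.Def n := by
  have := def_comp S hA (F := ![f, g]) (by
    intro j
    fin_cases j
    · exact hf
    · exact hg)
  refine def_of_iff S this (fun x => ?_)
  have : (fun j => (![f, g] : Fin 2 → (Fin n → ℝ) → ℝ) j x) = ![f x, g x] := by
    funext j; fin_cases j <;> rfl
  show ![f x, g x] ∈ A ↔ (fun j => (![f, g] : Fin 2 → (Fin n → ℝ) → ℝ) j x) ∈ A
  rw [this]

theorem def_comp3 {n : ℕ} {A : Set (Fin 3 → ℝ)} (hA : A ∈ S.Def 3)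
    {f g h : (Fin n → ℝ) → ℝ} (hf : S.DefFun f) (hg : S.DefFun g) (hh : S.DefFun h) :
    {x : Fin n → ℝ | ![f x, g x, h x] ∈ A} ∈ S.Def n := by
  have := def_comp S hA (F := ![f, g, h]) (by
    intro j
    fin_cases j
    · exact hf
    · exact hg
    · exact hh)
  refine def_of_iff S this (fun x => ?_)
  have : (fun j => (![f, g, h] : Fin 3 → (Fin n → ℝ) → ℝ) j x) = ![f x, g x, h x] := by
    funext j; fin_cases j <;> rfl
  show ![f x, g x, h x] ∈ A ↔ (fun j => (![f, g, h] : Fin 3 → (Fin n → ℝ) → ℝ) j x) ∈ A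
  rw [this]

theorem eq_mem : {x : Fin 2 → ℝ | x 0 = x 1} ∈ S.Def 2 := by
  have h1 := S.pull_mem (![1, 0] : Fin 2 → Fin 2) S.lt_mem
  have h2 := S.compl_mem (S.union_mem S.lt_mem h1)
  refine def_of_iff S h2 (fun x => ?_)
  show x 0 = x 1 ↔ ¬ (x 0 < x 1 ∨ x 1 < x 0)
  constructor
  · intro h h'
    rcases h' with h' | h'
    · exact absurd h h'.ne
    · exact absurd h h'.ne'
  · intro h
    rw [not_or, not_lt, not_lt] at h
    exact le_antisymm h.2 h.1

end DefKitAux

theorem defFun_coord {n : ℕ} (i : Fin n) : S.DefFun (fun x : Fin n → ℝ => x i) :=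
  defFun_of_iff S (S.pull_mem (![0, i.succ] : Fin 2 → Fin (n + 1)) (eq_mem S))
    (fun _ => Iff.rfl)

theorem defFun_const {n : ℕ} (r : ℝ) : S.DefFun (fun _ : Fin n → ℝ => r) :=
  S.pull_mem (fun _ : Fin 1 => (0 : Fin (n + 1))) (S.point_mem r)

namespace DefKitAux

/-- the function `f ∘ tail` -/
theorem defFun_tail {n : ℕ} {f : (Fin n → ℝ) → ℝ} (hf : S.DefFun f) :
    S.DefFun (fun z : Fin (n + 1) → ℝ => f (Fin.tail z)) :=
  defFun_pull S (fun i => i.succ) hf

theorem def_tail {n : ℕ} {A : Set (Fin n → ℝ)} (hA : A ∈ S.Def n) :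
    {z : Fin (n + 1) → ℝ | Fin.tail z ∈ A} ∈ S.Def (n + 1) :=
  S.pull_mem (fun i => i.succ) hA

theorem def_eq {n : ℕ} {f g : (Fin n → ℝ) → ℝ} (hf : S.DefFun f) (hg : S.DefFun g) :
    {x | f x = g x} ∈ S.Def n :=
  def_of_iff S (def_comp2 S (eq_mem S) hf hg) (fun _ => Iff.rfl)

end DefKitAux

theorem def_lt {n : ℕ} {f g : (Fin n → ℝ) → ℝ} (hf : S.DefFun f) (hg : S.DefFun g) :
    {x | f x < g x} ∈ S.Def n :=
  def_of_iff S (def_comp2 S S.lt_mem hf hg) (fun _ => Iff.rfl)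

theorem defFun_add {n : ℕ} {f g : (Fin n → ℝ) → ℝ} (hf : S.DefFun f) (hg : S.DefFun g) :
    S.DefFun (fun x => f x + g x) :=
  defFun_of_iff S (def_comp3 S S.add_mem (defFun_tail S hf) (defFun_tail S hg)
    (defFun_coord S (0 : Fin (n + 1)))) (fun _ => eq_comm)

theorem defFun_mul {n : ℕ} {f g : (Fin n → ℝ) → ℝ} (hf : S.DefFun f) (hg : S.DefFun g) :
    S.DefFun (fun x => f x * g x) :=
  defFun_of_iff S (def_comp3 S S.mul_mem (defFun_tail S hf) (defFun_tail S hg)
    (defFun_coord S (0 : Fin (n + 1)))) (fun _ => eq_comm)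

theorem defFun_neg {n : ℕ} {f : (Fin n → ℝ) → ℝ} (hf : S.DefFun f) :
    S.DefFun (fun x => - f x) := by
  have h1 : {z : Fin (n + 1) → ℝ | f (Fin.tail z) + z 0 = 0} ∈ S.Def (n + 1) :=
    def_eq S (defFun_add S (defFun_tail S hf) (defFun_coord S 0)) (defFun_const S 0)
  refine defFun_of_iff S h1 (fun z => ?_)
  show z 0 = - f (Fin.tail z) ↔ f (Fin.tail z) + z 0 = 0
  constructor
  · intro h
    rw [h]
    ring
  · intro h
    linarith

theorem defFun_sub {n : ℕ} {f g : (Fin n → ℝ) → ℝ} (hf : S.DefFun f) (hg : S.DefFun g) :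
    S.DefFun (fun x => f x - g x) := by
  have := defFun_add S hf (defFun_neg S hg)
  simpa only [sub_eq_add_neg] using this

theorem defFun_inv {n : ℕ} {f : (Fin n → ℝ) → ℝ} (hf : S.DefFun f) :
    S.DefFun (fun x => (f x)⁻¹) := by
  have h0 := defFun_tail S hf
  have hc := defFun_coord S (0 : Fin (n + 1))
  have h1 : {z : Fin (n + 1) → ℝ | f (Fin.tail z) * z 0 = 1} ∈ S.Def (n + 1) :=
    def_eq S (defFun_mul S h0 hc) (defFun_const S 1)
  have h2 : {z : Fin (n + 1) → ℝ | f (Fin.tail z) = 0} ∈ S.Def (n + 1) :=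
    def_eq S h0 (defFun_const S 0)
  have h3 : {z : Fin (n + 1) → ℝ | z 0 = 0} ∈ S.Def (n + 1) :=
    def_eq S hc (defFun_const S 0)
  refine defFun_of_iff S (S.union_mem h1 (def_inter S h2 h3)) (fun z => ?_)
  show z 0 = (f (Fin.tail z))⁻¹ ↔
    (f (Fin.tail z) * z 0 = 1 ∨ (f (Fin.tail z) = 0 ∧ z 0 = 0))
  constructor
  · intro h
    by_cases h0 : f (Fin.tail z) = 0
    · exact Or.inr ⟨h0, by rw [h, h0, inv_zero]⟩
    · left
      rw [h, mul_inv_cancel₀ h0]
  · rintro (h | ⟨h, h'⟩)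
    · exact (inv_eq_of_mul_eq_one_right h).symm
    · rw [h, h', inv_zero]

theorem defFun_sqrt {n : ℕ} {f : (Fin n → ℝ) → ℝ} (hf : S.DefFun f) :
    S.DefFun (fun x => Real.sqrt (f x)) := by
  have h0 := defFun_tail S hf
  have hc := defFun_coord S (0 : Fin (n + 1))
  have h1 : {z : Fin (n + 1) → ℝ | z 0 * z 0 = f (Fin.tail z)} ∈ S.Def (n + 1) :=
    def_eq S (defFun_mul S hc hc) h0
  have h2 : {z : Fin (n + 1) → ℝ | z 0 < 0}ᶜ ∈ S.Def (n + 1) :=
    S.compl_mem (def_lt S hc (defFun_const S 0))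
  have h3 : {z : Fin (n + 1) → ℝ | f (Fin.tail z) < 0} ∈ S.Def (n + 1) :=
    def_lt S h0 (defFun_const S 0)
  have h4 : {z : Fin (n + 1) → ℝ | z 0 = 0} ∈ S.Def (n + 1) :=
    def_eq S hc (defFun_const S 0)
  refine defFun_of_iff S (S.union_mem (def_inter S h1 h2) (def_inter S h3 h4)) (fun z => ?_)
  show z 0 = Real.sqrt (f (Fin.tail z)) ↔
    ((z 0 * z 0 = f (Fin.tail z) ∧ ¬ z 0 < 0) ∨ (f (Fin.tail z) < 0 ∧ z 0 = 0))
  constructor
  · intro h
    rcases lt_or_ge (f (Fin.tail z)) 0 with hneg | hpos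
    · exact Or.inr ⟨hneg, by rw [h, Real.sqrt_eq_zero_of_nonpos hneg.le]⟩
    · left
      rw [h]
      exact ⟨Real.mul_self_sqrt hpos, not_lt.mpr (Real.sqrt_nonneg _)⟩
  · rintro (⟨h, h'⟩ | ⟨h, h'⟩)
    · rw [← h, Real.sqrt_mul_self (not_lt.mp h')]
    · rw [h', Real.sqrt_eq_zero_of_nonpos h.le]

theorem defFun_ite {n : ℕ} {f g : (Fin n → ℝ) → ℝ} {A : Set (Fin n → ℝ)}
    [DecidablePred (fun x => x ∈ A)] (hA : A ∈ S.Def n) (hf : S.DefFun f) (hg : S.DefFun g) :
    S.DefFun (fun x => if x ∈ A then f x else g x) := by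
  have hA' := def_tail S hA
  refine defFun_of_iff S
    (S.union_mem (def_inter S hA' hf) (def_inter S (S.compl_mem hA') hg)) (fun z => ?_)
  show z 0 = (if Fin.tail z ∈ A then f (Fin.tail z) else g (Fin.tail z)) ↔
    ((Fin.tail z ∈ A ∧ z 0 = f (Fin.tail z)) ∨ (¬ Fin.tail z ∈ A ∧ z 0 = g (Fin.tail z)))
  by_cases h : Fin.tail z ∈ A
  · simp [h]
  · simp [h]

theorem defFun_exp (he : {x : Fin 2 → ℝ | x 1 = Real.exp (x 0)} ∈ S.Def 2) {n : ℕ}
    {f : (Fin n → ℝ) → ℝ} (hf : S.DefFun f) : S.DefFun (fun x => Real.exp (f x)) :=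
  defFun_of_iff S (def_comp2 S he (defFun_tail S hf) (defFun_coord S (0 : Fin (n + 1))))
    (fun _ => Iff.rfl)

theorem defFun_glue (he : {x : Fin 2 → ℝ | x 1 = Real.exp (x 0)} ∈ S.Def 2) {n : ℕ}
    {f : (Fin n → ℝ) → ℝ} (hf : S.DefFun f) : S.DefFun (fun x => expNegInvGlue (f x)) := by
  classical
  have h1 : {x : Fin n → ℝ | 0 < f x}ᶜ ∈ S.Def n :=
    S.compl_mem (def_lt S (defFun_const S 0) hf)
  have h2 := defFun_ite S h1 (defFun_const S 0) (defFun_exp S he (defFun_neg S (defFun_inv S hf)))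
  refine defFun_of_iff S h2 (fun z => ?_)
  show z 0 = expNegInvGlue (f (Fin.tail z)) ↔
    z 0 = (if ¬ 0 < f (Fin.tail z) then 0 else Real.exp (- (f (Fin.tail z))⁻¹))
  unfold expNegInvGlue
  rcases lt_or_ge 0 (f (Fin.tail z)) with h | h
  · simp [h, not_le.mpr h]
  · simp [h, not_lt.mpr h]

theorem defFun_st (he : {x : Fin 2 → ℝ | x 1 = Real.exp (x 0)} ∈ S.Def 2) {n : ℕ}
    {f : (Fin n → ℝ) → ℝ} (hf : S.DefFun f) :
    S.DefFun (fun x => Real.smoothTransition (f x)) := by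
  have h1 := defFun_glue S he hf
  have h2 := defFun_glue S he (defFun_sub S (defFun_const S 1) hf)
  exact defFun_mul S h1 (defFun_inv S (defFun_add S h1 h2))

theorem defMap_of_components {n m : ℕ} {f : (Fin n → ℝ) → (Fin m → ℝ)}
    (h : ∀ j, S.DefFun (fun x => f x j)) : S.DefMapOn Set.univ f := by
  have h1 := def_iInter S (fun j : Fin m =>
    def_graph_pull S (Fin.natAdd n j) (fun i => Fin.castAdd m i) (h j))
  refine def_of_iff S h1 (fun z => ?_)
  rw [Set.mem_iInter]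
  constructor
  · rintro ⟨_, hz⟩ j
    exact (congrFun hz j).symm
  · intro hz
    exact ⟨trivial, funext fun j => (hz j).symm⟩

end DK

end Clock
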