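import Pool.Agent.Clock.Defs
import Pool.Agent.Clock.DefKit

/-!
# Definability of the clock field (module DY)
-/

namespace Clock

namespace DefYAux

theorem nsw (w : ℂ) : Complex.normSq w = w.re * w.re + w.im * w.im := Complex.normSq_apply w

theorem nsu (u : HH) : Quaternion.normSq u =
    u.re * u.re + u.imI * u.imI + u.imJ * u.imJ + u.imK * u.imK := by
  rw [Quaternion.normSq_def']
  ring

theorem evv (w : ℂ) : vv w = bmp (2 * ((w.re * w.re + w.im * w.im) - 1)) := by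
  rw [vv, nsw]

theorem echi (u : HH) : chi u = Real.smoothTransition
    ((9 - (u.re * u.re + u.imI * u.imI + u.imJ * u.imJ + u.imK * u.imK)) * (5 : ℝ)⁻¹) := by
  rw [chi, nsu, div_eq_mul_inv]

theorem ehA (u : HH) : hA u =
    bmp (u.re * u.re + u.imI * u.imI - 1) * bmp (u.imJ * u.imJ + u.imK * u.imK) := by
  simp only [hA, sq]

theorem ehB (u : HH) : hB u =
    bmp ((u.re - 1) * (u.re - 1) + u.imI * u.imI + u.imJ * u.imJ + u.imK * u.imK) := by
  have h1 : (u - 1).re = u.re - 1 := rfl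
  have h2 : (u - 1).imI = u.imI := sub_zero u.imI
  have h3 : (u - 1).imJ = u.imJ := sub_zero u.imJ
  have h4 : (u - 1).imK = u.imK := sub_zero u.imK
  rw [hB, nsu, h1, h2, h3, h4]

theorem eeta (w : ℂ) : eta w =
    C0 * Real.smoothTransition (8 * (w.re * w.re + w.im * w.im) - 1) *
      expNegInvGlue (- (w.re * (Real.sqrt (w.re * w.re + w.im * w.im))⁻¹)) := by
  simp only [eta, nsw, div_eq_mul_inv]

/-- `om`, `gg` in coordinates -/
noncomputable def OM (x : Fin 8 → ℝ) : ℝ :=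
  bmp (2 * ((x 1 * x 1 + x 2 * x 2) - 1)) * Real.smoothTransition
      ((9 - (x 3 * x 3 + x 4 * x 4 + x 5 * x 5 + x 6 * x 6)) * (5 : ℝ)⁻¹)
noncomputable def GG (x : Fin 8 → ℝ) : ℝ :=
  1 - bmp (2 * ((x 1 * x 1 + x 2 * x 2) - 1)) *
    ((1 - Real.smoothTransition (x 1)) *
        (bmp (x 3 * x 3 + x 4 * x 4 - 1) * bmp (x 5 * x 5 + x 6 * x 6)) +
      Real.smoothTransition (x 1) *
        bmp ((x 3 - 1) * (x 3 - 1) + x 4 * x 4 + x 5 * x 5 + x 6 * x 6))
noncomputable def ET (x : Fin 8 → ℝ) : ℝ :=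
  C0 * Real.smoothTransition (8 * (x 1 * x 1 + x 2 * x 2) - 1) *
    expNegInvGlue (- (x 1 * (Real.sqrt (x 1 * x 1 + x 2 * x 2))⁻¹))
noncomputable def CO (x : Fin 8 → ℝ) : ℝ := x 0 * (10 : ℝ)⁻¹ * OM x * ET x

theorem om_cL (x : Fin 8 → ℝ) : om (cL x).1 = OM x := by
  rw [om, evv, echi]
  rfl

theorem gg_cL (x : Fin 8 → ℝ) : gg (cL x).1 = GG x := by
  rw [gg, kap, evv, ehA, ehB, bB]
  rfl

theorem eta_cL (x : Fin 8 → ℝ) : eta (cL x).1.2.1 = ET x := by
  rw [eeta]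
  rfl

theorem Y8_eq (x : Fin 8 → ℝ) : Y8 x = ![0, - (OM x * x 2), OM x * x 1, CO x * (- x 4),
    CO x * x 3, CO x * (- x 6), CO x * x 5, GG x] := by
  have h1 : Y8 x = cLin.symm (YY (cL x)) := rfl
  have h2 : YY (cL x) = ((0, ((OM x : ℝ) : ℂ) * Complex.I * (cL x).1.2.1,
      ((x 0 / 10) * OM x * ET x) • (((Complex.I : ℂ) : HH) * (cL x).1.2.2)), GG x) := by
    rw [YY, om_cL, gg_cL, eta_cL]
    rfl
  have hw : (cL x).1.2.1 = (⟨x 1, x 2⟩ : ℂ) := rfl
  have hu : (cL x).1.2.2 = (⟨x 3, x 4, x 5, x 6⟩ : HH) := rfl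
  rw [h1, h2]
  funext j
  fin_cases j
  · show 10 * (0 : ℝ) = 0
    simp
  · show (((OM x : ℝ) : ℂ) * Complex.I * (cL x).1.2.1).re = - (OM x * x 2)
    rw [hw]
    simp
  · show (((OM x : ℝ) : ℂ) * Complex.I * (cL x).1.2.1).im = OM x * x 1
    rw [hw]
    simp
  · show (((x 0 / 10) * OM x * ET x) • (((Complex.I : ℂ) : HH) * (cL x).1.2.2)).re
      = CO x * (- x 4)
    rw [hu]
    simp [CO, div_eq_mul_inv]
  · show (((x 0 / 10) * OM x * ET x) • (((Complex.I : ℂ) : HH) * (cL x).1.2.2)).imI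
      = CO x * x 3
    rw [hu]
    simp [CO, div_eq_mul_inv]
  · show (((x 0 / 10) * OM x * ET x) • (((Complex.I : ℂ) : HH) * (cL x).1.2.2)).imJ
      = CO x * (- x 6)
    rw [hu]
    simp [CO, div_eq_mul_inv]
  · show (((x 0 / 10) * OM x * ET x) • (((Complex.I : ℂ) : HH) * (cL x).1.2.2)).imK
      = CO x * x 5
    rw [hu]
    simp [CO, div_eq_mul_inv]
  · rfl

variable (S : OMinimalStructure) (he : {x : Fin 2 → ℝ | x 1 = Real.exp (x 0)} ∈ S.Def 2)
include he

theorem defFun_bmp {n : ℕ} {f : (Fin n → ℝ) → ℝ} (hf : S.DefFun f) :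
    S.DefFun (fun x => bmp (f x)) := by
  have h1 := defFun_glue S he (defFun_sub S (defFun_const S 1) (defFun_mul S hf hf))
  have h2 := defFun_mul S (defFun_const S (n := n) (Real.exp 1)) h1
  have h3 : (fun x => bmp (f x)) = fun x => Real.exp 1 * expNegInvGlue (1 - f x * f x) := by
    funext x
    simp only [bmp, sq]
  rw [h3]
  exact h2

end DefYAux

open DefYAux

theorem Y8_def (S : OMinimalStructure) (he : {x : Fin 2 → ℝ | x 1 = Real.exp (x 0)} ∈ S.Def 2) :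
    S.DefMapOn Set.univ Y8 := by
  have c : ∀ i : Fin 8, S.DefFun (fun x : Fin 8 → ℝ => x i) := fun i => defFun_coord S i
  have k : ∀ r : ℝ, S.DefFun (fun _ : Fin 8 → ℝ => r) := fun r => defFun_const S r
  have hw : S.DefFun (fun x : Fin 8 → ℝ => x 1 * x 1 + x 2 * x 2) :=
    defFun_add S (defFun_mul S (c 1) (c 1)) (defFun_mul S (c 2) (c 2))
  have hu : S.DefFun (fun x : Fin 8 → ℝ => x 3 * x 3 + x 4 * x 4 + x 5 * x 5 + x 6 * x 6) :=
    defFun_add S (defFun_add S (defFun_add S (defFun_mul S (c 3) (c 3)) (defFun_mul S (c 4) (c 4)))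
      (defFun_mul S (c 5) (c 5))) (defFun_mul S (c 6) (c 6))
  have hvv : S.DefFun (fun x : Fin 8 → ℝ => bmp (2 * ((x 1 * x 1 + x 2 * x 2) - 1))) :=
    defFun_bmp S he (defFun_mul S (k 2) (defFun_sub S hw (k 1)))
  have hchi : S.DefFun (fun x : Fin 8 → ℝ => Real.smoothTransition
      ((9 - (x 3 * x 3 + x 4 * x 4 + x 5 * x 5 + x 6 * x 6)) * (5 : ℝ)⁻¹)) :=
    defFun_st S he (defFun_mul S (defFun_sub S (k 9) hu) (k _))
  have hom : S.DefFun OM := defFun_mul S hvv hchi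
  have hhA : S.DefFun (fun x : Fin 8 → ℝ =>
      bmp (x 3 * x 3 + x 4 * x 4 - 1) * bmp (x 5 * x 5 + x 6 * x 6)) :=
    defFun_mul S
      (defFun_bmp S he (defFun_sub S
        (defFun_add S (defFun_mul S (c 3) (c 3)) (defFun_mul S (c 4) (c 4))) (k 1)))
      (defFun_bmp S he (defFun_add S (defFun_mul S (c 5) (c 5)) (defFun_mul S (c 6) (c 6))))
  have hhB : S.DefFun (fun x : Fin 8 → ℝ =>
      bmp ((x 3 - 1) * (x 3 - 1) + x 4 * x 4 + x 5 * x 5 + x 6 * x 6)) :=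
    defFun_bmp S he (defFun_add S (defFun_add S (defFun_add S
      (defFun_mul S (defFun_sub S (c 3) (k 1)) (defFun_sub S (c 3) (k 1)))
      (defFun_mul S (c 4) (c 4))) (defFun_mul S (c 5) (c 5))) (defFun_mul S (c 6) (c 6)))
  have hbB : S.DefFun (fun x : Fin 8 → ℝ => Real.smoothTransition (x 1)) :=
    defFun_st S he (c 1)
  have hgg : S.DefFun GG := defFun_sub S (k 1) (defFun_mul S hvv (defFun_add S
    (defFun_mul S (defFun_sub S (k 1) hbB) hhA) (defFun_mul S hbB hhB)))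
  have heta : S.DefFun ET := defFun_mul S (defFun_mul S (k C0)
      (defFun_st S he (defFun_sub S (defFun_mul S (k 8) hw) (k 1))))
    (defFun_glue S he (defFun_neg S (defFun_mul S (c 1) (defFun_inv S (defFun_sqrt S hw)))))
  have hco : S.DefFun CO :=
    defFun_mul S (defFun_mul S (defFun_mul S (c 0) (k _)) hom) heta
  have hY : Y8 = fun x => ![0, - (OM x * x 2), OM x * x 1, CO x * (- x 4),
    CO x * x 3, CO x * (- x 6), CO x * x 5, GG x] := funext Y8_eq
  rw [hY]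
  apply defMap_of_components
  intro j
  fin_cases j
  · exact k 0
  · exact defFun_neg S (defFun_mul S hom (c 2))
  · exact defFun_mul S hom (c 1)
  · exact defFun_mul S hco (defFun_neg S (c 4))
  · exact defFun_mul S hco (c 3)
  · exact defFun_mul S hco (defFun_neg S (c 6))
  · exact defFun_mul S hco (c 5)
  · exact hgg

end Clock
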