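import Mathlib

/-!
# The clock vector field: definitions

Space `B × ℝ`, `B = ℝ × ℂ × ℍ` (speed `y`, clock `w`, rotor `u`), and the height `z : ℝ`.
-/

open scoped ContDiff
open MeasureTheory

namespace Clock

/-- quaternions -/
abbrev HH : Type := Quaternion ℝ

/-- the base -/
abbrev B : Type := ℝ × ℂ × HH

/-- smooth bijection with smooth inverse -/
def IsDiffeo {X Y : Type} [NormedAddCommGroup X] [NormedSpace ℝ X] [NormedAddCommGroup Y]
    [NormedSpace ℝ Y] (e : X ≃ Y) : Prop := ContDiff ℝ ∞ e ∧ ContDiff ℝ ∞ e.symm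

/-- smooth flow -/
structure IsFlow {X : Type} [NormedAddCommGroup X] [NormedSpace ℝ X] (φ : ℝ → X → X) : Prop where
  smooth : ContDiff ℝ ∞ (fun q : ℝ × X => φ q.1 q.2)
  zero : ∀ x, φ 0 x = x
  add : ∀ s t x, φ (s + t) x = φ s (φ t x)

/-- smooth real cocycle over a flow -/
structure IsCocycle {X : Type} [NormedAddCommGroup X] [NormedSpace ℝ X] (φ : ℝ → X → X)
    (c : ℝ → X → ℝ) : Prop where
  smooth : ContDiff ℝ ∞ (fun q : ℝ × X => c q.1 q.2)
  add : ∀ s t x, c (s + t) x = c s (φ t x) + c t x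

/-- skew product -/
def skew {X : Type} (φ : ℝ → X → X) (c : ℝ → X → ℝ) (t : ℝ) (q : X × ℝ) : X × ℝ :=
  (φ t q.1, q.2 + c t q.1)

/-! ### floor glueing -/

/-- smooth interpolation of a sequence: equal to `a k` for `|y - k| ≤ 2/5` -/
noncomputable def stair (a : ℤ → ℝ) (y : ℝ) : ℝ :=
  a ⌊y⌋ + (a (⌊y⌋ + 1) - a ⌊y⌋) * Real.smoothTransition (5 * (y - ⌊y⌋) - 2)

/-! ### bump functions -/

/-- equal to `1` exactly at `0`, zero for `x ^ 2 ≥ 1` -/
noncomputable def bmp (x : ℝ) : ℝ := Real.exp 1 * expNegInvGlue (1 - x ^ 2)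
/-- bump around the unit circle, supported in `1/2 < |w| ^ 2 < 3/2` -/
noncomputable def vv (w : ℂ) : ℝ := bmp (2 * (Complex.normSq w - 1))
/-- cutoff: `1` for `|u| ≤ 2`, `0` for `|u| ≥ 3` -/
noncomputable def chi (u : HH) : ℝ := Real.smoothTransition ((9 - Quaternion.normSq u) / 5)
/-- equal to `1` exactly if `u` is a complex number of modulus one -/
noncomputable def hA (u : HH) : ℝ := bmp (u.re ^ 2 + u.imI ^ 2 - 1) * bmp (u.imJ ^ 2 + u.imK ^ 2)
/-- equal to `1` exactly if `u = 1` -/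
noncomputable def hB (u : HH) : ℝ := bmp (Quaternion.normSq (u - 1))
/-- cutoff: positive exactly if `re w > 0`, equal to `1` at `w = 1` -/
noncomputable def bB (w : ℂ) : ℝ := Real.smoothTransition w.re
/-- the defect -/
noncomputable def kap (w : ℂ) (u : HH) : ℝ := vv w * ((1 - bB w) * hA u + bB w * hB u)
/-- vertical speed -/
noncomputable def gg (b : B) : ℝ := 1 - kap b.2.1 b.2.2
/-- clock speed -/
noncomputable def om (b : B) : ℝ := vv b.2.1 * chi b.2.2
/-- normalising constant -/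
noncomputable def C0 : ℝ :=
  2 * Real.pi / ∫ θ in (0 : ℝ)..(2 * Real.pi), expNegInvGlue (- Real.cos θ)
/-- rotor density on the clock plane, zero for `re w ≥ 0` -/
noncomputable def eta (w : ℂ) : ℝ :=
  C0 * Real.smoothTransition (8 * Complex.normSq w - 1) *
    expNegInvGlue (- (w.re / Real.sqrt (Complex.normSq w)))

/-! ### flows -/

/-- total angle of the rotor (before multiplication by the speed `y`) -/
noncomputable def sig (t : ℝ) (b : B) : ℝ :=
  ∫ s in (0 : ℝ)..t, om b * eta (b.2.1 * Complex.exp (((om b * s : ℝ) : ℂ) * Complex.I))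
/-- base flow -/
noncomputable def bflow (t : ℝ) (b : B) : B :=
  (b.1, b.2.1 * Complex.exp (((om b * t : ℝ) : ℂ) * Complex.I),
    ((Complex.exp (((b.1 * sig t b : ℝ) : ℂ) * Complex.I) : ℂ) : HH) * b.2.2)
/-- height cocycle -/
noncomputable def cY (t : ℝ) (b : B) : ℝ := ∫ s in (0 : ℝ)..t, gg (bflow s b)
/-- the flow of the clock field -/
noncomputable def flowY (t : ℝ) (q : B × ℝ) : B × ℝ := skew bflow cY t q
/-- the clock field -/
noncomputable def YY (q : B × ℝ) : B × ℝ :=
  ((0, ((om q.1 : ℝ) : ℂ) * Complex.I * q.1.2.1,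
    (q.1.1 * om q.1 * eta q.1.2.1) • (((Complex.I : ℂ) : HH) * q.1.2.2)), gg q.1)

/-! ### hidden symmetry -/

/-- lift of the degree one map -/
noncomputable def SS (θ : ℝ) : ℝ := ∫ t in (0 : ℝ)..θ, C0 * expNegInvGlue (- Real.cos t)
/-- degree one map, equal to `1` for `re w > 0` -/
noncomputable def zeta (w : ℂ) : ℂ := Complex.exp ((SS (Complex.arg w) : ℝ) * Complex.I)
/-- the quaternion `j` -/
noncomputable def Jq : HH := ⟨0, 0, 1, 0⟩
/-- angle: `π/2` near `0`, zero for `|w| ^ 2 ≥ 1/4` -/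
noncomputable def ang (w : ℂ) : ℝ :=
  Real.pi / 2 * (1 - Real.smoothTransition (8 * Complex.normSq w - 1))
/-- unit quaternion, equal to `zeta w` for `|w| ^ 2 ≥ 1/4`, to `j` near `0` -/
noncomputable def RR (w : ℂ) : HH :=
  (Real.cos (ang w)) • ((zeta w : ℂ) : HH) + (Real.sin (ang w)) • Jq
/-- the hidden symmetry -/
noncomputable def Tmap (b : B) : B := (b.1 + 1, b.2.1, RR b.2.1 * b.2.2)

/-! ### straightened flows -/

/-- `0` near the integers, `1` for `|y - k| ≥ 1/4` for all integers `k` -/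
noncomputable def lam (y : ℝ) : ℝ := Real.smoothTransition (4 * Real.sin (Real.pi * y) ^ 2 - 1)
/-- positive near the integers, `1` at integers, `mu * lam = 0` -/
noncomputable def mu (y : ℝ) : ℝ := Real.smoothTransition (1 - 4 * Real.sin (Real.pi * y) ^ 2)
/-- base flow slowed down by the factor `1 - s y` -/
noncomputable def bflowS (s : ℝ → ℝ) (t : ℝ) (b : B) : B := bflow ((1 - s b.1) * t) b
/-- corresponding height cocycle -/
noncomputable def cS (s : ℝ → ℝ) (t : ℝ) (b : B) : ℝ := cY ((1 - s b.1) * t) b + s b.1 * t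
/-- the field straightened away from integral speeds -/
noncomputable def flowL (t : ℝ) (q : B × ℝ) : B × ℝ := skew (bflowS lam) (cS lam) t q
/-- shift of the speed -/
def sh (k : ℤ) (q : B × ℝ) : B × ℝ := ((q.1.1 + k, q.1.2), q.2)
/-- periodic version of `flowL` -/
noncomputable def flow1 (t : ℝ) (q : B × ℝ) : B × ℝ :=
  sh (round q.1.1) (flowL t (sh (- round q.1.1) q))

/-! ### coordinates -/

/-- linear coordinates `ℝ^8 ≃ B × ℝ`, speed `y = x 0 / 10` -/
noncomputable def cLin : (Fin 8 → ℝ) ≃ₗ[ℝ] B × ℝ where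
  toFun x := ((x 0 / 10, ⟨x 1, x 2⟩, ⟨x 3, x 4, x 5, x 6⟩), x 7)
  invFun q := ![10 * q.1.1, q.1.2.1.re, q.1.2.1.im, q.1.2.2.re, q.1.2.2.imI, q.1.2.2.imJ,
    q.1.2.2.imK, q.2]
  map_add' x y := by
    refine Prod.ext (Prod.ext ?_ (Prod.ext ?_ ?_)) ?_
    · simp [add_div]
    · apply Complex.ext <;> simp
    · exact Quaternion.ext _ _ rfl rfl rfl rfl
    · simp
  map_smul' c x := by
    refine Prod.ext (Prod.ext ?_ (Prod.ext ?_ ?_)) ?_
    · simp [mul_div_assoc]
    · apply Complex.ext <;> simp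
    · exact Quaternion.ext _ _ rfl rfl rfl rfl
    · simp
  left_inv x := by
    ext i
    fin_cases i <;> simp
    ring
  right_inv q := by
    refine Prod.ext (Prod.ext ?_ (Prod.ext ?_ ?_)) ?_
    · simp
    · apply Complex.ext <;> simp
    · ext <;> simp
    · simp

/-- the same as a continuous linear equivalence -/
noncomputable def cL : (Fin 8 → ℝ) ≃L[ℝ] B × ℝ := cLin.toContinuousLinearEquiv

/-- the clock field in the coordinates of `ℝ^8` -/
noncomputable def Y8 (x : Fin 8 → ℝ) : Fin 8 → ℝ := cL.symm (YY (cL x))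

end Clock
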