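import Pool.Agent.Clock.Struct
import Pool.Agent.OMin.CcKit
import Pool.Agent.OMin.ComplStep
import Pool.Agent.OMin.UF

/-! # The o-minimal structure of the sets in the class `OMin.Cc` -/

namespace Clock

theorem exists_expStructure : ∃ S : OMinimalStructure,
    (∀ (n : ℕ) (A : Set (Fin n → ℝ)), A ∈ S.Def n ↔ OMin.Cc (Fin n) A) ∧
      {x : Fin 2 → ℝ | x 1 = Real.exp (x 0)} ∈ S.Def 2 := by
  have hco : ∀ {n : ℕ} (i : Fin n), (fun x : Fin n → ℝ => x i) ∈ OMin.E (Fin n) :=
    fun i => OMin.EJ_coord i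
  have hcst : ∀ {n : ℕ} (c : ℝ), (fun _ : Fin n → ℝ => c) ∈ OMin.E (Fin n) :=
    fun c => OMin.EJ_const c
  refine ⟨{ Def := fun n => {A | OMin.Cc (Fin n) A}
            union_mem := fun hA hB => OMin.Cc_union hA hB
            compl_mem := fun {n A} hA => OMin.complAll n A hA
            pull_mem := fun σ A hA => OMin.Cc_pull σ hA
            proj_mem := ?_
            point_mem := fun r => OMin.Cc_eq (hco 0) (hcst r)
            lt_mem := OMin.Cc_lt (hco 0) (hco 1)
            add_mem := OMin.Cc_eq (OMin.EJ_add (hco 0) (hco 1)) (hco 2)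
            mul_mem := OMin.Cc_eq (OMin.EJ_mul (hco 0) (hco 1)) (hco 2)
            ominimal := ?_ }, fun n A => Iff.rfl, ?_⟩
  · intro n A hA
    have h1 : OMin.Cc (Option (Fin n)) {x : Option (Fin n) → ℝ |
        (fun i : Fin (n + 1) => x ((Fin.cases none some i : Option (Fin n)))) ∈ A} :=
      OMin.Cc_pull (fun i : Fin (n + 1) => (Fin.cases none some i : Option (Fin n))) hA
    have h2 := OMin.Cc_exists h1
    have h3 : {x : Fin n → ℝ | ∃ s : ℝ, (Fin.cons s x : Fin (n + 1) → ℝ) ∈ A} =
        {x : Fin n → ℝ | ∃ s : ℝ, (fun o : Option (Fin n) => o.elim s x) ∈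
          {x : Option (Fin n) → ℝ |
        (fun i : Fin (n + 1) => x ((Fin.cases none some i : Option (Fin n)))) ∈ A}} := by
      ext x
      have : ∀ s : ℝ, (Fin.cons s x : Fin (n + 1) → ℝ) =
          fun i : Fin (n + 1) => ((Fin.cases none some i : Option (Fin n))).elim s x := by
        intro s
        ext i
        refine Fin.cases ?_ (fun j => ?_) i <;> simp
      simp only [Set.mem_ofPred_eq, this]
    show OMin.Cc (Fin n) _
    rw [h3]
    exact h2
  · intro A hA
    obtain ⟨N, hN⟩ := OMin.UF_fiber (n := 0) hA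
    obtain ⟨C, hC, hCA⟩ := hN (fun i => i.elim0)
    refine ⟨N, C, hC, ?_⟩
    rw [← hCA]
    ext s
    have : (fun _ : Fin 1 => s) = (Fin.cons s (fun i : Fin 0 => i.elim0) : Fin (0 + 1) → ℝ) := by
      ext i
      have : i = 0 := Subsingleton.elim _ _
      subst this
      rfl
    simp only [Set.mem_ofPred_eq, this]
  · exact OMin.Cc_eq (hco 1) (OMin.EJ_exp (Set.mem_univ (0 : Fin 2)))

end Clock
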