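import Pool.Agent.Clock.Defs

/-! # Diffeomorphisms: calculus, bijective local diffeomorphisms, fibred diffeomorphisms -/

namespace Clock
open Set Filter Topology
open scoped ContDiff

section FI
variable {X Y Z : Type} [NormedAddCommGroup X] [NormedSpace ℝ X] [NormedAddCommGroup Y]
  [NormedSpace ℝ Y] [NormedAddCommGroup Z] [NormedSpace ℝ Z]

theorem IsDiffeo.symm {e : X ≃ Y} (h : IsDiffeo e) : IsDiffeo e.symm := ⟨h.2, h.1⟩

theorem IsDiffeo.trans {e : X ≃ Y} {f : Y ≃ Z} (h : IsDiffeo e) (h' : IsDiffeo f) :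
    IsDiffeo (e.trans f) := ⟨h'.1.comp h.1, h.2.comp h'.2⟩

theorem isDiffeo_clm (e : X ≃L[ℝ] Y) : IsDiffeo e.toEquiv := ⟨e.contDiff, e.symm.contDiff⟩

theorem IsDiffeo.prod {X' Y' : Type} [NormedAddCommGroup X'] [NormedSpace ℝ X']
    [NormedAddCommGroup Y'] [NormedSpace ℝ Y'] {e : X ≃ Y} {f : X' ≃ Y'} (h : IsDiffeo e)
    (h' : IsDiffeo f) : IsDiffeo (Equiv.prodCongr e f) :=
  ⟨h.1.prodMap h'.1, h.2.prodMap h'.2⟩

theorem diffeo_of_bijective [CompleteSpace X] (e : X ≃ Y) (he : ContDiff ℝ ∞ e)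
    (h : ∀ x, ∃ L : X ≃L[ℝ] Y, (L : X →L[ℝ] Y) = fderiv ℝ e x) : IsDiffeo e := by
  refine ⟨he, contDiff_iff_contDiffAt.mpr fun y => ?_⟩
  obtain ⟨L, hL⟩ := h (e.symm y)
  have hd : HasFDerivAt e (L : X →L[ℝ] Y) (e.symm y) := by
    rw [hL]
    exact (he.differentiable (by simp)).differentiableAt.hasFDerivAt
  have hc : ContDiffAt ℝ ∞ e (e.symm y) := he.contDiffAt
  have h1 := hc.to_localInverse hd (by simp)
  rw [e.apply_symm_apply] at h1
  refine h1.congr_of_eventuallyEq ?_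
  have h2 : HasStrictFDerivAt e (L : X →L[ℝ] Y) (e.symm y) := hc.hasStrictFDerivAt' hd (by simp)
  have h3 := h2.eventually_right_inverse
  rw [e.apply_symm_apply] at h3
  filter_upwards [h3] with z hz
  have hz : e (hc.localInverse hd (by simp) z) = z := hz
  rw [e.symm_apply_eq]
  exact hz.symm

theorem fiber_diffeo [CompleteSpace X] (F : X × ℝ → ℝ) (hF : ContDiff ℝ ∞ F)
    (hpos : ∀ x t, 0 < deriv (fun s => F (x, s)) t)
    (hsurj : ∀ x, Function.Surjective (fun t => F (x, t))) :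
    ∃ e : (X × ℝ) ≃ (X × ℝ), IsDiffeo e ∧ ∀ x t, e (x, t) = (x, F (x, t)) := by
  have hbij : Function.Bijective (fun q : X × ℝ => (q.1, F q)) := by
    constructor
    · rintro ⟨x, t⟩ ⟨x', t'⟩ h
      simp only [Prod.mk.injEq] at h
      obtain ⟨h1, h2⟩ := h
      subst h1
      have := (strictMono_of_deriv_pos (hpos x)).injective h2
      rw [this]
    · rintro ⟨x, s⟩
      obtain ⟨t, ht⟩ := hsurj x s
      exact ⟨(x, t), by simpa using ht⟩
  refine ⟨Equiv.ofBijective _ hbij, diffeo_of_bijective _ ?_ ?_, fun x t => rfl⟩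
  · exact contDiff_fst.prodMk hF
  · rintro ⟨x, t⟩
    have hd : DifferentiableAt ℝ F (x, t) := (hF.differentiable (by simp)).differentiableAt
    have hc : fderiv ℝ F (x, t) (0, 1) = deriv (fun s => F (x, s)) t := by
      have h1 : HasDerivAt (fun s : ℝ => (x, s)) ((0 : X), (1 : ℝ)) t :=
        (hasDerivAt_const t x).prodMk (hasDerivAt_id t)
      have h2 := hd.hasFDerivAt.comp_hasDerivAt t h1
      exact h2.deriv.symm
    have hc0 : fderiv ℝ F (x, t) (0, 1) ≠ 0 := by rw [hc]; exact (hpos x t).ne'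
    set c := fderiv ℝ F (x, t) (0, 1) with hcdef
    have hsplit : ∀ (ξ : X) (s : ℝ), fderiv ℝ F (x, t) (ξ, s) =
        fderiv ℝ F (x, t) (ξ, 0) + s * c := by
      intro ξ s
      have : ((ξ, s) : X × ℝ) = (ξ, 0) + s • ((0 : X), (1 : ℝ)) := by simp
      rw [this, map_add, map_smul, smul_eq_mul]
    let f1 : X × ℝ →L[ℝ] X × ℝ := (ContinuousLinearMap.fst ℝ X ℝ).prod (fderiv ℝ F (x, t))
    let f2 : X × ℝ →L[ℝ] X × ℝ := (ContinuousLinearMap.fst ℝ X ℝ).prod
      (c⁻¹ • (ContinuousLinearMap.snd ℝ X ℝ - (fderiv ℝ F (x, t)).comp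
        ((ContinuousLinearMap.fst ℝ X ℝ).prod 0)))
    refine ⟨ContinuousLinearEquiv.equivOfInverse f1 f2 ?_ ?_, ?_⟩
    · rintro ⟨ξ, s⟩
      simp only [f1, f2, ContinuousLinearMap.prod_apply, ContinuousLinearMap.coe_fst',
        _root_.smul_apply, _root_.sub_apply,
        ContinuousLinearMap.coe_snd', ContinuousLinearMap.comp_apply,
        _root_.zero_apply, smul_eq_mul]
      rw [hsplit ξ s]
      congr 1
      rw [add_sub_cancel_left]
      field_simp
    · rintro ⟨ξ, s⟩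
      simp only [f1, f2, ContinuousLinearMap.prod_apply, ContinuousLinearMap.coe_fst',
        _root_.smul_apply, _root_.sub_apply,
        ContinuousLinearMap.coe_snd', ContinuousLinearMap.comp_apply,
        _root_.zero_apply, smul_eq_mul]
      rw [hsplit]
      congr 1
      rw [mul_comm c⁻¹, mul_assoc, inv_mul_cancel₀ hc0, mul_one]
      ring
    · have h2 : HasFDerivAt (fun q : X × ℝ => (q.1, F q)) f1 (x, t) :=
        hasFDerivAt_fst.prodMk hd.hasFDerivAt
      exact h2.fderiv.symm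
end FI

end Clock
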