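import Pool.Agent.Clock.Assemble
import Pool.Agent.Clock.BaseFlow
import Pool.Agent.Clock.Bumps

/-! # The periodic vector field conjugate to the clock field -/

open scoped ContDiff Topology
open MeasureTheory

namespace Clock

namespace FieldAux

theorem deriv_zero {ψ : ℝ → (Fin 8 → ℝ) → (Fin 8 → ℝ)} (hψ : IsFlow ψ) (x : Fin 8 → ℝ) :
    HasDerivAt (fun s => ψ s x)
      (fderiv ℝ (fun q : ℝ × (Fin 8 → ℝ) => ψ q.1 q.2) (0, x) (1, 0)) 0 := by
  have h1 : HasFDerivAt (fun q : ℝ × (Fin 8 → ℝ) => ψ q.1 q.2)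
      (fderiv ℝ (fun q : ℝ × (Fin 8 → ℝ) => ψ q.1 q.2) ((0 : ℝ), x)) ((0 : ℝ), x) :=
    (hψ.smooth.differentiable (by simp)).differentiableAt.hasFDerivAt
  have h2 : HasDerivAt (fun s : ℝ => (s, x)) ((1 : ℝ), (0 : Fin 8 → ℝ)) 0 :=
    (hasDerivAt_id _).prodMk (hasDerivAt_const _ _)
  exact HasFDerivAt.comp_hasDerivAt (0 : ℝ) (f := fun s : ℝ => (s, x))
    (l := fun q : ℝ × (Fin 8 → ℝ) => ψ q.1 q.2) h1 h2

end FieldAux

open FieldAux in
theorem exists_field : ∃ (Φ : (Fin 8 → ℝ) ≃ (Fin 8 → ℝ)) (ψ : ℝ → (Fin 8 → ℝ) → (Fin 8 → ℝ))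
    (X : (Fin 8 → ℝ) → (Fin 8 → ℝ)), IsDiffeo Φ ∧ IsFlow ψ ∧ ContDiff ℝ ∞ X ∧
    (∀ t x, HasDerivAt (fun s => ψ s x) (X (ψ t x)) t) ∧
    (∀ (n : Fin 8 → ℤ) (x : Fin 8 → ℝ), X (fun i => x i + 10 * n i) = X x) ∧
    (∀ x, fderiv ℝ Φ x (X x) = Y8 (Φ x)) ∧
    ∃ (p q : Fin 8 → ℝ) (T : ℝ), ψ T p = p ∧ ψ T q ≠ q := by
  obtain ⟨Φ, ψ, hΦ, hψ, hconj, hper⟩ := exists_flowX
  set X : (Fin 8 → ℝ) → (Fin 8 → ℝ) :=
    fun x => fderiv ℝ (fun q : ℝ × (Fin 8 → ℝ) => ψ q.1 q.2) (0, x) (1, 0) with hXdef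
  have hX0 : ∀ x, HasDerivAt (fun s => ψ s x) (X x) 0 := fun x => deriv_zero hψ x
  have hXs : ContDiff ℝ ∞ X := by
    have h1 : ContDiff ℝ ∞ (fderiv ℝ (fun q : ℝ × (Fin 8 → ℝ) => ψ q.1 q.2)) :=
      hψ.smooth.fderiv_right (by simp)
    have h2 : ContDiff ℝ ∞ (fun x : Fin 8 → ℝ => ((0 : ℝ), x)) :=
      contDiff_const.prodMk contDiff_id
    exact (h1.comp h2).clm_apply contDiff_const
  have hXt : ∀ t x, HasDerivAt (fun s => ψ s x) (X (ψ t x)) t := by
    intro t x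
    have h1 : HasDerivAt (fun s => ψ s (ψ t x)) (X (ψ t x)) (t - t) := by
      rw [sub_self]; exact hX0 _
    have h2 : HasDerivAt (fun s : ℝ => s - t) 1 t := (hasDerivAt_id t).sub_const t
    have h3 : HasDerivAt ((fun s => ψ s (ψ t x)) ∘ fun s : ℝ => s - t) ((1 : ℝ) • X (ψ t x)) t :=
      HasDerivAt.scomp t h1 h2
    rw [one_smul] at h3
    refine h3.congr_of_eventuallyEq (Filter.Eventually.of_forall fun s => ?_)
    show ψ s x = ψ (s - t) (ψ t x)
    rw [← hψ.add, sub_add_cancel]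
  refine ⟨Φ, ψ, X, hΦ, hψ, hXs, hXt, ?_, ?_, ?_⟩
  · intro n x
    have h1 := hX0 (fun i => x i + 10 * n i)
    have h2 : HasDerivAt (fun s => ψ s (fun i => x i + 10 * n i)) (X x) 0 := by
      have h3 := (hX0 x).add_const (c := fun i => (10 : ℝ) * (n i : ℝ))
      refine h3.congr_of_eventuallyEq (Filter.Eventually.of_forall fun s => ?_)
      show ψ s (fun i => x i + 10 * n i) = _
      rw [hper n s x]
      rfl
    exact h1.unique h2
  · intro x
    have h1 : HasDerivAt (fun s => Φ (ψ s x)) (fderiv ℝ Φ x (X x)) 0 := by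
      have h2 : HasFDerivAt Φ (fderiv ℝ Φ (ψ 0 x)) (ψ 0 x) :=
        (hΦ.1.differentiable (by simp)).differentiableAt.hasFDerivAt
      have h3 := HasFDerivAt.comp_hasDerivAt (0 : ℝ) (f := fun s : ℝ => ψ s x) (l := Φ) h2 (hX0 x)
      rw [hψ.zero] at h3
      exact h3
    have h4 : HasDerivAt (fun s => Φ (ψ s x)) (Y8 (Φ x)) 0 := by
      have h5 := hasDerivAt_flowY (cL (Φ x))
      have h6 : HasFDerivAt (cL.symm : B × ℝ → Fin 8 → ℝ) (cL.symm : B × ℝ →L[ℝ] (Fin 8 → ℝ))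
          (flowY 0 (cL (Φ x))) := cL.symm.hasFDerivAt
      have h7 := HasFDerivAt.comp_hasDerivAt (0 : ℝ) (f := fun s : ℝ => flowY s (cL (Φ x)))
        (l := (cL.symm : B × ℝ → Fin 8 → ℝ)) h6 h5
      refine h7.congr_of_eventuallyEq (Filter.Eventually.of_forall fun s => ?_)
      show Φ (ψ s x) = cL.symm (flowY s (cL (Φ x)))
      rw [← hconj, ContinuousLinearEquiv.symm_apply_apply]
    exact h1.unique h4
  · have hinj : ∀ a b : Fin 8 → ℝ, cL (Φ a) = cL (Φ b) → a = b := fun a b h =>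
      Φ.injective (cL.injective h)
    refine ⟨Φ.symm (cL.symm ((0, 1, 1), 0)), Φ.symm (cL.symm 0), 2 * Real.pi, ?_, ?_⟩
    · apply hinj
      rw [hconj, Equiv.apply_symm_apply, ContinuousLinearEquiv.apply_symm_apply]
      have hom : om ((0, 1, 1) : B) = 1 := by
        have h1 : vv (1 : ℂ) = 1 := vv_eq_one_iff.2 (by simp)
        have h2 : chi (1 : HH) = 1 := chi_eq_one (by simp)
        show vv (1 : ℂ) * chi (1 : HH) = 1
        rw [h1, h2, one_mul]
      have hb : ∀ s : ℝ, bflow s ((0, 1, 1) : B) =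
          (0, Complex.exp (((s : ℝ) : ℂ) * Complex.I), 1) := by
        intro s
        unfold bflow
        rw [hom]
        refine Prod.ext rfl (Prod.ext ?_ ?_)
        · simp
        · simp
      have hc : cY (2 * Real.pi) ((0, 1, 1) : B) = 0 := by
        unfold cY
        have : ∀ s : ℝ, gg (bflow s ((0, 1, 1) : B)) = 0 := by
          intro s
          rw [hb]
          show 1 - kap (Complex.exp (((s : ℝ) : ℂ) * Complex.I)) 1 = 0
          rw [kap_circle, sub_self]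
          rw [Complex.normSq_eq_norm_sq, Complex.norm_exp_ofReal_mul_I]
          norm_num
        simp [this]
      show (bflow (2 * Real.pi) ((0, 1, 1) : B), (0 : ℝ) + cY (2 * Real.pi) ((0, 1, 1) : B)) = _
      rw [hc, hb]
      refine Prod.ext (Prod.ext rfl (Prod.ext ?_ rfl)) (by simp)
      show Complex.exp (((2 * Real.pi : ℝ) : ℂ) * Complex.I) = 1
      rw [Complex.exp_eq_one_iff]
      exact ⟨1, by push_cast; ring⟩
    · intro h
      have h1 : cL (Φ (ψ (2 * Real.pi) (Φ.symm (cL.symm 0)))) = cL (Φ (Φ.symm (cL.symm 0))) := by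
        rw [h]
      rw [hconj, Equiv.apply_symm_apply, ContinuousLinearEquiv.apply_symm_apply] at h1
      have hv : vv ((0 : B).2.1) = 0 := by
        by_contra hne
        have := (vv_ne_zero hne).1
        simp at this
        norm_num at this
      have hom : om (0 : B) = 0 := by
        unfold om
        rw [hv, zero_mul]
      have hk : kap (0 : B).2.1 (0 : B).2.2 = 0 := by
        by_contra hne
        exact (kap_ne_zero hne).1 hv
      have h2 := flow_trivial hom hk (2 * Real.pi)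
      have h3 : (flowY (2 * Real.pi) (0 : B × ℝ)).2 = 2 * Real.pi := by
        show (0 : ℝ) + cY (2 * Real.pi) (0 : B) = _
        rw [h2.2, zero_add]
      rw [h1] at h3
      have := Real.pi_pos
      simp at h3

end Clock
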