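import Pool.Agent.Clock.Defs

/-!
# Module GL: glueing along the integer part
-/

open scoped ContDiff Topology
open Filter

namespace Clock

theorem glue_smooth {X Y : Type} [NormedAddCommGroup X] [NormedSpace ℝ X] [NormedAddCommGroup Y]
    [NormedSpace ℝ Y] (f : ℤ → ℝ → X → Y)
    (hf : ∀ k, ContDiff ℝ ∞ (fun q : ℝ × X => f k q.1 q.2)) {ε : ℝ} (hε : 0 < ε)
    (h : ∀ (k : ℤ) (y : ℝ) (x : X), |y - (k + 1)| < ε → f k y x = f (k + 1) y x) :
    ContDiff ℝ ∞ (fun q : ℝ × X => f ⌊q.1⌋ q.1 q.2) := by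
  rw [contDiff_iff_contDiffAt]
  rintro ⟨y₀, x₀⟩
  set k := ⌊y₀⌋ with hk
  refine ((hf k).contDiffAt (x := (y₀, x₀))).congr_of_eventuallyEq ?_
  have h1 : ∀ᶠ q : ℝ × X in 𝓝 (y₀, x₀), q.1 < k + 1 :=
    continuous_fst.continuousAt.eventually_lt_const (Int.lt_floor_add_one y₀)
  rcases eq_or_lt_of_le (Int.floor_le y₀) with h2 | h2
  · have hδ : 0 < min ε 1 := lt_min hε one_pos
    have h3 : ∀ᶠ q : ℝ × X in 𝓝 (y₀, x₀), y₀ - min ε 1 < q.1 :=
      continuous_fst.continuousAt.eventually_const_lt (by linarith)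
    filter_upwards [h1, h3] with q hq1 hq2
    have hy0 : y₀ = k := h2.symm
    rcases lt_or_ge q.1 k with h4 | h4
    · have h5 : ⌊q.1⌋ = k - 1 := by
        rw [Int.floor_eq_iff]
        push_cast
        constructor
        · have := min_le_right ε 1
          linarith
        · linarith
      rw [h5]
      have h6 := h (k - 1) q.1 q.2 (by
        push_cast
        rw [abs_lt]
        have := min_le_left ε 1
        constructor <;> linarith)
      rw [h6, sub_add_cancel]
    · have h5 : ⌊q.1⌋ = k := by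
        rw [Int.floor_eq_iff]
        exact ⟨h4, hq1⟩
      rw [h5]
  · have h3 : ∀ᶠ q : ℝ × X in 𝓝 (y₀, x₀), (k : ℝ) < q.1 :=
      continuous_fst.continuousAt.eventually_const_lt h2
    filter_upwards [h1, h3] with q hq1 hq2
    have h5 : ⌊q.1⌋ = k := by
      rw [Int.floor_eq_iff]
      exact ⟨hq2.le, hq1⟩
    rw [h5]

theorem stair_contDiff (a : ℤ → ℝ) : ContDiff ℝ ∞ (stair a) := by
  have h := glue_smooth (X := ℝ) (Y := ℝ)
    (fun k y _ => a k + (a (k + 1) - a k) * Real.smoothTransition (5 * (y - k) - 2))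
    (fun k => by
      refine contDiff_const.add (contDiff_const.mul (Real.smoothTransition.contDiff.comp ?_))
      exact ((contDiff_const.mul (contDiff_fst.sub contDiff_const)).sub contDiff_const))
    (ε := 1 / 5) (by norm_num)
    (fun k y _ hy => by
      rw [abs_lt] at hy
      have h1 : Real.smoothTransition (5 * (y - k) - 2) = 1 :=
        Real.smoothTransition.one_of_one_le (by linarith)
      have h2 : Real.smoothTransition (5 * (y - ((k + 1 : ℤ) : ℝ)) - 2) = 0 :=
        Real.smoothTransition.zero_of_nonpos (by push_cast; linarith)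
      rw [h1, h2]
      ring)
  have h2 : ContDiff ℝ ∞ (fun y : ℝ => (y, (0 : ℝ))) := contDiff_id.prodMk contDiff_const
  exact h.comp h2

theorem stair_eq (a : ℤ → ℝ) (k : ℤ) {y : ℝ} (h : |y - k| ≤ 2 / 5) : stair a y = a k := by
  rw [abs_le] at h
  unfold stair
  rcases lt_or_ge y k with h1 | h1
  · have h2 : ⌊y⌋ = k - 1 := by
      rw [Int.floor_eq_iff]
      push_cast
      constructor <;> linarith
    rw [h2]
    have h3 : Real.smoothTransition (5 * (y - ((k - 1 : ℤ) : ℝ)) - 2) = 1 :=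
      Real.smoothTransition.one_of_one_le (by push_cast; linarith)
    rw [h3, sub_add_cancel]
    ring
  · have h2 : ⌊y⌋ = k := by
      rw [Int.floor_eq_iff]
      constructor <;> linarith
    rw [h2]
    have h3 : Real.smoothTransition (5 * (y - (k : ℝ)) - 2) = 0 :=
      Real.smoothTransition.zero_of_nonpos (by linarith)
    rw [h3]
    ring

theorem stair_nonneg {a : ℤ → ℝ} (h : ∀ k, 0 ≤ a k) (y : ℝ) : 0 ≤ stair a y := by
  unfold stair
  set s := Real.smoothTransition (5 * (y - ⌊y⌋) - 2)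
  have h1 : 0 ≤ s := Real.smoothTransition.nonneg _
  have h2 : s ≤ 1 := Real.smoothTransition.le_one _
  have h3 := mul_nonneg (h ⌊y⌋) (sub_nonneg.2 h2)
  have h4 := mul_nonneg (h (⌊y⌋ + 1)) h1
  linarith

private theorem stair_bounds {a : ℤ → ℝ} (h : Monotone a) (y : ℝ) :
    a ⌊y⌋ ≤ stair a y ∧ stair a y ≤ a (⌊y⌋ + 1) := by
  unfold stair
  set s := Real.smoothTransition (5 * (y - ⌊y⌋) - 2)
  have h1 : 0 ≤ s := Real.smoothTransition.nonneg _
  have h2 : s ≤ 1 := Real.smoothTransition.le_one _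
  have h3 : 0 ≤ a (⌊y⌋ + 1) - a ⌊y⌋ := sub_nonneg.2 (h (by omega))
  constructor
  · have := mul_nonneg h3 h1
    linarith
  · have := mul_nonneg h3 (sub_nonneg.2 h2)
    linarith

theorem stair_monotone {a : ℤ → ℝ} (h : Monotone a) : Monotone (stair a) := by
  intro y y' hy
  rcases eq_or_lt_of_le (Int.floor_le_floor hy) with h1 | h1
  · unfold stair
    rw [← h1]
    have h3 : 0 ≤ a (⌊y⌋ + 1) - a ⌊y⌋ := sub_nonneg.2 (h (by omega))
    have h4 : Real.smoothTransition (5 * (y - ⌊y⌋) - 2) ≤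
        Real.smoothTransition (5 * (y' - ⌊y⌋) - 2) :=
      Real.smoothTransition.monotone (by linarith)
    have := mul_le_mul_of_nonneg_left h4 h3
    linarith
  · calc stair a y ≤ a (⌊y⌋ + 1) := (stair_bounds h y).2
      _ ≤ a ⌊y'⌋ := h (by omega)
      _ ≤ stair a y' := (stair_bounds h y').1

end Clock
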