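import Mathlib

/-!
# O-minimal structures, definable manifold structures, definable vector fields

These are the notions used in the statement of the problem.
-/

open scoped Manifold ContDiff

namespace Clock

/-- An o-minimal expansion of the ordered real field, given by its definable sets (definable with
parameters): Boolean algebras of subsets of `ℝ^n`, closed under preimages by coordinate maps (in
particular cylinders, permutations and diagonals) and under projections, containing the points,
the order and the graphs of addition and multiplication; and every definable subset of `ℝ` is a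
finite union of intervals (an order connected subset of `ℝ` is an interval, a point or empty). -/
structure OMinimalStructure where
  Def : ∀ n : ℕ, Set (Set (Fin n → ℝ))
  union_mem : ∀ {n : ℕ} {A A' : Set (Fin n → ℝ)}, A ∈ Def n → A' ∈ Def n → A ∪ A' ∈ Def n
  compl_mem : ∀ {n : ℕ} {A : Set (Fin n → ℝ)}, A ∈ Def n → Aᶜ ∈ Def n
  pull_mem : ∀ {m n : ℕ} (σ : Fin m → Fin n) {A : Set (Fin m → ℝ)}, A ∈ Def m →
    {x : Fin n → ℝ | (fun i => x (σ i)) ∈ A} ∈ Def n
  proj_mem : ∀ {n : ℕ} {A : Set (Fin (n + 1) → ℝ)}, A ∈ Def (n + 1) →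
    {x : Fin n → ℝ | ∃ s : ℝ, (Fin.cons s x : Fin (n + 1) → ℝ) ∈ A} ∈ Def n
  point_mem : ∀ r : ℝ, {x : Fin 1 → ℝ | x 0 = r} ∈ Def 1
  lt_mem : {x : Fin 2 → ℝ | x 0 < x 1} ∈ Def 2
  add_mem : {x : Fin 3 → ℝ | x 0 + x 1 = x 2} ∈ Def 3
  mul_mem : {x : Fin 3 → ℝ | x 0 * x 1 = x 2} ∈ Def 3
  ominimal : ∀ A ∈ Def 1, ∃ (k : ℕ) (C : Fin k → Set ℝ), (∀ i, (C i).OrdConnected) ∧
    {s : ℝ | (fun _ : Fin 1 => s) ∈ A} = ⋃ i, C i

/-- the map `f`, restricted to `A`, is definable (its graph is a definable set) -/
def OMinimalStructure.DefMapOn (S : OMinimalStructure) {n m : ℕ} (A : Set (Fin n → ℝ))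
    (f : (Fin n → ℝ) → (Fin m → ℝ)) : Prop :=
  {z : Fin (n + m) → ℝ | (fun i => z (Fin.castAdd m i)) ∈ A ∧
    f (fun i => z (Fin.castAdd m i)) = fun j => z (Fin.natAdd n j)} ∈ S.Def (n + m)

/-- definable real function on `ℝ^n` -/
def OMinimalStructure.DefFun (S : OMinimalStructure) {n : ℕ} (f : (Fin n → ℝ) → ℝ) : Prop :=
  {z : Fin (n + 1) → ℝ | z 0 = f (Fin.tail z)} ∈ S.Def (n + 1)

/-- A definable manifold structure on the smooth manifold `N`: a finite smooth atlas whose charts
have definable images and definable transition maps. -/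
structure DefinableAtlas (S : OMinimalStructure) (n : ℕ) (N : Type) [TopologicalSpace N]
    [ChartedSpace (Fin n → ℝ) N] where
  ι : Type
  finite : Finite ι
  chart : ι → OpenPartialHomeomorph N (Fin n → ℝ)
  smooth : ∀ i, chart i ∈ IsManifold.maximalAtlas 𝓘(ℝ, Fin n → ℝ) ∞ N
  cover : ∀ x : N, ∃ i, x ∈ (chart i).source
  image_def : ∀ i, (chart i).target ∈ S.Def n
  transition_def : ∀ i j, S.DefMapOn ((chart i).symm.trans (chart j)).source
    ((chart i).symm.trans (chart j))

/-- the image of the tangent vector `v` at `x` under the differential of `g : N → M`, for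
manifolds modelled on the normed space `E` -/
noncomputable def push {E N M : Type} [NormedAddCommGroup E] [NormedSpace ℝ E]
    [TopologicalSpace N] [ChartedSpace E N] [TopologicalSpace M] [ChartedSpace E M] (g : N → M)
    (x : N) (v : TangentSpace 𝓘(ℝ, E) x) : TangentSpace 𝓘(ℝ, E) (g x) :=
  mfderiv 𝓘(ℝ, E) 𝓘(ℝ, E) g x v

/-- the vector field `V` on `N` read in the chart `φ`: at the point `x` of the target of `φ` it is
the image of `V` at `φ.symm x` under the differential of `φ` -/
noncomputable def chartField {E N : Type} [NormedAddCommGroup E] [NormedSpace ℝ E]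
    [TopologicalSpace N] [ChartedSpace E N] (φ : OpenPartialHomeomorph N E)
    (V : ∀ x : N, TangentSpace 𝓘(ℝ, E) x) (x : E) : E :=
  push φ (φ.symm x) (V (φ.symm x))

/-- the components of the vector field `V` in the charts of the atlas are definable functions -/
def DefinableAtlas.DefField {S : OMinimalStructure} {n : ℕ} {N : Type} [TopologicalSpace N]
    [ChartedSpace (Fin n → ℝ) N] (𝒜 : DefinableAtlas S n N)
    (V : ∀ x : N, TangentSpace 𝓘(ℝ, Fin n → ℝ) x) : Prop :=
  ∀ i, S.DefMapOn (𝒜.chart i).target (chartField (𝒜.chart i) V)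

/-- Hypothesis (H) for a vector field `V` on `N`: for some o-minimal expansion of the real field,
`N` carries a definable manifold structure for which `V` is definable. -/
def HypH (n : ℕ) (N : Type) [TopologicalSpace N] [ChartedSpace (Fin n → ℝ) N]
    (V : ∀ x : N, TangentSpace 𝓘(ℝ, Fin n → ℝ) x) : Prop :=
  ∃ (S : OMinimalStructure) (𝒜 : DefinableAtlas S n N), 𝒜.DefField V

end Clock
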