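import Pool.Agent.Clock.Defs
import Pool.Agent.Clock.Struct
import Pool.Agent.Clock.DefKit

/-! # Module HH2: hypothesis (H) for a field conjugate to a definable field -/

open scoped ContDiff Manifold

namespace Clock
namespace HHAux

/-- the homeomorphism given by a diffeomorphism -/
def homeo {Φ : (Fin 8 → ℝ) ≃ (Fin 8 → ℝ)} (hΦ : IsDiffeo Φ) : (Fin 8 → ℝ) ≃ₜ (Fin 8 → ℝ) where
  toEquiv := Φ
  continuous_toFun := hΦ.1.continuous
  continuous_invFun := hΦ.2.continuous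

/-- the global chart -/
def ch {Φ : (Fin 8 → ℝ) ≃ (Fin 8 → ℝ)} (hΦ : IsDiffeo Φ) :
    OpenPartialHomeomorph (Fin 8 → ℝ) (Fin 8 → ℝ) := (homeo hΦ).toOpenPartialHomeomorph

theorem ch_mem {Φ : (Fin 8 → ℝ) ≃ (Fin 8 → ℝ)} (hΦ : IsDiffeo Φ) :
    ch hΦ ∈ IsManifold.maximalAtlas 𝓘(ℝ, Fin 8 → ℝ) ∞ (Fin 8 → ℝ) := by
  apply StructureGroupoid.mem_maximalAtlas_of_mem_groupoid
  rw [contDiffGroupoid, mem_groupoid_of_pregroupoid, contDiffPregroupoid]
  constructor
  · exact hΦ.1.contDiffOn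
  · exact hΦ.2.contDiffOn

end HHAux

open HHAux in
theorem hypH_of_conj (S : OMinimalStructure) (Φ : (Fin 8 → ℝ) ≃ (Fin 8 → ℝ)) (hΦ : IsDiffeo Φ)
    (X Y : (Fin 8 → ℝ) → (Fin 8 → ℝ)) (h : ∀ x, fderiv ℝ Φ x (X x) = Y (Φ x))
    (hY : S.DefMapOn Set.univ Y) : HypH 8 (Fin 8 → ℝ) X := by
  refine ⟨S, ⟨Unit, inferInstance, fun _ => ch hΦ, fun _ => ch_mem hΦ,
    fun x => ⟨(), Set.mem_univ x⟩, fun _ => ?_, fun _ _ => ?_⟩, fun _ => ?_⟩
  · exact def_univ S 8
  · have h1 : ((ch hΦ).symm.trans (ch hΦ)).source = Set.univ := by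
      simp [ch]
    have h2 : (((ch hΦ).symm.trans (ch hΦ)) : (Fin 8 → ℝ) → (Fin 8 → ℝ)) = fun x => x := by
      funext x
      exact Φ.apply_symm_apply x
    rw [h1, h2]
    exact defMap_of_components S (fun j => defFun_coord S j)
  · have h1 : (ch hΦ).target = Set.univ := rfl
    have h2 : chartField (ch hΦ) X = Y := by
      funext x
      unfold chartField push
      rw [mfderiv_eq_fderiv]
      have := h (Φ.symm x)
      rw [Φ.apply_symm_apply] at this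
      exact this
    change S.DefMapOn (ch hΦ).target _
    rw [h1]
    exact h2 ▸ hY

end Clock
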