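import Pool.Agent.Clock.Defs

/-! # Module NH: a symmetry of the field cannot map a periodic point to a non-periodic one -/

open scoped ContDiff

namespace Clock

theorem no_symmetry {X : (Fin 8 → ℝ) → (Fin 8 → ℝ)} {ψ : ℝ → (Fin 8 → ℝ) → (Fin 8 → ℝ)}
    (hψ : IsFlow ψ) (hX : ContDiff ℝ ∞ X)
    (hd : ∀ t x, HasDerivAt (fun s => ψ s x) (X (ψ t x)) t) {p q : Fin 8 → ℝ} {T : ℝ}
    (hp : ψ T p = p) (hq : ψ T q ≠ q) (g : (Fin 8 → ℝ) → (Fin 8 → ℝ)) (hg : ContDiff ℝ ∞ g)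
    (hgX : ∀ x, fderiv ℝ g x (X x) = X (g x)) : g p ≠ q := by
  intro hgp
  apply hq
  set F : ℝ × (Fin 8 → ℝ) → (Fin 8 → ℝ) := fun q => ψ q.1 q.2 with hF
  have hFd : ∀ z, HasFDerivAt F (fderiv ℝ F z) z := fun z =>
    (hψ.smooth.differentiable (by simp)).differentiableAt.hasFDerivAt
  have h1 : ∀ s x, fderiv ℝ F (s, x) (1, 0) = X (ψ s x) := by
    intro s x
    have hc : HasDerivAt (fun s : ℝ => ((s, x) : ℝ × (Fin 8 → ℝ))) (1, 0) s :=
      (hasDerivAt_id s).prodMk (hasDerivAt_const s x)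
    have := (hFd (s, x)).comp_hasDerivAt s hc
    exact this.unique (hd s x)
  have h2 : ∀ s x, fderiv ℝ F (s, x) (0, X x) = X (ψ s x) := by
    intro s x
    have hx : HasDerivAt (fun h : ℝ => ψ h x) (X x) 0 := by
      have := hd 0 x
      rwa [hψ.zero] at this
    have hc : HasDerivAt (fun h : ℝ => ((s, ψ h x) : ℝ × (Fin 8 → ℝ))) (0, X x) 0 :=
      (hasDerivAt_const (0 : ℝ) s).prodMk hx
    have h3 : HasFDerivAt F (fderiv ℝ F (s, x)) (s, ψ 0 x) := by
      rw [hψ.zero]; exact hFd (s, x)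
    have h4 := h3.comp_hasDerivAt (0 : ℝ) hc
    have h5 : HasDerivAt (fun h : ℝ => ψ (s + h) x) (X (ψ s x)) 0 := by
      have := (hd (s + 0) x).comp_const_add s 0
      rwa [add_zero] at this
    have h6 : (F ∘ fun h : ℝ => ((s, ψ h x) : ℝ × (Fin 8 → ℝ))) = fun h => ψ (s + h) x := by
      funext h
      simp only [hF, Function.comp]
      rw [hψ.add]
    rw [h6] at h4
    exact h4.unique h5
  have hgd : ∀ x, HasFDerivAt g (fderiv ℝ g x) x := fun x =>
    (hg.differentiable (by simp)).differentiableAt.hasFDerivAt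
  have hδ : ∀ t, HasDerivAt (fun t => g (ψ t p)) (X (g (ψ t p))) t := by
    intro t
    have := (hgd (ψ t p)).comp_hasDerivAt t (hd t p)
    rwa [hgX] at this
  have hε : ∀ t, HasDerivAt (fun t => F (-t, g (ψ t p))) 0 t := by
    intro t
    have hc : HasDerivAt (fun t : ℝ => ((-t, g (ψ t p)) : ℝ × (Fin 8 → ℝ)))
        (-1, X (g (ψ t p))) t := (hasDerivAt_neg t).prodMk (hδ t)
    have h3 := (hFd (-t, g (ψ t p))).comp_hasDerivAt t hc
    have h4 : fderiv ℝ F (-t, g (ψ t p)) (-1, X (g (ψ t p))) = 0 := by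
      have e : ((-1, X (g (ψ t p))) : ℝ × (Fin 8 → ℝ)) = (0, X (g (ψ t p))) - (1, 0) := by
        simp
      rw [e, map_sub, h1, h2, sub_self]
    rw [h4] at h3
    exact h3
  have hconst := is_const_of_deriv_eq_zero (f := fun t => F (-t, g (ψ t p)))
    (fun t => (hε t).differentiableAt) (fun t => (hε t).deriv)
  have h0 := hconst T 0
  simp only [hF, hp, hψ.zero, neg_zero, hgp] at h0
  have h7 := hψ.add T (-T) q
  rw [add_neg_cancel, hψ.zero, h0] at h7
  exact h7.symm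

end Clock
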