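import Pool.Agent.Clock.Fiber
import Pool.Agent.Clock.Glue
import Pool.Agent.Clock.Arith

/-!
# The clock vector field: a planar diffeomorphism moving lattice boxes to a line
-/

open scoped ContDiff

namespace Clock

/-- the shear `(x, y) ↦ (x - g y, y)` -/
private def shearE (g : ℝ → ℝ) : (ℝ × ℝ) ≃ (ℝ × ℝ) where
  toFun p := (p.1 - g p.2, p.2)
  invFun p := (p.1 + g p.2, p.2)
  left_inv p := by simp
  right_inv p := by simp

private theorem shearE_isDiffeo {g : ℝ → ℝ} (hg : ContDiff ℝ ∞ g) : IsDiffeo (shearE g) := by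
  constructor
  · exact (contDiff_fst.sub (hg.comp contDiff_snd)).prodMk contDiff_snd
  · exact (contDiff_fst.add (hg.comp contDiff_snd)).prodMk contDiff_snd

theorem planar : ∃ (K : (ℝ × ℝ) ≃ (ℝ × ℝ)) (e : ℤ × ℤ ≃ ℤ), IsDiffeo K ∧
    ∀ (a b : ℤ) (p q : ℝ), |p| ≤ 4 → |q| ≤ 4 →
      K (10 * a + p, 10 * b + q) = (p, 10 * e (a, b) + q) := by
  obtain ⟨e, r, m, hm, he⟩ := exists_prog
  -- the fibred part
  set R : ℝ → ℝ := stair (fun k => (r k : ℝ)) with hR
  set M : ℝ → ℝ := stair (fun k => (m k : ℝ) - 1) with hM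
  set J : ℝ → ℝ := stair (fun k => (k : ℝ)) with hJ
  have hRc : ContDiff ℝ ∞ R := stair_contDiff _
  have hMc : ContDiff ℝ ∞ M := stair_contDiff _
  have hJc : ContDiff ℝ ∞ J := stair_contDiff _
  have hM0 : ∀ y, 0 ≤ M y := by
    refine stair_nonneg (fun k => ?_)
    have := hm k
    have h2 : (1 : ℝ) ≤ (m k : ℝ) := by exact_mod_cast this
    linarith
  have hJm : Monotone J := by
    refine stair_monotone (fun k l h => ?_)
    exact_mod_cast h
  have hJ0 : ∀ y, 0 ≤ deriv J y := fun y => hJm.deriv_nonneg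
  set F : ℝ × ℝ → ℝ := fun z => z.2 + 10 * R (z.1 / 10) + 10 * M (z.1 / 10) * J (z.2 / 10) with hF
  have hFc : ContDiff ℝ ∞ F := by
    have h1 : ContDiff ℝ ∞ (fun z : ℝ × ℝ => z.1 / 10) := contDiff_fst.div_const 10
    have h2 : ContDiff ℝ ∞ (fun z : ℝ × ℝ => z.2 / 10) := contDiff_snd.div_const 10
    exact (contDiff_snd.add (contDiff_const.mul (hRc.comp h1))).add
      ((contDiff_const.mul (hMc.comp h1)).mul (hJc.comp h2))
  have hder : ∀ x t, HasDerivAt (fun s => F (x, s)) (1 + M (x / 10) * deriv J (t / 10)) t := by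
    intro x t
    have hJd : HasDerivAt J (deriv J (t / 10)) (t / 10) :=
      ((hJc.differentiable (by simp)) (t / 10)).hasDerivAt
    have h3 : HasDerivAt (fun s : ℝ => s / 10) (1 / 10) t := (hasDerivAt_id t).div_const 10
    have h4 : HasDerivAt (fun s : ℝ => J (s / 10)) (deriv J (t / 10) * (1 / 10)) t :=
      HasDerivAt.comp (h₂ := J) t hJd h3
    have h5 : HasDerivAt (fun s : ℝ => s + 10 * R (x / 10) + 10 * M (x / 10) * J (s / 10))
        (1 + 10 * M (x / 10) * (deriv J (t / 10) * (1 / 10))) t :=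
      ((hasDerivAt_id t).add_const (10 * R (x / 10))).add (h4.const_mul (10 * M (x / 10)))
    have h6 : 1 + M (x / 10) * deriv J (t / 10) =
        1 + 10 * M (x / 10) * (deriv J (t / 10) * (1 / 10)) := by ring
    rw [h6]
    exact h5
  have hpos : ∀ x t, 0 < deriv (fun s => F (x, s)) t := by
    intro x t
    rw [(hder x t).deriv]
    have := mul_nonneg (hM0 (x / 10)) (hJ0 (t / 10))
    linarith
  have hsurj : ∀ x, Function.Surjective (fun t => F (x, t)) := by
    intro x
    have hcont : Continuous (fun t => F (x, t)) :=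
      hFc.continuous.comp (continuous_const.prodMk continuous_id)
    have hge : ∀ t, 0 ≤ t → t + F (x, 0) ≤ F (x, t) := by
      intro t ht
      have h1 : J (0 / 10) ≤ J (t / 10) := hJm (by
        have : 0 / 10 ≤ t / 10 := div_le_div_of_nonneg_right ht (by norm_num)
        exact this)
      have h2 := mul_le_mul_of_nonneg_left h1 (mul_nonneg (by norm_num : (0:ℝ) ≤ 10) (hM0 (x / 10)))
      simp only [hF]
      linarith
    have hle : ∀ t, t ≤ 0 → F (x, t) ≤ t + F (x, 0) := by
      intro t ht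
      have h1 : J (t / 10) ≤ J (0 / 10) := hJm (by
        have : t / 10 ≤ 0 / 10 := div_le_div_of_nonneg_right ht (by norm_num)
        exact this)
      have h2 := mul_le_mul_of_nonneg_left h1 (mul_nonneg (by norm_num : (0:ℝ) ≤ 10) (hM0 (x / 10)))
      simp only [hF]
      linarith
    refine hcont.surjective ?_ ?_
    · refine Filter.tendsto_atTop_mono' _ ?_ (Filter.tendsto_atTop_add_const_right _ (F (x, 0))
        Filter.tendsto_id)
      filter_upwards [Filter.eventually_ge_atTop (0 : ℝ)] with t ht using hge t ht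
    · refine Filter.tendsto_atBot_mono' _ ?_ (Filter.tendsto_atBot_add_const_right _ (F (x, 0))
        Filter.tendsto_id)
      filter_upwards [Filter.eventually_le_atBot (0 : ℝ)] with t ht using hle t ht
  obtain ⟨E, hE, hE'⟩ := fiber_diffeo F hFc hpos hsurj
  -- the shear
  set G : ℝ → ℝ := fun y => 10 * stair (fun k => ((e.symm k).1 : ℝ)) (y / 10) with hG
  have hGc : ContDiff ℝ ∞ G :=
    contDiff_const.mul ((stair_contDiff _).comp (contDiff_id.div_const 10))
  refine ⟨E.trans (shearE G), e, hE.trans (shearE_isDiffeo hGc), ?_⟩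
  intro a b p q hp hq
  have key : ∀ (f : ℤ → ℝ) (k : ℤ) (s : ℝ), |s| ≤ 4 → stair f ((10 * k + s) / 10) = f k := by
    intro f k s hs
    refine stair_eq f k ?_
    have : (10 * (k : ℝ) + s) / 10 - k = s / 10 := by ring
    rw [this, abs_div, abs_of_pos (by norm_num : (0 : ℝ) < 10)]
    rw [div_le_div_iff₀ (by norm_num) (by norm_num)]
    linarith
  have h1 : F (10 * (a : ℝ) + p, 10 * (b : ℝ) + q) = 10 * (e (a, b) : ℝ) + q := by
    simp only [hF, hR, hM, hJ]
    rw [key _ a p hp, key _ a p hp, key _ b q hq, he a b]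
    push_cast
    ring
  have h2 : G (10 * (e (a, b) : ℝ) + q) = 10 * (a : ℝ) := by
    simp only [hG]
    rw [key _ (e (a, b)) q hq, Equiv.symm_apply_apply]
  rw [Equiv.trans_apply, hE', h1]
  show (10 * (a : ℝ) + p - G (10 * (e (a, b) : ℝ) + q), 10 * (e (a, b) : ℝ) + q) = _
  rw [h2]
  simp

end Clock
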