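import Pool.Agent.Clock.Defs

/-!
# Smoothness of primitives with parameters
-/

open scoped ContDiff Topology
open MeasureTheory

namespace Clock

namespace PIAux

variable {P : Type} [NormedAddCommGroup P] [NormedSpace ℝ P]

/-- integrals over `[0,1]` of a smooth function with parameters are smooth -/
theorem contDiff_integral_unit {F : ℝ × P → ℝ} (hF : ContDiff ℝ ∞ F) :
    ContDiff ℝ ∞ (fun p : P => ∫ s in (0 : ℝ)..1, F (s, p)) := by
  classical
  let ρ : ContDiffBump (0 : ℝ) := ⟨2, 3, by norm_num, by norm_num⟩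
  let g : P → ℝ → ℝ := fun p y => ρ y * F (-y, p)
  let f : ℝ → ℝ := Set.indicator (Set.Ioc (0 : ℝ) 1) (fun _ => (1 : ℝ))
  have hf : LocallyIntegrable f volume := by
    apply Integrable.locallyIntegrable
    exact (integrable_indicator_iff measurableSet_Ioc).2 (integrableOn_const (by simp) (by simp))
  have hg : ContDiffOn ℝ ∞ (↿g) ((Set.univ : Set P) ×ˢ Set.univ) := by
    apply ContDiff.contDiffOn
    have h1 : ContDiff ℝ ∞ (fun q : P × ℝ => ρ q.2) := ρ.contDiff.comp contDiff_snd
    have h2 : ContDiff ℝ ∞ (fun q : P × ℝ => F (-q.2, q.1)) :=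
      hF.comp (contDiff_snd.neg.prodMk contDiff_fst)
    exact h1.mul h2
  have key := contDiffOn_convolution_right_with_param (𝕜 := ℝ) (n := (⊤ : ℕ∞)) (μ := volume)
    (ContinuousLinearMap.mul ℝ ℝ) (f := f) (g := g) (s := Set.univ)
    (k := Metric.closedBall (0 : ℝ) 3) isOpen_univ (isCompact_closedBall _ _)
    (by
      intro p x _ hx
      have : ρ x = 0 := by
        apply ρ.zero_of_le_dist
        rw [Metric.mem_closedBall, not_le] at hx
        exact hx.le
      simp [g, this]) hf hg
  have key2 : ContDiff ℝ ∞ (fun q : P × ℝ =>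
      (MeasureTheory.convolution f (g q.1) (ContinuousLinearMap.mul ℝ ℝ) volume) q.2) := by
    rw [← contDiffOn_univ]
    simpa using key
  have key3 : ContDiff ℝ ∞ (fun p : P =>
      (MeasureTheory.convolution f (g p) (ContinuousLinearMap.mul ℝ ℝ) volume) (0 : ℝ)) :=
    key2.comp (contDiff_id.prodMk contDiff_const)
  convert key3 using 2 with p
  rw [MeasureTheory.convolution_def, intervalIntegral.integral_of_le zero_le_one,
    ← integral_indicator measurableSet_Ioc]
  congr 1
  ext t
  by_cases ht : t ∈ Set.Ioc (0 : ℝ) 1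
  · have h1 : ρ (0 - t) = 1 := by
      apply ρ.one_of_mem_closedBall
      rw [Metric.mem_closedBall, dist_zero_right, Real.norm_eq_abs, zero_sub, abs_neg, abs_le]
      constructor
      · have := ht.1
        show -(2 : ℝ) ≤ t
        linarith
      · have := ht.2
        show t ≤ (2 : ℝ)
        linarith
    simp [f, g, ht, Set.indicator_of_mem] at h1 ⊢
    rw [h1]
    simp
  · simp [f, ht, Set.indicator_of_notMem]

end PIAux

variable {X : Type} [NormedAddCommGroup X] [NormedSpace ℝ X] [FiniteDimensional ℝ X]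

omit [FiniteDimensional ℝ X] in
/-- primitive of a smooth function with parameters -/
theorem PIAux.contDiff_primitive' {F : ℝ × X → ℝ} (hF : ContDiff ℝ ∞ F) :
    ContDiff ℝ ∞ (fun q : ℝ × X => ∫ s in (0 : ℝ)..q.1, F (s, q.2)) := by
  have h : ContDiff ℝ ∞ (fun q : ℝ × (ℝ × X) => q.2.1 * F (q.2.1 * q.1, q.2.2)) := by
    apply ContDiff.mul
    · exact contDiff_fst.comp contDiff_snd
    · apply hF.comp
      exact ((contDiff_fst.comp contDiff_snd).mul contDiff_fst).prodMk
        (contDiff_snd.comp contDiff_snd)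
  have h2 := PIAux.contDiff_integral_unit h
  convert h2 using 2 with q
  show _ = ∫ (s : ℝ) in (0 : ℝ)..1, q.1 * F (q.1 * s, q.2)
  rw [intervalIntegral.integral_const_mul]
  have := intervalIntegral.mul_integral_comp_mul_left (a := 0) (b := 1)
    (f := fun s => F (s, q.2)) q.1
  simp only [mul_zero, mul_one] at this
  exact this.symm

theorem contDiff_primitive {F : ℝ × X → ℝ} (hF : ContDiff ℝ ∞ F) :
    ContDiff ℝ ∞ (fun q : ℝ × X => ∫ s in (0 : ℝ)..q.1, F (s, q.2)) :=
  PIAux.contDiff_primitive' hF

end Clock
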