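import Pool.Agent.Clock.Cocycle
import Pool.Agent.Clock.Fiber

/-!
# Straightening of a skew flow with positive return
-/

open scoped ContDiff Topology
open MeasureTheory

namespace Clock

namespace STAux

variable {X : Type} [NormedAddCommGroup X] [NormedSpace ℝ X]

/-- the average of the cocycle over `[t, t + τ]` -/
noncomputable def hh (τ : ℝ) (c : ℝ → X → ℝ) (q : X × ℝ) : ℝ :=
  (1 / τ) * ((∫ s in (0 : ℝ)..(q.2 + τ), c s q.1) - ∫ s in (0 : ℝ)..q.2, c s q.1)

variable {φ : ℝ → X → X} {c : ℝ → X → ℝ} {τ : ℝ}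

theorem cont (hc : IsCocycle φ c) (x : X) : Continuous (fun t => c t x) :=
  hc.smooth.continuous.comp (continuous_id.prodMk continuous_const)

theorem hh_eq (hc : IsCocycle φ c) (x : X) (t : ℝ) :
    hh τ c (x, t) = (1 / τ) * ∫ s in t..(t + τ), c s x := by
  unfold hh
  rw [intervalIntegral.integral_interval_sub_left ((cont hc x).intervalIntegrable _ _)
    ((cont hc x).intervalIntegrable _ _)]

theorem hh_zero (hc : IsCocycle φ c) (x : X) :
    hh τ c (x, 0) = (1 / τ) * ∫ s in (0 : ℝ)..τ, c s x := by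
  rw [hh_eq hc, zero_add]

theorem hh_flow (hτ : 0 < τ) (hc : IsCocycle φ c) (x : X) (t r : ℝ) :
    hh τ c (φ t x, r) = hh τ c (x, r + t) - c t x := by
  rw [hh_eq hc, hh_eq hc]
  have h1 : (∫ s in r..(r + τ), c s (φ t x)) = (∫ s in r..(r + τ), (c (s + t) x - c t x)) := by
    congr 1
    ext s
    rw [hc.add]
    ring
  have h2 : Continuous (fun s => c (s + t) x) := (cont hc x).comp (continuous_id.add continuous_const)
  rw [h1, intervalIntegral.integral_sub (h2.intervalIntegrable _ _)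
    (continuous_const.intervalIntegrable _ _), intervalIntegral.integral_const,
    intervalIntegral.integral_comp_add_right (fun s => c s x) t]
  have h3 : r + τ + t = r + t + τ := by ring
  rw [h3]
  simp only [add_sub_cancel_left, smul_eq_mul]
  field_simp

theorem hh_smooth [FiniteDimensional ℝ X] (hc : IsCocycle φ c) : ContDiff ℝ ∞ (hh τ c) := by
  have hP := contDiff_primitive hc.smooth
  have h1 : ContDiff ℝ ∞ (fun q : X × ℝ => ((q.2 + τ, q.1) : ℝ × X)) :=
    (contDiff_snd.add contDiff_const).prodMk contDiff_fst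
  have h2 : ContDiff ℝ ∞ (fun q : X × ℝ => ((q.2, q.1) : ℝ × X)) :=
    contDiff_snd.prodMk contDiff_fst
  exact contDiff_const.mul ((hP.comp h1).sub (hP.comp h2))

theorem hh_hasDerivAt (hc : IsCocycle φ c) (x : X) (t : ℝ) :
    HasDerivAt (fun s => hh τ c (x, s)) ((1 / τ) * c τ (φ t x)) t := by
  have hP : ∀ t : ℝ, HasDerivAt (fun t => ∫ s in (0 : ℝ)..t, c s x) (c t x) t := fun t =>
    intervalIntegral.integral_hasDerivAt_right ((cont hc x).intervalIntegrable _ _)
      ((cont hc x).stronglyMeasurableAtFilter _ _) (cont hc x).continuousAt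
  have h1 : HasDerivAt (fun t => ∫ s in (0 : ℝ)..(t + τ), c s x) (c (t + τ) x) t := by
    have h := (hP (t + τ)).comp t ((hasDerivAt_id t).add_const τ)
    rw [mul_one] at h
    exact h
  have h2 := (h1.sub (hP t)).const_mul (1 / τ)
  refine HasDerivAt.congr_deriv (f := fun s => hh τ c (x, s)) h2 ?_
  rw [_root_.add_comm t τ, hc.add]
  ring

theorem hh_surj (hτ : 0 < τ) (hc : IsCocycle φ c) (hpos : ∀ x, 0 < c τ x)
    (horb : ∀ x, ∃ K : Set X, IsCompact K ∧ ∀ t, φ t x ∈ K) (x : X) :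
    Function.Surjective (fun t => hh τ c (x, t)) := by
  obtain ⟨K, hK, hx⟩ := horb x
  have hcK : ContinuousOn (fun y => c τ y) K :=
    (hc.smooth.continuous.comp (continuous_const.prodMk continuous_id)).continuousOn
  obtain ⟨y0, hy0, hmin⟩ := hK.exists_isMinOn ⟨_, hx 0⟩ hcK
  set ε : ℝ := (1 / τ) * c τ y0 with hε
  have hε0 : 0 < ε := mul_pos (by positivity) (hpos y0)
  have hd : Differentiable ℝ (fun t => hh τ c (x, t)) :=
    fun t => (hh_hasDerivAt hc x t).differentiableAt
  have hd' : ∀ t, ε ≤ deriv (fun t => hh τ c (x, t)) t := by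
    intro t
    rw [(hh_hasDerivAt hc x t).deriv]
    exact mul_le_mul_of_nonneg_left (hmin (hx t)) (by positivity)
  intro y
  set T : ℝ := |y - hh τ c (x, 0)| / ε with hT
  have hT0 : 0 ≤ T := by positivity
  have hεT : ε * T = |y - hh τ c (x, 0)| := by
    rw [hT]
    field_simp
  have h1 := mul_sub_le_image_sub_of_le_deriv hd hd' hT0
  have h2 := mul_sub_le_image_sub_of_le_deriv hd hd' (neg_nonpos.2 hT0)
  simp only [sub_zero, sub_neg_eq_add, zero_add] at h1 h2
  rw [hεT] at h1 h2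
  have h3 := abs_le.1 (le_refl |y - hh τ c (x, 0)|)
  have h4 := intermediate_value_Icc (neg_le_self hT0) hd.continuous.continuousOn
  have h5 : y ∈ Set.Icc ((fun t => hh τ c (x, t)) (-T)) ((fun t => hh τ c (x, t)) T) := by
    constructor
    · show hh τ c (x, -T) ≤ y
      linarith [h3.1]
    · show y ≤ hh τ c (x, T)
      linarith [h3.2]
  obtain ⟨t, -, ht⟩ := h4 h5
  exact ⟨t, ht⟩

end STAux

open STAux in
theorem straighten {X : Type} [NormedAddCommGroup X] [NormedSpace ℝ X] [FiniteDimensional ℝ X]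
    {φ : ℝ → X → X} (hφ : IsFlow φ) {c : ℝ → X → ℝ} (hc : IsCocycle φ c) {τ : ℝ} (hτ : 0 < τ)
    (hpos : ∀ x, 0 < c τ x) (horb : ∀ x, ∃ K : Set X, IsCompact K ∧ ∀ t, φ t x ∈ K) :
    ∃ e : (X × ℝ) ≃ (X × ℝ), IsDiffeo e ∧
      ∀ x t, e (x, t) = (φ t x, c t x - (1 / τ) * ∫ s in (0 : ℝ)..τ, c s x) := by
  have : CompleteSpace X := FiniteDimensional.complete ℝ X
  obtain ⟨E, hE, hEx⟩ := fiber_diffeo (hh τ c) (hh_smooth hc)
    (fun x t => by
      rw [(hh_hasDerivAt hc x t).deriv]
      exact mul_pos (by positivity) (hpos _))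
    (hh_surj hτ hc hpos horb)
  -- the time to the level set
  have hE1 : ∀ q : X × ℝ, hh τ c (q.1, (E.symm q).2) = q.2 := by
    intro q
    have h1 : E (E.symm q) = q := E.apply_symm_apply q
    have h2 := hEx (E.symm q).1 (E.symm q).2
    rw [show ((E.symm q).1, (E.symm q).2) = E.symm q from rfl, h1] at h2
    have h3 : q.1 = (E.symm q).1 := (Prod.ext_iff.1 h2).1
    have h4 : q.2 = hh τ c ((E.symm q).1, (E.symm q).2) := (Prod.ext_iff.1 h2).2
    rw [h3]
    exact h4.symm
  have hE2 : ∀ x t, (E.symm (x, hh τ c (x, t))).2 = t := by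
    intro x t
    rw [← hEx x t, E.symm_apply_apply]
  let e : (X × ℝ) ≃ (X × ℝ) :=
    { toFun := fun q => (φ q.2 q.1, c q.2 q.1 - hh τ c (q.1, 0))
      invFun := fun q => (φ (E.symm (q.1, -q.2)).2 q.1, -(E.symm (q.1, -q.2)).2)
      left_inv := by
        rintro ⟨x, t⟩
        have h1 : (E.symm (φ t x, -(c t x - hh τ c (x, 0)))).2 = -t := by
          have h2 : -(c t x - hh τ c (x, 0)) = hh τ c (φ t x, -t) := by
            rw [hh_flow hτ hc, neg_add_cancel]
            ring
          rw [h2, hE2]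
        simp only
        rw [h1, hφ.neg_add, neg_neg]
      right_inv := by
        rintro ⟨x, z⟩
        simp only
        have h1 := hE1 (x, -z)
        simp only at h1
        set s := (E.symm (x, -z)).2 with hs
        rw [hφ.neg_add, hh_flow hτ hc, zero_add, h1]
        have h2 := hc.add (-s) s x
        rw [neg_add_cancel, hc.zero hφ] at h2
        refine Prod.ext rfl ?_
        show c (-s) (φ s x) - (-z - c s x) = z
        linarith }
  have hsw : ContDiff ℝ ∞ (fun q : X × ℝ => ((q.2, q.1) : ℝ × X)) :=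
    contDiff_snd.prodMk contDiff_fst
  refine ⟨e, ⟨?_, ?_⟩, ?_⟩
  · show ContDiff ℝ ∞ (fun q : X × ℝ => (φ q.2 q.1, c q.2 q.1 - hh τ c (q.1, 0)))
    have h1 : ContDiff ℝ ∞ (fun q : X × ℝ => φ q.2 q.1) := hφ.smooth.comp hsw
    have h2 : ContDiff ℝ ∞ (fun q : X × ℝ => c q.2 q.1) := hc.smooth.comp hsw
    have h3 : ContDiff ℝ ∞ (fun q : X × ℝ => hh τ c (q.1, 0)) :=
      (hh_smooth hc).comp (contDiff_fst.prodMk contDiff_const)
    exact h1.prodMk (h2.sub h3)
  · show ContDiff ℝ ∞ (fun q : X × ℝ =>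
      (φ (E.symm (q.1, -q.2)).2 q.1, -(E.symm (q.1, -q.2)).2))
    have h1 : ContDiff ℝ ∞ (fun q : X × ℝ => (E.symm (q.1, -q.2)).2) :=
      contDiff_snd.comp (hE.2.comp (contDiff_fst.prodMk contDiff_snd.neg))
    have h2 : ContDiff ℝ ∞ (fun q : X × ℝ => φ (E.symm (q.1, -q.2)).2 q.1) :=
      hφ.smooth.comp (h1.prodMk contDiff_fst)
    exact h2.prodMk h1.neg
  · intro x t
    show (φ t x, c t x - hh τ c (x, 0)) = _
    rw [hh_zero hc]

end Clock
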