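import Mathlib

/-!
# The torus `ℝ^8 / (10 ℤ)^8` and vector fields on it
-/

open scoped ContDiff Manifold Topology
open Set Filter

namespace Clock

/-- the lattice -/
def Lat : AddSubgroup (Fin 8 → ℝ) where
  carrier := {x | ∀ i, ∃ n : ℤ, x i = 10 * n}
  zero_mem' := fun i => ⟨0, by simp⟩
  add_mem' := by
    intro a b ha hb i
    obtain ⟨n, hn⟩ := ha i
    obtain ⟨m, hm⟩ := hb i
    exact ⟨n + m, by simp [hn, hm]; ring⟩
  neg_mem' := by
    intro a ha i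
    obtain ⟨n, hn⟩ := ha i
    exact ⟨-n, by simp [hn]⟩

theorem lat_small {x : (Fin 8 → ℝ)} (hx : x ∈ Lat) (h : ∀ i, |x i| < 10) : x = 0 := by
  ext i
  obtain ⟨n, hn⟩ := hx i
  have h1 := h i
  rw [hn, abs_mul, abs_of_pos (by norm_num : (0 : ℝ) < 10)] at h1
  have h2 : |(n : ℝ)| < 1 := by linarith only [h1]
  have h3 : |n| < 1 := by exact_mod_cast h2
  have h4 : n = 0 := Int.abs_lt_one_iff.1 h3
  rw [hn, h4]
  simp

theorem lat_discrete : IsDiscrete (Lat : Set (Fin 8 → ℝ)) := by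
  rw [isDiscrete_iff_forall_mem_exists_isOpen]
  intro x hx
  refine ⟨Metric.ball x 1, Metric.isOpen_ball, ?_⟩
  ext y
  simp only [mem_inter_iff, SetLike.mem_coe, mem_singleton_iff, Metric.mem_ball]
  constructor
  · rintro ⟨h1, h2⟩
    have h3 : y - x ∈ Lat := Lat.sub_mem h2 hx
    have h4 := lat_small h3 (fun i => by
      have h5 : dist (y i) (x i) ≤ dist y x := dist_le_pi_dist y x i
      rw [Real.dist_eq] at h5
      simp only [Pi.sub_apply]
      linarith only [h5, h1])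
    exact sub_eq_zero.1 h4
  · rintro rfl
    exact ⟨by simp, hx⟩

theorem lat_closed : IsClosed (Lat : Set (Fin 8 → ℝ)) := by
  have : (Lat : Set (Fin 8 → ℝ)) = ⋂ i : Fin 8, (fun x : (Fin 8 → ℝ) => x i / 10) ⁻¹' (Set.range ((↑) : ℤ → ℝ)) := by
    ext x
    simp only [mem_iInter, mem_preimage, mem_range, SetLike.mem_coe]
    constructor
    · intro h i
      obtain ⟨n, hn⟩ := h i
      exact ⟨n, by rw [hn]; ring⟩
    · intro h i
      obtain ⟨n, hn⟩ := h i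
      exact ⟨n, by rw [hn]; ring⟩
  rw [this]
  exact isClosed_iInter fun i => (Int.isClosedEmbedding_coe_real.isClosed_range).preimage
    ((continuous_apply i).div_const 10)

/-- the torus -/
abbrev M8 : Type := (Fin 8 → ℝ) ⧸ Lat

/-- the projection -/
def pi8 : (Fin 8 → ℝ) → M8 := QuotientAddGroup.mk

instance : T2Space M8 := by
  have : IsClosed (Lat : Set (Fin 8 → ℝ)) := lat_closed
  infer_instance

theorem pi8_eq {x y : (Fin 8 → ℝ)} : pi8 x = pi8 y ↔ y - x ∈ Lat := by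
  unfold pi8
  rw [QuotientAddGroup.eq, neg_add_eq_sub]

theorem pi8_cover : IsCoveringMap pi8 :=
  (AddSubgroup.isAddQuotientCoveringMap_of_comm Lat lat_discrete).isCoveringMap

theorem pi8_surj : Function.Surjective pi8 := Quotient.mk_surjective

theorem pi8_lh : IsLocalHomeomorph pi8 := pi8_cover.isLocalHomeomorph

instance : ConnectedSpace M8 := pi8_surj.connectedSpace pi8_lh.continuous

instance : CompactSpace M8 := by
  have h1 : IsCompact (Set.Icc (0 : (Fin 8 → ℝ)) (fun _ => 10)) := isCompact_Icc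
  have h2 := h1.image pi8_lh.continuous
  have h3 : pi8 '' (Set.Icc (0 : (Fin 8 → ℝ)) (fun _ => 10)) = Set.univ := by
    rw [eq_univ_iff_forall]
    intro m
    obtain ⟨x, rfl⟩ := pi8_surj m
    refine ⟨fun i => x i - 10 * ⌊x i / 10⌋, ⟨?_, ?_⟩, ?_⟩
    · intro i
      have := Int.floor_le (x i / 10)
      simp only [Pi.zero_apply]
      linarith only [this]
    · intro i
      have := (Int.lt_floor_add_one (x i / 10)).le
      simp only
      linarith only [this]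
    · rw [pi8_eq]
      intro i
      exact ⟨⌊x i / 10⌋, by simp⟩
  rw [h3] at h2
  exact ⟨h2⟩

/-- a section of the projection -/
noncomputable def sec8 (m : M8) : (Fin 8 → ℝ) := (pi8_surj m).choose

theorem pi8_sec8 (m : M8) : pi8 (sec8 m) = m := (pi8_surj m).choose_spec

/-- local section through `x` -/
noncomputable def loc8 (x : (Fin 8 → ℝ)) : OpenPartialHomeomorph M8 (Fin 8 → ℝ) := pi8_lh.localInverseAt x

theorem loc8_symm (x : (Fin 8 → ℝ)) : ⇑(loc8 x).symm = pi8 := pi8_lh.localInverseAt_symm x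

theorem loc8_self (x : (Fin 8 → ℝ)) : pi8 x ∈ (loc8 x).source := pi8_lh.apply_self_mem_localInverseAt_source

theorem pi8_loc8 (x : (Fin 8 → ℝ)) {m : M8} (hm : m ∈ (loc8 x).source) : pi8 (loc8 x m) = m := by
  have := (loc8 x).left_inv hm
  rwa [loc8_symm] at this

noncomputable instance : ChartedSpace (Fin 8 → ℝ) M8 where
  atlas := Set.range loc8
  chartAt m := loc8 (sec8 m)
  mem_chart_source m := by
    have := loc8_self (sec8 m)
    rwa [pi8_sec8] at this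
  chart_mem_atlas m := ⟨_, rfl⟩

/-- local sections differ locally from the identity by a translation -/
theorem loc8_transl (a x : (Fin 8 → ℝ)) (hx : pi8 x ∈ (loc8 a).source) :
    ∀ᶠ y in 𝓝 x, loc8 a (pi8 y) = y + (loc8 a (pi8 x) - x) := by
  have hc : ContinuousAt (fun y => loc8 a (pi8 y) - y) x :=
    (((loc8 a).continuousAt hx).comp pi8_lh.continuous.continuousAt).sub continuousAt_id
  have h1 : ∀ᶠ y in 𝓝 x, pi8 y ∈ (loc8 a).source :=
    pi8_lh.continuous.continuousAt.preimage_mem_nhds ((loc8 a).open_source.mem_nhds hx)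
  have h2 : ∀ᶠ y in 𝓝 x, dist (loc8 a (pi8 y) - y) (loc8 a (pi8 x) - x) < 1 :=
    hc.eventually (Metric.ball_mem_nhds _ one_pos)
  filter_upwards [h1, h2] with y hy1 hy2
  have h3 : loc8 a (pi8 y) - y ∈ Lat := by
    rw [← pi8_eq]; exact (pi8_loc8 a hy1).symm
  have h4 : loc8 a (pi8 x) - x ∈ Lat := by
    rw [← pi8_eq]; exact (pi8_loc8 a hx).symm
  have h5 := lat_small (Lat.sub_mem h3 h4) (fun i => by
    have h6 : dist ((loc8 a (pi8 y) - y) i) ((loc8 a (pi8 x) - x) i) ≤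
        dist (loc8 a (pi8 y) - y) (loc8 a (pi8 x) - x) := dist_le_pi_dist _ _ i
    rw [Real.dist_eq] at h6
    simp only [Pi.sub_apply] at h6 ⊢
    linarith only [h6, hy2])
  have h6 := sub_eq_zero.1 h5
  rw [← h6]
  abel

instance : IsManifold 𝓘(ℝ, Fin 8 → ℝ) ∞ M8 := by
  apply isManifold_of_contDiffOn
  rintro e e' ⟨a, rfl⟩ ⟨b, rfl⟩
  simp only [modelWithCornersSelf_coe, modelWithCornersSelf_coe_symm, Function.comp_id,
    Function.id_comp, preimage_id, range_id, inter_univ]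
  intro x hx
  have hx2 : pi8 x ∈ (loc8 b).source := by
    have h := hx.2
    simp only [mem_preimage] at h
    have e1 : (loc8 a).symm.symm.symm x = pi8 x := by
      rw [OpenPartialHomeomorph.symm_symm, loc8_symm]
    rwa [e1] at h
  refine ContDiffAt.contDiffWithinAt ?_
  have : (⇑((loc8 a).symm.trans (loc8 b))) = fun y => loc8 b (pi8 y) := by
    ext y
    simp [loc8_symm]
  rw [this]
  refine ContDiffAt.congr_of_eventuallyEq ?_ (loc8_transl b x hx2)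
  fun_prop

theorem loc8_mem_maximal (x : (Fin 8 → ℝ)) : loc8 x ∈ IsManifold.maximalAtlas 𝓘(ℝ, Fin 8 → ℝ) ∞ M8 :=
  IsManifold.subset_maximalAtlas ⟨x, rfl⟩

theorem loc8_smooth (x : (Fin 8 → ℝ)) : ContMDiffOn 𝓘(ℝ, Fin 8 → ℝ) 𝓘(ℝ, Fin 8 → ℝ) ∞ (loc8 x) (loc8 x).source :=
  contMDiffOn_of_mem_maximalAtlas (loc8_mem_maximal x)

theorem pi8_smooth : ContMDiff 𝓘(ℝ, Fin 8 → ℝ) 𝓘(ℝ, Fin 8 → ℝ) ∞ pi8 := by
  intro x
  have h1 := contMDiffOn_symm_of_mem_maximalAtlas (loc8_mem_maximal x)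
  rw [loc8_symm] at h1
  exact h1.contMDiffAt ((loc8 x).open_target.mem_nhds
    (pi8_lh.self_mem_localInverseAt_target))

theorem chartAt_M8 (m : M8) : chartAt (Fin 8 → ℝ) m = loc8 (sec8 m) := rfl

theorem pi8_mfderiv (x : (Fin 8 → ℝ)) :
    HasMFDerivAt 𝓘(ℝ, Fin 8 → ℝ) 𝓘(ℝ, Fin 8 → ℝ) pi8 x (ContinuousLinearMap.id ℝ (Fin 8 → ℝ)) := by
  refine ⟨pi8_lh.continuous.continuousAt, ?_⟩
  have h1 : pi8 x ∈ (loc8 (sec8 (pi8 x))).source := by
    have := loc8_self (sec8 (pi8 x))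
    rwa [pi8_sec8] at this
  have h2 := loc8_transl (sec8 (pi8 x)) x h1
  have h3 : writtenInExtChartAt 𝓘(ℝ, Fin 8 → ℝ) 𝓘(ℝ, Fin 8 → ℝ) x pi8 =
      fun y => loc8 (sec8 (pi8 x)) (pi8 y) := rfl
  rw [h3]
  have h4 : HasFDerivAt (fun y => loc8 (sec8 (pi8 x)) (pi8 y)) (ContinuousLinearMap.id ℝ (Fin 8 → ℝ)) x :=
    HasFDerivAt.congr_of_eventuallyEq ((hasFDerivAt_id x).add_const _) h2
  exact h4.hasFDerivWithinAt

theorem pi8_localDiffeo : IsLocalDiffeomorph 𝓘(ℝ, Fin 8 → ℝ) 𝓘(ℝ, Fin 8 → ℝ) ∞ pi8 := by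
  intro x
  refine ⟨{ toPartialEquiv := (loc8 x).symm.toPartialEquiv
            open_source := (loc8 x).open_target
            open_target := (loc8 x).open_source
            contMDiffOn_toFun := ?_
            contMDiffOn_invFun := ?_ }, ?_, ?_⟩
  · exact contMDiffOn_symm_of_mem_maximalAtlas (loc8_mem_maximal x)
  · exact loc8_smooth x
  · exact pi8_lh.self_mem_localInverseAt_target
  · intro y _
    exact (congrFun (loc8_symm x) y).symm

theorem torus_pack (X : (Fin 8 → ℝ) → (Fin 8 → ℝ)) (hX : ContDiff ℝ ∞ X)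
    (hper : ∀ (n : Fin 8 → ℤ) (x : Fin 8 → ℝ), X (fun i => x i + 10 * n i) = X x) :
    ∃ (M : Type) (_ : TopologicalSpace M) (_ : ChartedSpace (Fin 8 → ℝ) M)
      (_ : IsManifold 𝓘(ℝ, Fin 8 → ℝ) ∞ M) (_ : T2Space M) (_ : CompactSpace M)
      (_ : ConnectedSpace M) (XM : ∀ m : M, TangentSpace 𝓘(ℝ, Fin 8 → ℝ) m)
      (π : (Fin 8 → ℝ) → M),
      ContMDiff 𝓘(ℝ, Fin 8 → ℝ) (𝓘(ℝ, Fin 8 → ℝ).tangent) ∞
        (fun m => (⟨m, XM m⟩ : TangentBundle 𝓘(ℝ, Fin 8 → ℝ) M)) ∧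
      IsCoveringMap π ∧ Function.Surjective π ∧
      IsLocalDiffeomorph 𝓘(ℝ, Fin 8 → ℝ) 𝓘(ℝ, Fin 8 → ℝ) ∞ π ∧
      ∀ x, mfderiv 𝓘(ℝ, Fin 8 → ℝ) 𝓘(ℝ, Fin 8 → ℝ) π x (X x) = XM (π x) := by
  have hX2 : ∀ x y : (Fin 8 → ℝ), pi8 x = pi8 y → X x = X y := by
    intro x y h
    rw [pi8_eq] at h
    choose n hn using h
    rw [← hper n x]
    congr 1
    ext i
    rw [← hn i]
    simp
  refine ⟨M8, inferInstance, inferInstance, inferInstance, inferInstance, inferInstance,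
    inferInstance, fun m => X (sec8 m), pi8, ?_, pi8_cover, pi8_surj, pi8_localDiffeo, ?_⟩
  · have key : ContMDiff 𝓘(ℝ, Fin 8 → ℝ) (𝓘(ℝ, Fin 8 → ℝ).tangent) ∞
        (fun x : (Fin 8 → ℝ) => (⟨pi8 x, X x⟩ : TangentBundle 𝓘(ℝ, Fin 8 → ℝ) M8)) := by
      have h1 : ContMDiff (𝓘(ℝ, Fin 8 → ℝ).tangent) (𝓘(ℝ, Fin 8 → ℝ).tangent) ∞
          (tangentMap 𝓘(ℝ, Fin 8 → ℝ) 𝓘(ℝ, Fin 8 → ℝ) pi8) := pi8_smooth.contMDiff_tangentMap le_rfl
      have h2 : ContMDiff 𝓘(ℝ, Fin 8 → ℝ) (𝓘(ℝ, Fin 8 → ℝ).tangent) ∞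
          (fun x : (Fin 8 → ℝ) => (⟨x, X x⟩ : TangentBundle 𝓘(ℝ, Fin 8 → ℝ) (Fin 8 → ℝ))) := by
        exact contMDiff_vectorSpace_iff_contDiff.2 hX
      have h3 := h1.comp h2
      refine h3.congr ?_
      intro x
      simp only [Function.comp_apply, tangentMap]
      rw [(pi8_mfderiv x).mfderiv]
      rfl
    intro m
    obtain ⟨x, rfl⟩ := pi8_surj m
    have h1 : ContMDiffOn 𝓘(ℝ, Fin 8 → ℝ) (𝓘(ℝ, Fin 8 → ℝ).tangent) ∞
        ((fun x : (Fin 8 → ℝ) => (⟨pi8 x, X x⟩ : TangentBundle 𝓘(ℝ, Fin 8 → ℝ) M8)) ∘ (loc8 x))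
        (loc8 x).source := key.comp_contMDiffOn (loc8_smooth x)
    have h2 := h1.contMDiffAt ((loc8 x).open_source.mem_nhds (loc8_self x))
    refine h2.congr_of_eventuallyEq ?_
    filter_upwards [(loc8 x).open_source.mem_nhds (loc8_self x)] with m hm
    simp only [Function.comp_apply]
    have e1 : pi8 (loc8 x m) = m := pi8_loc8 x hm
    have e2 : X (sec8 m) = X (loc8 x m) := hX2 _ _ (by rw [pi8_sec8, e1])
    rw [e2]
    congr 1
    exact e1.symm
  · intro x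
    rw [(pi8_mfderiv x).mfderiv]
    exact hX2 _ _ (pi8_sec8 (pi8 x)).symm

end Clock
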