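import Pool.Agent.Clock.Defs
import Pool.Agent.Clock.Glue
import Pool.Agent.Clock.Zeta

/-! # Module GG: untwisting map -/

open scoped ContDiff

namespace Clock
namespace GGAux

theorem Jq_re : Jq.re = 0 := rfl
theorem Jq_imI : Jq.imI = 0 := rfl
theorem Jq_imJ : Jq.imJ = 1 := rfl
theorem Jq_imK : Jq.imK = 0 := rfl

theorem Jq_mul : Jq * Jq = -1 := by
  apply Quaternion.ext <;>
    simp [Quaternion.re_one, Quaternion.imI_one, Quaternion.imJ_one, Quaternion.imK_one,
      Jq_re, Jq_imI, Jq_imJ, Jq_imK]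

theorem star_Jq : star Jq = -Jq := by
  apply Quaternion.ext <;> simp [Jq_re, Jq_imI, Jq_imJ, Jq_imK]

theorem normSq_Jq : Quaternion.normSq Jq = 1 := by
  rw [Quaternion.normSq_def']; simp [Jq_re, Jq_imI, Jq_imJ, Jq_imK]

theorem norm_Jq : ‖Jq‖ = 1 := by
  have h := Quaternion.normSq_eq_norm_mul_self Jq
  rw [normSq_Jq] at h
  nlinarith [norm_nonneg Jq]

theorem star_eq_inv {q : HH} (h : ‖q‖ = 1) : star q = q⁻¹ := by
  have h1 : Quaternion.normSq q = 1 := by
    rw [Quaternion.normSq_eq_norm_mul_self, h, one_mul]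
  have h2 : q * star q = 1 := by
    rw [Quaternion.self_mul_star, h1]; rfl
  exact eq_inv_of_mul_eq_one_right h2

theorem contDiff_star : ContDiff ℝ ∞ (fun q : HH => star q) :=
  (LinearMap.toContinuousLinearMap
    ({ toFun := star, map_add' := star_add, map_smul' := fun c q => by
        rw [Quaternion.star_smul]; rfl } : HH →ₗ[ℝ] HH)).contDiff

/-- the path from `1` to `-j` -/
noncomputable def rot (φ : ℝ) : HH := (Real.cos φ) • (1 : HH) - (Real.sin φ) • Jq

theorem rot_norm (φ : ℝ) : ‖rot φ‖ = 1 := by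
  have h1 : Quaternion.normSq (rot φ) = 1 := by
    rw [Quaternion.normSq_def']
    simp [rot, Jq_re, Jq_imI, Jq_imJ, Jq_imK, Quaternion.re_one, Quaternion.imI_one,
      Quaternion.imJ_one, Quaternion.imK_one]
  rw [Quaternion.normSq_eq_norm_mul_self] at h1
  nlinarith [norm_nonneg (rot φ)]

theorem rot_contDiff : ContDiff ℝ ∞ rot := by
  unfold rot
  exact (Real.contDiff_cos.smul contDiff_const).sub (Real.contDiff_sin.smul contDiff_const)

/-- one step of the untwisting -/
noncomputable def H (r : ℝ) (w : ℂ) : HH :=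
  star (RR (((Real.smoothTransition (4 * (r - 1 / 2)) : ℝ) : ℂ) * w)) *
    (Jq * rot (Real.pi / 2 * Real.smoothTransition (4 * (r - 1 / 4))))

theorem H_norm (r : ℝ) (w : ℂ) : ‖H r w‖ = 1 := by
  rw [H, norm_mul, norm_mul, norm_star, RR_norm, norm_Jq, rot_norm]; norm_num

theorem H_left {r : ℝ} (h : r ≤ 1 / 4) (w : ℂ) : H r w = 1 := by
  have h1 : Real.smoothTransition (4 * (r - 1 / 2)) = 0 :=
    Real.smoothTransition.zero_of_nonpos (by linarith)
  have h2 : Real.smoothTransition (4 * (r - 1 / 4)) = 0 :=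
    Real.smoothTransition.zero_of_nonpos (by linarith)
  rw [H, h1, h2]
  simp [RR_zero, rot, star_Jq, Jq_mul]

theorem H_right {r : ℝ} (h : 3 / 4 ≤ r) (w : ℂ) : H r w = (RR w)⁻¹ := by
  have h1 : Real.smoothTransition (4 * (r - 1 / 2)) = 1 :=
    Real.smoothTransition.one_of_one_le (by linarith)
  have h2 : Real.smoothTransition (4 * (r - 1 / 4)) = 1 :=
    Real.smoothTransition.one_of_one_le (by linarith)
  rw [H, h1, h2, star_eq_inv (RR_norm _)]
  simp [rot, Jq_mul]

theorem H_contDiff : ContDiff ℝ ∞ (fun q : ℝ × ℂ => H q.1 q.2) := by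
  unfold H
  refine ContDiff.mul ?_ ?_
  · refine contDiff_star.comp (RR_contDiff.comp ?_)
    refine ContDiff.mul ?_ contDiff_snd
    exact Complex.ofRealCLM.contDiff.comp (Real.smoothTransition.contDiff.comp
      (contDiff_const.mul (contDiff_fst.sub contDiff_const)))
  · refine contDiff_const.mul (rot_contDiff.comp (contDiff_const.mul ?_))
    exact Real.smoothTransition.contDiff.comp
      (contDiff_const.mul (contDiff_fst.sub contDiff_const))

theorem RR_ne (w : ℂ) : RR w ≠ 0 := by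
  intro h
  have := RR_norm w
  rw [h, norm_zero] at this
  norm_num at this

theorem zpow_contDiff (k : ℤ) : ContDiff ℝ ∞ (fun w : ℂ => RR w ^ k) := by
  obtain ⟨n, rfl | rfl⟩ := k.eq_nat_or_neg
  · simpa using RR_contDiff.pow n
  · have : (fun w : ℂ => RR w ^ (-(n : ℤ))) = fun w => (star (RR w)) ^ n := by
      funext w
      rw [star_eq_inv (RR_norm w), zpow_neg, zpow_natCast, inv_pow]
    rw [this]
    exact (contDiff_star.comp RR_contDiff).pow n

theorem shift_contDiff (k : ℤ) :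
    ContDiff ℝ ∞ (fun q : ℝ × ℂ => ((q.1 - (k : ℝ), q.2) : ℝ × ℂ)) := by
  fun_prop

theorem H_shift (k : ℤ) : ContDiff ℝ ∞ (fun q : ℝ × ℂ => H (q.1 - k) q.2) :=
  ContDiff.comp (g := fun q : ℝ × ℂ => H q.1 q.2)
    (f := fun q : ℝ × ℂ => ((q.1 - k, q.2) : ℝ × ℂ)) H_contDiff (shift_contDiff k)

theorem RR_snd (k : ℤ) : ContDiff ℝ ∞ (fun q : ℝ × ℂ => RR q.2 ^ k) :=
  ContDiff.comp (g := fun w : ℂ => RR w ^ k) (f := fun q : ℝ × ℂ => q.2) (zpow_contDiff k)
    contDiff_snd

theorem piece_contDiff (k : ℤ) :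
    ContDiff ℝ ∞ (fun q : ℝ × ℂ => H (q.1 - k) q.2 * RR q.2 ^ (-k)) :=
  (H_shift k).mul (RR_snd (-k))

end GGAux

open GGAux in
theorem exists_G : ∃ G : ℝ → ℂ → HH, ContDiff ℝ ∞ (fun q : ℝ × ℂ => G q.1 q.2) ∧
    (∀ y w, ‖G y w‖ = 1) ∧ ∀ (k : ℤ) (y : ℝ) (w : ℂ), |y - k| ≤ 1 / 4 → G y w = RR w ^ (-k) := by
  have key : ∀ (k : ℤ) (y : ℝ) (w : ℂ), |y - (k + 1)| < 1 / 4 →
      H (y - k) w * RR w ^ (-k) = H (y - (k + 1)) w * RR w ^ (-(k + 1)) := by
    intro k y w h
    rw [abs_lt] at h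
    rw [H_right (by linarith), H_left (by linarith), one_mul, ← zpow_neg_one,
      ← zpow_add₀ (RR_ne w)]
    congr 1
    ring
  refine ⟨fun y w => H (y - ⌊y⌋) w * RR w ^ (-⌊y⌋), ?_, ?_, ?_⟩
  · have := glue_smooth (X := ℂ) (Y := HH) (fun k y w => H (y - k) w * RR w ^ (-k)) ?_
      (ε := 1 / 4) (by norm_num) ?_
    · exact this
    · intro k
      exact piece_contDiff k
    · intro k y w h
      push_cast
      exact key k y w h
  · intro y w
    rw [norm_mul, H_norm, norm_zpow, RR_norm, one_zpow, one_mul]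
  · intro k y w h
    rw [abs_le] at h
    by_cases hk : (k : ℝ) ≤ y
    · have : ⌊y⌋ = k := by
        rw [Int.floor_eq_iff]
        constructor <;> linarith
      simp only [this]
      rw [H_left (by linarith), one_mul]
    · have : ⌊y⌋ = k - 1 := by
        rw [Int.floor_eq_iff]
        push_cast
        constructor <;> linarith
      simp only [this]
      have h2 := H_right (r := y - ((k - 1 : ℤ) : ℝ)) (by push_cast; linarith) w
      rw [h2, ← zpow_neg_one, ← zpow_add₀ (RR_ne w)]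
      congr 1
      ring

end Clock
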